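import Mathlib
import Pool.Agent.Work.MP_787500_nt.QS.Defs
import Pool.Agent.Work.MP_787500_nt.KR.LDefs2

/-!
Quadratic representations in characteristic 0 of the group over the rational numbers: definitions (fixed, do not
change).

`β` is a bilinear form on `E ^ n`; `bil β x y - bil β y x = bil S x (J y)`, `S` symmetric, `J * J = 1`. The group acts
by `ρ`, preserves the alternating form up to `χ`. The correction of `β` is `lamE`.
-/

set_option autoImplicit false
set_option linter.unusedSectionVars false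

namespace Pool.Agent.Work.MP_787500_nt.QV

open Matrix
open Pool.Agent.Work.MP_787500_nt.GP (A0 IsAct d0 d1 d2 tw cup11 cup21 cup12 cup01 cup02 EvPow IsPow OE MN
  actN actQ bN bil mq lft mq_lft mq_eq mq_add mq_smul Wq Lat pr0 lamN mem_OE bil_add_left bil_add_right bil_sub_left
  bil_sub_right bil_smul_left bil_smul_right pr0_zero_of_norm actQ_mq)
open Pool.Agent.Work.MP_787500_nt.KR (FSys Sm1 Sm2 IsChar Smooth Z1 Z2 B2 LocH Pair LDual GlobH Mid Sha2
  IsTr zM z1s b1s LocRep ZV PerpV zV)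
open Pool.Agent.Work.MP_787500_nt.QS (QM Lag selQ HQ Flag pB Zq)
open Pool.Agent.Work.MP_787500_nt.PA (toE)

variable {E : Type*} [NormedField E] [NormedAlgebra ℚ_[2] E] {n : ℕ}

section rep

variable {Γ : Type*} [Group Γ]

/-- the correction of the form -/
noncomputable def lamE (χ : Γ → ℤ_[2]) (β : Matrix (Fin n) (Fin n) E)
    (ρ : Γ → Matrix (Fin n) (Fin n) E) (g : Γ) (x : Fin n → E) : E :=
  (bil β (ρ g *ᵥ x) (ρ g *ᵥ x) - toE E (χ g) * bil β x x) / 2

/-- A quadratic representation with a stable lattice. -/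
structure QRep (S : FSys Γ) (χ : Γ → ℤ_[2]) (l : OE E) (t : E →ₗ[ℚ_[2]] ℚ_[2])
    (T : Submodule (OE E) (Fin n → E)) (β Sm J : Matrix (Fin n) (Fin n) E)
    (ρ : Γ → Matrix (Fin n) (Fin n) E) : Prop where
  lat : Lat Sm l t T
  rep : LocRep S χ T Sm ρ (fun g => J * ρ g * J)
  jj : J * J = 1
  jT : ∀ x ∈ T, J *ᵥ x ∈ T
  alt : ∀ x y, bil β x y - bil β y x = bil Sm x (J *ᵥ y)
  bint : ∀ x ∈ T, ∀ y ∈ T, ‖bil β x y‖ ≤ 1
  qint : ∀ g, ∀ x ∈ T, ‖lamE χ β ρ g x‖ ≤ 1

variable {S : FSys Γ} {χ : Γ → ℤ_[2]} {l : OE E} {t : E →ₗ[ℚ_[2]] ℚ_[2]}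
  {T : Submodule (OE E) (Fin n → E)} {β Sm J : Matrix (Fin n) (Fin n) E}
  {ρ : Γ → Matrix (Fin n) (Fin n) E}

theorem QRep.val (h : QRep S χ l t T β Sm J ρ) (N : ℕ) {x x' y y' : Fin n → E} (hx : x - x' ∈ T)
    (hy : y - y' ∈ T) (hx1 : (l : E) ^ N • x ∈ T) (hy1 : (l : E) ^ N • y' ∈ T) :
    pr0 (t ((l : E) ^ N * bil β x y)) = pr0 (t ((l : E) ^ N * bil β x' y')) := by
  have h1 : (l : E) ^ N * bil β x y - (l : E) ^ N * bil β x' y' =
      bil β ((l : E) ^ N • x) (y - y') + bil β (x - x') ((l : E) ^ N • y') := by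
    rw [bil_smul_left, bil_smul_right, bil_sub_left, bil_sub_right]
    ring
  rw [← sub_eq_zero, ← map_sub, ← map_sub, h1]
  refine pr0_zero_of_norm (h.lat.tint _ ?_)
  have := Gn.ultra 2 E
  exact (IsUltrametricDist.norm_add_le_max _ _).trans
    (max_le (h.bint _ hx1 _ hy) (h.bint _ hx _ hy1))

/-- the form at the level `N` -/
noncomputable def beN (h : QRep S χ l t T β Sm J ρ) (N : ℕ) : MN T l N →+ MN T l N →+ A0 :=
  AddMonoidHom.mk' (fun x => AddMonoidHom.mk'
    (fun y => pr0 (t ((l : E) ^ N * bil β (lft (x : Wq T)) (lft (y : Wq T)))))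
    (fun y y' => by
      have e : pr0 (t ((l : E) ^ N * bil β (lft (x : Wq T)) (lft ((y + y' : MN T l N) : Wq T)))) =
          pr0 (t ((l : E) ^ N * bil β (lft (x : Wq T)) (lft (y : Wq T) + lft (y' : Wq T)))) := by
        refine h.val N (by rw [sub_self]; exact T.zero_mem) ?_ x.lft_mem ?_
        · rw [← mq_eq, mq_lft, mq_add, mq_lft, mq_lft]
          rfl
        · rw [smul_add]
          exact T.add_mem y.lft_mem y'.lft_mem
      rw [e, bil_add_right, mul_add, map_add, map_add]))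
    (fun x x' => by
      ext y
      show pr0 (t ((l : E) ^ N * bil β (lft ((x + x' : MN T l N) : Wq T)) (lft (y : Wq T)))) =
        pr0 (t ((l : E) ^ N * bil β (lft (x : Wq T)) (lft (y : Wq T)))) +
        pr0 (t ((l : E) ^ N * bil β (lft (x' : Wq T)) (lft (y : Wq T))))
      have e : pr0 (t ((l : E) ^ N * bil β (lft ((x + x' : MN T l N) : Wq T)) (lft (y : Wq T)))) =
          pr0 (t ((l : E) ^ N * bil β (lft (x : Wq T) + lft (x' : Wq T)) (lft (y : Wq T)))) := by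
        refine h.val N ?_ (by rw [sub_self]; exact T.zero_mem) (x + x').lft_mem y.lft_mem
        rw [← mq_eq, mq_lft, mq_add, mq_lft, mq_lft]
        rfl
      rw [e, bil_add_left, mul_add, map_add, map_add])

theorem beN_val (h : QRep S χ l t T β Sm J ρ) (N : ℕ) (x y : MN T l N) {x' y' : Fin n → E}
    (hx : mq T x' = x) (hy : mq T y' = y) :
    beN h N x y = pr0 (t ((l : E) ^ N * bil β x' y')) := by
  refine h.val N ?_ ?_ x.lft_mem ?_
  · rw [← mq_eq, mq_lft, hx]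
  · rw [← mq_eq, mq_lft, hy]
  · have h1 := y.2
    rw [Submodule.mem_torsionBy_iff, ← hy, ← mq_smul, GP.mq_eq_zero] at h1
    simpa using h1

/-- the correction at the level `N` -/
noncomputable def laN (χ : Γ → ℤ_[2]) (l : OE E) (t : E →ₗ[ℚ_[2]] ℚ_[2])
    (β : Matrix (Fin n) (Fin n) E) (ρ : Γ → Matrix (Fin n) (Fin n) E)
    (T : Submodule (OE E) (Fin n → E)) (N : ℕ) (a : OE E) (g : Γ) (x : MN T l N) : A0 :=
  pr0 (t ((l : E) ^ N * ((a : E) * lamE χ β ρ g (lft (x : Wq T)))))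

/-- A condition on the continuous cocycles of a local group `P` with values in `E ^ n`: a subspace that
contains the coboundaries and is its own annihilator. -/
structure LagV {P : Type*} [Group P] (TP : FSys P) (χ : P → ℤ_[2])
    (Sm J : Matrix (Fin n) (Fin n) E) (σ : P → Matrix (Fin n) (Fin n) E)
    (L : Submodule E (P → Fin n → E)) : Prop where
  coc : ∀ X ∈ L, ZV TP σ X
  cob : ∀ v, (fun d => σ d *ᵥ v - v) ∈ L
  self : ∀ Y, ZV TP σ Y → (Y ∈ L ↔ ∀ X ∈ L, KP.BE TP χ fun s u => bil Sm (X s) (J *ᵥ (σ s *ᵥ Y u)))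

end rep

section sel

variable {Γ : Type*} [Group Γ] (S : FSys Γ) {I : Type*} {D : I → Type*} [∀ i, Group (D i)]
  (j : ∀ i, D i →* Γ) (ρ : Γ → Matrix (Fin n) (Fin n) E) (L : ∀ i, Submodule E (D i → Fin n → E))

/-- the Selmer space -/
def selE : Submodule E (Γ → Fin n → E) where
  carrier := {X | ZV S ρ X ∧ ∀ i, (fun d => X (j i d)) ∈ L i}
  add_mem' := fun h h' => ⟨(zV S ρ).add_mem h.1 h'.1, fun i => (L i).add_mem (h.2 i) (h'.2 i)⟩
  zero_mem' := ⟨(zV S ρ).zero_mem, fun i => (L i).zero_mem⟩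
  smul_mem' := fun a _ h => ⟨(zV S ρ).smul_mem a h.1, fun i => (L i).smul_mem a (h.2 i)⟩

theorem mem_selE {X : Γ → Fin n → E} :
    X ∈ selE S j ρ L ↔ ZV S ρ X ∧ ∀ i, (fun d => X (j i d)) ∈ L i := Iff.rfl

/-- the Selmer group at the level `N` -/
noncomputable def selNQ {l : OE E} {t : E →ₗ[ℚ_[2]] ℚ_[2]} {T : Submodule (OE E) (Fin n → E)}
    {χ : Γ → ℤ_[2]} {β Sm J : Matrix (Fin n) (Fin n) E} (h : QRep S χ l t T β Sm J ρ) (N : ℕ) :
    Submodule (OE E) (Γ → MN T l N) where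
  carrier := {x | Z1 S (actN l N ρ h.rep.st) x ∧ ∀ i, (fun d => x (j i d)) ∈ lamN T l N (L i)}
  add_mem' := fun {x y} hx hy => by
    refine ⟨⟨?_, ?_⟩, fun i => (lamN T l N (L i)).add_mem (hx.2 i) (hy.2 i)⟩
    · obtain ⟨⟨W, hW, h1⟩, -⟩ := hx.1
      obtain ⟨⟨W', hW', h1'⟩, -⟩ := hy.1
      exact ⟨W ⊓ W', S.inf hW hW', fun g w hw => by
        rw [Pi.add_apply, Pi.add_apply, h1 g w hw.1, h1' g w hw.2]⟩
    · intro a b
      apply Subtype.ext
      have e1 := congrArg Subtype.val (hx.1.2 a b)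
      have e2 := congrArg Subtype.val (hy.1.2 a b)
      rw [Submodule.coe_add, GP.coe_actN] at e1 e2
      rw [Submodule.coe_add, GP.coe_actN, Pi.add_apply, Pi.add_apply, Pi.add_apply,
        Submodule.coe_add, Submodule.coe_add, Submodule.coe_add, e1, e2,
        KR.actQ_add (h.rep.st a)]
      abel
  zero_mem' := by
    refine ⟨⟨?_, fun a b => ?_⟩, fun i => (lamN T l N (L i)).zero_mem⟩
    · obtain ⟨W, hW⟩ := S.ex
      exact ⟨W, hW, fun _ _ _ => rfl⟩
    · apply Subtype.ext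
      have h0 : actQ T (ρ a) (mq T 0) = mq T (ρ a *ᵥ 0) := actQ_mq (h.rep.st a) 0
      rw [mulVec_zero] at h0
      rw [Submodule.coe_add, GP.coe_actN]
      have h1 : mq T (0 : Fin n → E) = 0 := GP.mq_eq_zero.2 T.zero_mem
      rw [h1] at h0
      simp [h0]
  smul_mem' := fun a x hx => by
    refine ⟨⟨?_, ?_⟩, fun i => (lamN T l N (L i)).smul_mem a (hx.2 i)⟩
    · obtain ⟨⟨W, hW, h1⟩, -⟩ := hx.1
      exact ⟨W, hW, fun g w hw => by rw [Pi.smul_apply, Pi.smul_apply, h1 g w hw]⟩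
    · intro u v
      apply Subtype.ext
      have e1 := congrArg Subtype.val (hx.1.2 u v)
      rw [Submodule.coe_add, GP.coe_actN] at e1
      rw [Submodule.coe_add, GP.coe_actN, Pi.smul_apply, Pi.smul_apply, Pi.smul_apply,
        Submodule.coe_smul, Submodule.coe_smul, Submodule.coe_smul, e1,
        KR.actQ_smul (h.rep.st u), smul_add]

end sel

end Pool.Agent.Work.MP_787500_nt.QV
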