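import Mathlib
import Pool.Agent.Work.MP_787500_nt.QV.Defs

/-!
# Module Lv (size S-M): the correction `lamE` and its reductions

* `bil_rho`: the alternating form `B x y = bil β x y - bil β y x = bil Sm x (J y)` is multiplied by `χ g`: `h.rep.dual g x (J y)` says
  `bil Sm (ρ g x) (J * ρ g * J * (J y)) = χ g * bil Sm x (J y)`, and `J * J = 1`.
* `lam_add`: expand `bil β (ρ g (x + y)) (ρ g (x + y))`; the cross terms `bil β (ρ g x) (ρ g y) + bil β (ρ g y) (ρ g x) - χ g (bil β x y + bil β y x)`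
  are `2 (bil β (ρ g x) (ρ g y) - χ g bil β x y)` by `bil_rho`. Divide by 2 (`E` has characteristic 0).
* `lam_smul`, `lam_coc`: direct (`ρ (g h) = ρ g ρ h`, `χ` multiplicative).
* `la_val`: for two lifts `x', x` with `x' - x = u ∈ T`: `lam_add`, `h.qint`, `h.bint` (with `l ^ N • x ∈ T`).
* `pB_beN`: `beN_val`, `bN_val`, `h.alt`.
-/

set_option autoImplicit false
set_option linter.unusedSectionVars false

namespace Pool.Agent.Work.MP_787500_nt.QV

open Matrix
open Pool.Agent.Work.MP_787500_nt.GP (A0 IsAct d0 d1 d2 tw cup11 cup21 cup12 cup01 cup02 EvPow IsPow OE MN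
  actN actQ bN bil mq lft mq_lft mq_eq mq_add mq_smul Wq Lat pr0 lamN mem_OE)
open Pool.Agent.Work.MP_787500_nt.KR (FSys Sm1 Sm2 IsChar Smooth Z1 Z2 B2 LocH LocD Pair LDual GlobH Mid Sha2
  IsTr zM z1s b1s h1 LocRep ZV PerpV zV)
open Pool.Agent.Work.MP_787500_nt.QS (QM Lag selQ HQ Flag pB Zq indY redY)
open Pool.Agent.Work.MP_787500_nt.PA (toE)
open Pool.Agent.Work.MP_787500_nt.GP (bil_add_left bil_add_right bil_sub_left bil_sub_right bil_smul_left
  bil_smul_right pr0_zero_of_norm)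

universe v

section

variable {E : Type v} [NormedField E] [NormedAlgebra ℚ_[2] E] [FiniteDimensional ℚ_[2] E] {n : ℕ}
  {Γ : Type*} [Group Γ] {S : FSys Γ} {χ : Γ → ℤ_[2]} {l : OE E} {t : E →ₗ[ℚ_[2]] ℚ_[2]}
  {T : Submodule (OE E) (Fin n → E)} {β Sm J : Matrix (Fin n) (Fin n) E}
  {ρ : Γ → Matrix (Fin n) (Fin n) E}

theorem bil_rho (h : QRep S χ l t T β Sm J ρ) (g : Γ) (x y : Fin n → E) :
    bil β (ρ g *ᵥ x) (ρ g *ᵥ y) - bil β (ρ g *ᵥ y) (ρ g *ᵥ x) =
      toE E (χ g) * (bil β x y - bil β y x) := by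
  have h1 := h.rep.dual g x (J *ᵥ y)
  have h2 : (J * ρ g * J) *ᵥ (J *ᵥ y) = J *ᵥ (ρ g *ᵥ y) := by
    rw [mulVec_mulVec, Matrix.mul_assoc (J * ρ g) J J, h.jj, Matrix.mul_one, ← mulVec_mulVec]
  rw [h2] at h1
  rw [h.alt, h.alt, h1]

theorem lam_add (h : QRep S χ l t T β Sm J ρ) (g : Γ) (x y : Fin n → E) :
    lamE χ β ρ g (x + y) = lamE χ β ρ g x + lamE χ β ρ g y +
      (bil β (ρ g *ᵥ x) (ρ g *ᵥ y) - toE E (χ g) * bil β x y) := by
  have h1 := bil_rho h g x y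
  have : CharZero E := charZero_of_injective_algebraMap (algebraMap ℚ_[2] E).injective
  simp only [lamE, mulVec_add, bil_add_left, bil_add_right]
  field_simp
  linear_combination (-1 : E) * h1

theorem lam_smul (χ : Γ → ℤ_[2]) (β : Matrix (Fin n) (Fin n) E) (ρ : Γ → Matrix (Fin n) (Fin n) E)
    (g : Γ) (a : E) (x : Fin n → E) : lamE χ β ρ g (a • x) = a ^ 2 * lamE χ β ρ g x := by
  simp only [lamE, mulVec_smul, bil_smul_left, bil_smul_right]
  ring

theorem lam_coc (hm : ∀ g k, ρ (g * k) = ρ g * ρ k) (hχ : ∀ g k, χ (g * k) = χ g * χ k) (g k : Γ)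
    (x : Fin n → E) : lamE χ β ρ (g * k) x = toE E (χ g) * lamE χ β ρ k x +
      lamE χ β ρ g (ρ k *ᵥ x) := by
  have h1 : toE E (χ g * χ k) = toE E (χ g) * toE E (χ k) := by
    rw [toE, toE, toE, ← map_mul, PadicInt.coe_mul]
  simp only [lamE, hm, hχ, h1, mulVec_mulVec]
  ring

theorem la_val (h : QRep S χ l t T β Sm J ρ) (N : ℕ) (a : OE E) (g : Γ) (x : MN T l N)
    {x' : Fin n → E} (hx : mq T x' = x) :
    laN χ l t β ρ T N a g x = pr0 (t ((l : E) ^ N * ((a : E) * lamE χ β ρ g x'))) := by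
  have := Gn.ultra 2 E
  have hu : lft (x : Wq T) - x' ∈ T := by rw [← mq_eq, mq_lft, hx]
  have hx1 : (l : E) ^ N • x' ∈ T := by
    have h1 := x.2
    rw [Submodule.mem_torsionBy_iff, ← hx, ← mq_smul, GP.mq_eq_zero] at h1
    simpa using h1
  have e0 : lft (x : Wq T) = x' + (lft (x : Wq T) - x') := by abel
  generalize lft (x : Wq T) - x' = u at hu e0
  have hl : ‖(l : E) ^ N‖ ≤ 1 := by
    rw [norm_pow]
    exact pow_le_one₀ (norm_nonneg _) (mem_OE.1 l.2)
  have ha : ‖(a : E)‖ ≤ 1 := mem_OE.1 a.2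
  have hc : ‖toE E (χ g)‖ ≤ 1 := by
    rw [toE, norm_algebraMap']
    exact PadicInt.norm_le_one _
  have e1 : (l : E) ^ N * ((a : E) * lamE χ β ρ g (lft (x : Wq T))) -
      (l : E) ^ N * ((a : E) * lamE χ β ρ g x') =
      (l : E) ^ N * ((a : E) * lamE χ β ρ g u) +
      (a : E) * (bil β (ρ g *ᵥ ((l : E) ^ N • x')) (ρ g *ᵥ u)) -
      (a : E) * (toE E (χ g) * bil β ((l : E) ^ N • x') u) := by
    rw [e0, lam_add h]
    simp only [mulVec_smul, bil_smul_left]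
    ring
  rw [laN, ← sub_eq_zero, ← map_sub, ← map_sub, e1]
  refine pr0_zero_of_norm (h.lat.tint _ ?_)
  rw [sub_eq_add_neg]
  refine (IsUltrametricDist.norm_add_le_max _ _).trans
    (max_le ((IsUltrametricDist.norm_add_le_max _ _).trans (max_le ?_ ?_)) ?_)
  · rw [norm_mul, norm_mul]
    exact mul_le_one₀ hl (by positivity) (mul_le_one₀ ha (norm_nonneg _) (h.qint g u hu))
  · rw [norm_mul]
    exact mul_le_one₀ ha (norm_nonneg _)
      (h.bint _ (h.rep.st g _ hx1) _ (h.rep.st g _ hu))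
  · rw [norm_neg, norm_mul, norm_mul]
    exact mul_le_one₀ ha (by positivity) (mul_le_one₀ hc (norm_nonneg _) (h.bint _ hx1 _ hu))

theorem pB_beN (h : QRep S χ l t T β Sm J ρ) (N : ℕ) (x y : MN T l N) :
    pB (beN h N) x y = bN h.lat N x (actN l N (fun _ : Unit => J) (fun _ => h.jT) () y) := by
  have e2 : mq T (J *ᵥ lft (y : Wq T)) =
      (actN l N (fun _ : Unit => J) (fun _ => h.jT) () y : MN T l N) := rfl
  rw [QS.pB_apply, beN_val h N x y (mq_lft _) (mq_lft _), beN_val h N y x (mq_lft _) (mq_lft _),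
    GP.bN_val h.lat N x _ (mq_lft _) e2, ← map_sub, ← map_sub, ← mul_sub, h.alt]

end

end Pool.Agent.Work.MP_787500_nt.QV
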