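import Mathlib
import Pool.Agent.Work.MP_787500_nt.QV.Defs
import Pool.Agent.Work.MP_787500_nt.QV.Lv
import Pool.Agent.Work.MP_787500_nt.QS.KQ
import Pool.Agent.Work.MP_787500_nt.KR.L08

/-!
The quadratic representation `V × V` over the rational numbers of a representation `V` over the imaginary quadratic
field, and its finite levels.

* `ap x y = (x, y)`, `v1`, `v2` the two components of a vector of length `n + n`; `blk A B C D` the block matrix.
* `rho2` the representation, `T2` the lattice `T × T`; `qrep2`: the structure `QRep`.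
* `isoN : MN (T2 T) l N ≃ₗ MN T l N × MN T l N`, compatible with the actions (`iso_act`), the forms (`iso_be`) and the
  corrections (`iso_la`).
-/

set_option autoImplicit false
set_option linter.unusedSectionVars false

namespace Pool.Agent.Work.MP_787500_nt.QV

open Matrix
open Pool.Agent.Work.MP_787500_nt.GP (A0 IsAct d0 d1 d2 tw cup11 cup21 cup12 cup01 cup02 EvPow IsPow OE MN
  actN actQ bN bil mq lft mq_lft mq_eq mq_add mq_smul mq_sub mq_eq_zero Wq Lat pr0 lamN mem_OE bil_add_left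
  bil_add_right bil_sub_left bil_sub_right bil_smul_left bil_smul_right pr0_zero_of_norm actQ_mq bN_val bil_symm)
open Pool.Agent.Work.MP_787500_nt.KR (FSys Sm1 Sm2 IsChar Smooth Z1 Z2 B2 LocH Pair LDual GlobH Mid Sha2
  IsTr zM z1s b1s LocRep ZV PerpV zV)
open Pool.Agent.Work.MP_787500_nt.QS (QM Lag selQ HQ Flag pB Zq Two ac2 be2 la2 be2_apply)
open Pool.Agent.Work.MP_787500_nt.PA (toE)

section vec

variable {E : Type*} {n : ℕ}

/-- the pair of two vectors -/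
def ap (x y : Fin n → E) : Fin (n + n) → E := Fin.append x y

/-- the first component -/
def v1 (v : Fin (n + n) → E) : Fin n → E := fun i => v (Fin.castAdd n i)

/-- the second component -/
def v2 (v : Fin (n + n) → E) : Fin n → E := fun i => v (Fin.natAdd n i)

@[simp] theorem v1_ap (x y : Fin n → E) : v1 (ap x y) = x := funext fun i => Fin.append_left x y i

@[simp] theorem v2_ap (x y : Fin n → E) : v2 (ap x y) = y := funext fun i => Fin.append_right x y i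

theorem ap_v (v : Fin (n + n) → E) : ap (v1 v) (v2 v) = v := by
  funext k
  refine Fin.addCases (fun i => ?_) (fun i => ?_) k
  · exact Fin.append_left _ _ i
  · exact Fin.append_right _ _ i

theorem ap_ext {v w : Fin (n + n) → E} (h1 : v1 v = v1 w) (h2 : v2 v = v2 w) : v = w := by
  rw [← ap_v v, ← ap_v w, h1, h2]

end vec

section mat

variable {E : Type*} [NormedField E] [NormedAlgebra ℚ_[2] E] {n : ℕ}

/-- the block matrix -/
def blk (A B C D : Matrix (Fin n) (Fin n) E) : Matrix (Fin (n + n)) (Fin (n + n)) E :=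
  (Matrix.fromBlocks A B C D).submatrix finSumFinEquiv.symm finSumFinEquiv.symm

theorem blk_mulVec (A B C D : Matrix (Fin n) (Fin n) E) (v : Fin (n + n) → E) :
    blk A B C D *ᵥ v = ap (A *ᵥ v1 v + B *ᵥ v2 v) (C *ᵥ v1 v + D *ᵥ v2 v) := by
  have h : v ∘ (finSumFinEquiv (m := n) (n := n)).symm.symm = Sum.elim (v1 v) (v2 v) := by
    funext k
    rcases k with i | i <;> rfl
  rw [blk, Matrix.submatrix_mulVec_equiv, h, Matrix.fromBlocks_mulVec, Sum.elim_comp_inl,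
    Sum.elim_comp_inr]
  funext k
  refine Fin.addCases (fun i => ?_) (fun i => ?_) k
  · rw [Function.comp_apply, finSumFinEquiv_symm_apply_castAdd]
    exact (Fin.append_left (A *ᵥ v1 v + B *ᵥ v2 v) (C *ᵥ v1 v + D *ᵥ v2 v) i).symm
  · rw [Function.comp_apply, finSumFinEquiv_symm_apply_natAdd]
    exact (Fin.append_right (A *ᵥ v1 v + B *ᵥ v2 v) (C *ᵥ v1 v + D *ᵥ v2 v) i).symm

@[simp] theorem v1_blk (A B C D : Matrix (Fin n) (Fin n) E) (v : Fin (n + n) → E) :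
    v1 (blk A B C D *ᵥ v) = A *ᵥ v1 v + B *ᵥ v2 v := by rw [blk_mulVec, v1_ap]

@[simp] theorem v2_blk (A B C D : Matrix (Fin n) (Fin n) E) (v : Fin (n + n) → E) :
    v2 (blk A B C D *ᵥ v) = C *ᵥ v1 v + D *ᵥ v2 v := by rw [blk_mulVec, v2_ap]

theorem dot_v (v w : Fin (n + n) → E) : v ⬝ᵥ w = v1 v ⬝ᵥ v1 w + v2 v ⬝ᵥ v2 w := by
  show ∑ k, v k * w k = ∑ i, _ + ∑ i, _
  rw [Fin.sum_univ_add]
  rfl

theorem bil_blk (A B C D : Matrix (Fin n) (Fin n) E) (v w : Fin (n + n) → E) :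
    bil (blk A B C D) v w = bil A (v1 v) (v1 w) + bil B (v1 v) (v2 w) + bil C (v2 v) (v1 w) +
      bil D (v2 v) (v2 w) := by
  rw [bil, dot_v, v1_blk, v2_blk, dotProduct_add, dotProduct_add, bil, bil, bil, bil]
  ring

private theorem toE_neg' (u : ℤ_[2]) : toE E (-u) = -toE E u := by
  simp [toE]

theorem bil_zero_mat (x y : Fin n → E) : bil (0 : Matrix (Fin n) (Fin n) E) x y = 0 := by
  rw [bil, Matrix.zero_mulVec, dotProduct_zero]

theorem mat_ext {k : ℕ} {A B : Matrix (Fin k) (Fin k) E} (h : ∀ v, A *ᵥ v = B *ᵥ v) : A = B :=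
  Matrix.ext_of_mulVec_single fun _ => h _

theorem norm_v (v : Fin (n + n) → E) : ‖v‖ = max ‖v1 v‖ ‖v2 v‖ := by
  apply le_antisymm
  · refine (pi_norm_le_iff_of_nonneg (le_max_of_le_left (norm_nonneg _))).2 fun k => ?_
    refine Fin.addCases (fun i => ?_) (fun i => ?_) k
    · exact le_max_of_le_left (norm_le_pi_norm (v1 v) i)
    · exact le_max_of_le_right (norm_le_pi_norm (v2 v) i)
  · refine max_le ?_ ?_
    · exact (pi_norm_le_iff_of_nonneg (norm_nonneg _)).2 fun i => norm_le_pi_norm v (Fin.castAdd n i)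
    · exact (pi_norm_le_iff_of_nonneg (norm_nonneg _)).2 fun i => norm_le_pi_norm v (Fin.natAdd n i)

/-- the first component, as a linear map -/
def l1 : (Fin (n + n) → E) →ₗ[OE E] (Fin n → E) where
  toFun := v1
  map_add' _ _ := rfl
  map_smul' _ _ := rfl

/-- the second component, as a linear map -/
def l2 : (Fin (n + n) → E) →ₗ[OE E] (Fin n → E) where
  toFun := v2
  map_add' _ _ := rfl
  map_smul' _ _ := rfl

/-- the lattice `T × T` -/
def T2 (T : Submodule (OE E) (Fin n → E)) : Submodule (OE E) (Fin (n + n) → E) :=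
  T.comap l1 ⊓ T.comap l2

theorem mem_T2 {T : Submodule (OE E) (Fin n → E)} {v : Fin (n + n) → E} :
    v ∈ T2 T ↔ v1 v ∈ T ∧ v2 v ∈ T := Iff.rfl

end mat

section rep

variable {E : Type*} [NormedField E] [NormedAlgebra ℚ_[2] E] {n : ℕ} {G Γ : Type*} [Group G] [Group Γ]
  (e : G →* Γ) (c : Γ) (κ : G →* G) (ρ : G → Matrix (Fin n) (Fin n) E)

open scoped Classical in
/-- the representation on `V × V` -/
noncomputable def rho2 (σ : Γ) : Matrix (Fin (n + n)) (Fin (n + n)) E :=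
  if h : ∃ g, e g = σ then blk (ρ h.choose) 0 0 (ρ (κ h.choose))
  else if h : ∃ g, e g * c = σ then blk 0 (ρ h.choose) (ρ (κ h.choose)) 0 else 1

variable {e c κ ρ}

theorem rho2_e (X : Two e c κ) (g : G) : rho2 e c κ ρ (e g) = blk (ρ g) 0 0 (ρ (κ g)) := by
  have h : ∃ g', e g' = e g := ⟨g, rfl⟩
  have h1 : h.choose = g := X.inj h.choose_spec
  rw [rho2, dif_pos h, h1]

theorem rho2_ec (X : Two e c κ) (g : G) :
    rho2 e c κ ρ (e g * c) = blk 0 (ρ g) (ρ (κ g)) 0 := by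
  have h0 : ¬∃ g', e g' = e g * c := fun ⟨g', h⟩ => X.out g g' h
  have h : ∃ g', e g' * c = e g * c := ⟨g, rfl⟩
  have h1 : h.choose = g := X.inj (mul_right_cancel h.choose_spec)
  rw [rho2, dif_neg h0, dif_pos h, h1]

theorem rho2_ap (X : Two e c κ) (σ : Γ) (x y : Fin n → E) :
    rho2 e c κ ρ σ *ᵥ ap x y = ap (ac2 e c κ (fun g v => ρ g *ᵥ v) σ (x, y)).1
      (ac2 e c κ (fun g v => ρ g *ᵥ v) σ (x, y)).2 := by
  rcases X.cases σ with ⟨g, rfl⟩ | ⟨g, rfl⟩
  · rw [rho2_e X, X.ac_e, blk_mulVec]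
    simp
  · rw [rho2_ec X, X.ac_ec, blk_mulVec]
    simp

variable {S : FSys G} {Sq : FSys Γ} {χ : G → ℤ_[2]} {χq : Γ → ℤ_[2]} {l : OE E}
  {t : E →ₗ[ℚ_[2]] ℚ_[2]} {T : Submodule (OE E) (Fin n → E)} {b : Matrix (Fin n) (Fin n) E}

/-- the lattice `T × T` is its own dual -/
theorem lat2 (h : Lat b l t T) : Lat (blk 0 b b 0) l t (T2 T) where
  lne := h.lne
  llt := h.llt
  lmax := h.lmax
  tint := h.tint
  tdual := h.tdual
  trep := h.trep
  symm := by
    rw [blk, Matrix.transpose_submatrix, Matrix.fromBlocks_transpose, h.symm,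
      Matrix.transpose_zero]
  dual v := by
    have hb : ∀ w, bil (blk 0 b b 0) v w = bil b (v1 v) (v2 w) + bil b (v2 v) (v1 w) := fun w => by
      rw [bil_blk, bil_zero_mat, bil_zero_mat, zero_add, add_zero]
    constructor
    · rintro ⟨h1, h2⟩ w ⟨k1, k2⟩
      rw [hb]
      have := Gn.ultra 2 E
      exact (IsUltrametricDist.norm_add_le_max _ _).trans
        (max_le ((h.dual _).1 h1 _ k2) ((h.dual _).1 h2 _ k1))
    · intro h1
      refine ⟨(h.dual _).2 fun y hy => ?_, (h.dual _).2 fun y hy => ?_⟩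
      · have h2 := h1 (ap 0 y) ⟨by
          show v1 (ap 0 y) ∈ T
          rw [v1_ap]
          exact T.zero_mem, by
          show v2 (ap 0 y) ∈ T
          rw [v2_ap]
          exact hy⟩
        rw [hb, v1_ap, v2_ap] at h2
        have h3 : bil b (v2 v) 0 = 0 := by rw [bil, mulVec_zero, dotProduct_zero]
        rw [h3, add_zero] at h2
        exact h2
      · have h2 := h1 (ap y 0) ⟨by
          show v1 (ap y 0) ∈ T
          rw [v1_ap]
          exact hy, by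
          show v2 (ap y 0) ∈ T
          rw [v2_ap]
          exact T.zero_mem⟩
        rw [hb, v1_ap, v2_ap] at h2
        have h3 : bil b (v1 v) 0 = 0 := by rw [bil, mulVec_zero, dotProduct_zero]
        rw [h3, zero_add] at h2
        exact h2
  bdd := by
    obtain ⟨R, hR⟩ := h.bdd
    refine ⟨R, fun v hv => ?_⟩
    rw [norm_v]
    exact max_le (hR _ hv.1) (hR _ hv.2)
  opn := by
    obtain ⟨r, hr, h1⟩ := h.opn
    refine ⟨r, hr, fun v hv => ?_⟩
    rw [norm_v, max_lt_iff] at hv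
    exact ⟨h1 _ hv.1, h1 _ hv.2⟩

/-- the involution -/
def J2 (E : Type*) [NormedField E] (n : ℕ) : Matrix (Fin (n + n)) (Fin (n + n)) E :=
  (Matrix.fromBlocks (-1) 0 0 1).submatrix finSumFinEquiv.symm finSumFinEquiv.symm

theorem v1_J2 (v : Fin (n + n) → E) : v1 (J2 E n *ᵥ v) = -v1 v := by
  show v1 (blk (-1) 0 0 1 *ᵥ v) = _
  rw [v1_blk, Matrix.neg_mulVec, Matrix.one_mulVec, Matrix.zero_mulVec, add_zero]

theorem v2_J2 (v : Fin (n + n) → E) : v2 (J2 E n *ᵥ v) = v2 v := by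
  show v2 (blk (-1) 0 0 1 *ᵥ v) = _
  rw [v2_blk]
  simp

theorem v1_rho (X : Two e c κ) (g : G) (v : Fin (n + n) → E) :
    v1 (rho2 e c κ ρ (e g) *ᵥ v) = ρ g *ᵥ v1 v := by
  rw [rho2_e X, v1_blk]
  simp

theorem v2_rho (X : Two e c κ) (g : G) (v : Fin (n + n) → E) :
    v2 (rho2 e c κ ρ (e g) *ᵥ v) = ρ (κ g) *ᵥ v2 v := by
  rw [rho2_e X, v2_blk]
  simp

theorem v1_rhoc (X : Two e c κ) (g : G) (v : Fin (n + n) → E) :
    v1 (rho2 e c κ ρ (e g * c) *ᵥ v) = ρ g *ᵥ v2 v := by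
  rw [rho2_ec X, v1_blk]
  simp

theorem v2_rhoc (X : Two e c κ) (g : G) (v : Fin (n + n) → E) :
    v2 (rho2 e c κ ρ (e g * c) *ᵥ v) = ρ (κ g) *ᵥ v1 v := by
  rw [rho2_ec X, v2_blk]
  simp

theorem bil_S (v w : Fin (n + n) → E) :
    bil (blk 0 b b 0) v w = bil b (v1 v) (v2 w) + bil b (v2 v) (v1 w) := by
  rw [bil_blk, bil_zero_mat, bil_zero_mat, zero_add, add_zero]

theorem bil_B (v w : Fin (n + n) → E) : bil (blk 0 b 0 0) v w = bil b (v1 v) (v2 w) := by
  rw [bil_blk, bil_zero_mat, bil_zero_mat, bil_zero_mat, zero_add, add_zero, add_zero]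

theorem rho2_one (X : Two e c κ) (h1 : ρ 1 = 1) : rho2 e c κ ρ 1 = 1 := by
  apply mat_ext
  intro v
  have h : (1 : Γ) = e 1 := (map_one e).symm
  rw [Matrix.one_mulVec]
  apply ap_ext
  · rw [h, v1_rho X, h1, Matrix.one_mulVec]
  · rw [h, v2_rho X, map_one, h1, Matrix.one_mulVec]

theorem rho2_mul (X : Two e c κ) (hm : ∀ s t, ρ (s * t) = ρ s * ρ t) (σ τ : Γ) :
    rho2 e c κ ρ (σ * τ) = rho2 e c κ ρ σ * rho2 e c κ ρ τ := by
  apply mat_ext
  intro v
  rw [← Matrix.mulVec_mulVec]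
  rcases X.cases σ with ⟨g, rfl⟩ | ⟨g, rfl⟩ <;> rcases X.cases τ with ⟨k, rfl⟩ | ⟨k, rfl⟩
  · rw [← map_mul]
    apply ap_ext
    · rw [v1_rho X, v1_rho X, v1_rho X, hm, Matrix.mulVec_mulVec]
    · rw [v2_rho X, v2_rho X, v2_rho X, map_mul, hm, Matrix.mulVec_mulVec]
  · rw [← mul_assoc, ← map_mul]
    apply ap_ext
    · rw [v1_rhoc X, v1_rho X, v1_rhoc X, hm, Matrix.mulVec_mulVec]
    · rw [v2_rhoc X, v2_rho X, v2_rhoc X, map_mul, hm, Matrix.mulVec_mulVec]
  · have h1 : e g * c * e k = e (g * κ k) * c := by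
      rw [map_mul, X.kap]
      calc e g * c * e k = e g * c * e k * (c * c) := by rw [X.cc, mul_one]
        _ = e g * (c * e k * c) * c := by group
    rw [h1]
    apply ap_ext
    · rw [v1_rhoc X, v1_rhoc X, v2_rho X, hm, Matrix.mulVec_mulVec]
    · rw [v2_rhoc X, v2_rhoc X, v1_rho X, map_mul, X.kk, hm, Matrix.mulVec_mulVec]
  · have h1 : e g * c * (e k * c) = e (g * κ k) := by
      rw [map_mul, X.kap]
      group
    rw [h1]
    apply ap_ext
    · rw [v1_rho X, v1_rhoc X, v2_rhoc X, hm, Matrix.mulVec_mulVec]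
    · rw [v2_rho X, v2_rhoc X, v1_rhoc X, map_mul, X.kk, hm, Matrix.mulVec_mulVec]

theorem J2_J2 : J2 E n * J2 E n = 1 := by
  apply mat_ext
  intro v
  rw [← Matrix.mulVec_mulVec, Matrix.one_mulVec]
  apply ap_ext
  · rw [v1_J2, v1_J2, neg_neg]
  · rw [v2_J2, v2_J2]

theorem lam2_e (X : Two e c κ) (hχ : ∀ g, χq (e g) = χ g)
    (hd : ∀ g x y, bil b (ρ g *ᵥ x) (ρ (κ g) *ᵥ y) = toE E (χ g) * bil b x y) (g : G)
    (v : Fin (n + n) → E) : lamE χq (blk 0 b 0 0) (rho2 e c κ ρ) (e g) v = 0 := by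
  rw [lamE, bil_B, bil_B, v1_rho X, v2_rho X, hd, hχ, sub_self, zero_div]

theorem lam2_ec (X : Two e c κ) (hχ : ∀ g, χq (e g) = χ g) (hc : χq c = -1)
    (hm : ∀ σ τ, χq (σ * τ) = χq σ * χq τ) (hb : bᵀ = b)
    (hd : ∀ g x y, bil b (ρ g *ᵥ x) (ρ (κ g) *ᵥ y) = toE E (χ g) * bil b x y) (g : G)
    (v : Fin (n + n) → E) : lamE χq (blk 0 b 0 0) (rho2 e c κ ρ) (e g * c) v =
      bil b (ρ g *ᵥ v2 v) (ρ (κ g) *ᵥ v1 v) := by
  have h2 : (2 : E) ≠ 0 := by
    have : CharZero E := charZero_of_injective_algebraMap (algebraMap ℚ_[2] E).injective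
    exact two_ne_zero
  have h3 : toE E (χq (e g * c)) = -toE E (χ g) := by
    rw [hm, hχ, hc, mul_neg, mul_one, toE_neg']
  rw [lamE, bil_B, bil_B, v1_rhoc X, v2_rhoc X, hd, h3, bil_symm hb (v2 v) (v1 v),
    div_eq_iff h2]
  ring

/-- THE QUADRATIC REPRESENTATION `V × V`. -/
theorem qrep2 (X : Two e c κ) (hχ : ∀ g, χq (e g) = χ g) (hc : χq c = -1)
    (hm : ∀ σ τ, χq (σ * τ) = χq σ * χq τ)
    (up : ∀ W, S.mem W → ∃ W', Sq.mem W' ∧ ∀ σ ∈ W', ∃ g ∈ W, e g = σ) (hl : Lat b l t T)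
    (hr : LocRep S χ T b ρ (fun g => ρ (κ g))) :
    QRep Sq χq l t (T2 T) (blk 0 b 0 0) (blk 0 b b 0) (J2 E n) (rho2 e c κ ρ) where
  lat := lat2 hl
  rep := by
    have hst : ∀ σ : Γ, ∀ v ∈ T2 T, rho2 e c κ ρ σ *ᵥ v ∈ T2 T := fun σ v hv => by
      rcases X.cases σ with ⟨g, rfl⟩ | ⟨g, rfl⟩
      · rw [mem_T2, v1_rho X, v2_rho X]
        exact ⟨hr.st g _ hv.1, hr.st (κ g) _ hv.2⟩
      · rw [mem_T2, v1_rhoc X, v2_rhoc X]
        exact ⟨hr.st g _ hv.2, hr.st (κ g) _ hv.1⟩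
    have hJ : ∀ v ∈ T2 T, J2 E n *ᵥ v ∈ T2 T := fun v hv => by
      rw [mem_T2, v1_J2, v2_J2]
      exact ⟨T.neg_mem hv.1, hv.2⟩
    have hsm : ∀ ε : ℝ, 0 < ε → ∃ W, Sq.mem W ∧ ∀ w ∈ W, ∀ x : Fin (n + n) → E,
        ‖rho2 e c κ ρ w *ᵥ x - x‖ ≤ ε * ‖x‖ := fun ε hε => by
      obtain ⟨W, hW, h1⟩ := hr.sm ε hε
      obtain ⟨W', hW', h2⟩ := hr.sm' ε hε
      obtain ⟨Wq, hWq, h3⟩ := up (W ⊓ W') (S.inf hW hW')
      refine ⟨Wq, hWq, fun w hw x => ?_⟩
      obtain ⟨g, hg, rfl⟩ := h3 w hw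
      rw [norm_v]
      refine max_le ?_ ?_
      · have h4 : v1 (rho2 e c κ ρ (e g) *ᵥ x - x) = ρ g *ᵥ v1 x - v1 x := by
          rw [← v1_rho X]
          rfl
        rw [h4]
        refine (h1 g hg.1 (v1 x)).trans (mul_le_mul_of_nonneg_left ?_ hε.le)
        rw [norm_v]
        exact le_max_left _ _
      · have h4 : v2 (rho2 e c κ ρ (e g) *ᵥ x - x) = ρ (κ g) *ᵥ v2 x - v2 x := by
          rw [← v2_rho X]
          rfl
        rw [h4]
        refine (h2 g hg.2 (v2 x)).trans (mul_le_mul_of_nonneg_left ?_ hε.le)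
        rw [norm_v]
        exact le_max_right _ _
    have hJn : ∀ x : Fin (n + n) → E, ‖J2 E n *ᵥ x‖ = ‖x‖ := fun x => by
      rw [norm_v, norm_v x, v1_J2, v2_J2, norm_neg]
    refine
      { one := rho2_one X hr.one
        mul := rho2_mul X hr.mul
        one' := ?_
        mul' := fun s u => ?_
        st := hst
        st' := fun σ v hv => ?_
        sm := hsm
        sm' := fun ε hε => ?_
        dual := fun σ v w => ?_ }
    · show J2 E n * rho2 e c κ ρ 1 * J2 E n = 1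
      rw [rho2_one X hr.one, mul_one, J2_J2]
    · show J2 E n * rho2 e c κ ρ (s * u) * J2 E n =
        J2 E n * rho2 e c κ ρ s * J2 E n * (J2 E n * rho2 e c κ ρ u * J2 E n)
      rw [rho2_mul X hr.mul]
      calc _ = J2 E n * rho2 e c κ ρ s * 1 * rho2 e c κ ρ u * J2 E n := by
            rw [mul_one]
            simp only [mul_assoc]
        _ = _ := by
            rw [← J2_J2 (E := E) (n := n)]
            simp only [mul_assoc]
    · show (J2 E n * rho2 e c κ ρ σ * J2 E n) *ᵥ v ∈ T2 T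
      rw [← Matrix.mulVec_mulVec, ← Matrix.mulVec_mulVec]
      exact hJ _ (hst σ _ (hJ _ hv))
    · obtain ⟨W, hW, h1⟩ := hsm ε hε
      refine ⟨W, hW, fun w hw x => ?_⟩
      have h2 : (J2 E n * rho2 e c κ ρ w * J2 E n) *ᵥ x - x =
          J2 E n *ᵥ (rho2 e c κ ρ w *ᵥ (J2 E n *ᵥ x) - J2 E n *ᵥ x) := by
        rw [mulVec_sub, Matrix.mulVec_mulVec, Matrix.mulVec_mulVec, Matrix.mulVec_mulVec, J2_J2,
          Matrix.one_mulVec]
      have h3 := h1 w hw (J2 E n *ᵥ x)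
      show ‖(J2 E n * rho2 e c κ ρ w * J2 E n) *ᵥ x - x‖ ≤ _
      rw [h2, hJn]
      rw [hJn] at h3
      exact h3
    · show bil (blk 0 b b 0) (rho2 e c κ ρ σ *ᵥ v) ((J2 E n * rho2 e c κ ρ σ * J2 E n) *ᵥ w) = _
      have hd : ∀ g x y, bil b (ρ (κ g) *ᵥ x) (ρ g *ᵥ y) = toE E (χ g) * bil b x y :=
        fun g x y => by
          rw [bil_symm hl.symm, hr.dual, bil_symm hl.symm]
      rw [← Matrix.mulVec_mulVec, ← Matrix.mulVec_mulVec, bil_S, bil_S]
      rcases X.cases σ with ⟨g, rfl⟩ | ⟨g, rfl⟩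
      · rw [v1_J2, v2_J2, v1_rho X, v2_rho X, v1_rho X, v2_rho X, v1_J2, v2_J2, mulVec_neg,
          neg_neg, hr.dual, hd, hχ, mul_add]
      · have h3 : toE E (χq (e g * c)) = -toE E (χ g) := by
          rw [hm, hχ, hc, mul_neg, mul_one, toE_neg']
        have hn : ∀ x y : Fin n → E, bil b x (-y) = -bil b x y := fun x y => by
          rw [bil, mulVec_neg, dotProduct_neg]
          rfl
        rw [v1_J2, v2_J2, v1_rhoc X, v2_rhoc X, v1_rhoc X, v2_rhoc X, v1_J2, v2_J2, mulVec_neg,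
          hn, hn, hr.dual, hd, h3]
        ring
  jj := J2_J2
  jT v hv := by
    rw [mem_T2, v1_J2, v2_J2]
    exact ⟨T.neg_mem hv.1, hv.2⟩
  alt v w := by
    have hn : ∀ x y : Fin n → E, bil b x (-y) = -bil b x y := fun x y => by
      rw [bil, mulVec_neg, dotProduct_neg]
      rfl
    rw [bil_B, bil_B, bil_S, v1_J2, v2_J2, hn, bil_symm hl.symm (v1 w) (v2 v)]
    ring
  bint v hv w hw := by
    rw [bil_B]
    exact (hl.dual _).1 hv.1 _ hw.2
  qint σ v hv := by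
    rcases X.cases σ with ⟨g, rfl⟩ | ⟨g, rfl⟩
    · rw [lam2_e X hχ hr.dual, norm_zero]
      exact zero_le_one
    · rw [lam2_ec X hχ hc hm hl.symm hr.dual]
      exact (hl.dual _).1 (hr.st g _ hv.2) _ (hr.st (κ g) _ hv.1)

end rep

section levels

variable {E : Type*} [NormedField E] [NormedAlgebra ℚ_[2] E] {n : ℕ}

/-- the first component of a class -/
noncomputable def q1 (T : Submodule (OE E) (Fin n → E)) : Wq (T2 T) →ₗ[OE E] Wq T :=
  Submodule.mapQ (T2 T) T l1 inf_le_left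

/-- the second component of a class -/
noncomputable def q2 (T : Submodule (OE E) (Fin n → E)) : Wq (T2 T) →ₗ[OE E] Wq T :=
  Submodule.mapQ (T2 T) T l2 inf_le_right

theorem q1_mq (T : Submodule (OE E) (Fin n → E)) (v : Fin (n + n) → E) :
    q1 T (mq (T2 T) v) = mq T (v1 v) := rfl

theorem q2_mq (T : Submodule (OE E) (Fin n → E)) (v : Fin (n + n) → E) :
    q2 T (mq (T2 T) v) = mq T (v2 v) := rfl

/-- the two components of an element of the level `N` -/
noncomputable def isoM (T : Submodule (OE E) (Fin n → E)) (l : OE E) (N : ℕ) :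
    MN (T2 T) l N →ₗ[OE E] MN T l N × MN T l N where
  toFun m := (⟨q1 T m, by
      rw [Submodule.mem_torsionBy_iff, ← map_smul, (Submodule.mem_torsionBy_iff _ _).1 m.2,
        map_zero]⟩,
    ⟨q2 T m, by
      rw [Submodule.mem_torsionBy_iff, ← map_smul, (Submodule.mem_torsionBy_iff _ _).1 m.2,
        map_zero]⟩)
  map_add' m m' := Prod.ext (Subtype.ext (map_add (q1 T) _ _)) (Subtype.ext (map_add (q2 T) _ _))
  map_smul' a m := Prod.ext (Subtype.ext (map_smul (q1 T) _ _))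
    (Subtype.ext (map_smul (q2 T) _ _))

theorem isoM_bij (T : Submodule (OE E) (Fin n → E)) (l : OE E) (N : ℕ) :
    Function.Bijective (isoM T l N) := by
  constructor
  · rw [injective_iff_map_eq_zero]
    intro m hm
    have h1 : q1 T (m : Wq (T2 T)) = 0 := congrArg (fun p : MN T l N × MN T l N => (p.1 : Wq T)) hm
    have h2 : q2 T (m : Wq (T2 T)) = 0 := congrArg (fun p : MN T l N × MN T l N => (p.2 : Wq T)) hm
    apply Subtype.ext
    show (m : Wq (T2 T)) = 0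
    rw [← mq_lft (m : Wq (T2 T))] at h1 h2 ⊢
    rw [q1_mq, mq_eq_zero] at h1
    rw [q2_mq, mq_eq_zero] at h2
    exact mq_eq_zero.2 ⟨h1, h2⟩
  · rintro ⟨m, m'⟩
    refine ⟨⟨mq (T2 T) (ap (lft (m : Wq T)) (lft (m' : Wq T))), ?_⟩, ?_⟩
    · rw [Submodule.mem_torsionBy_iff, ← mq_smul, mq_eq_zero, mem_T2]
      constructor
      · show ((l ^ N : OE E) : E) • v1 (ap (lft (m : Wq T)) (lft (m' : Wq T))) ∈ T
        rw [v1_ap, SubmonoidClass.coe_pow]
        exact m.lft_mem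
      · show ((l ^ N : OE E) : E) • v2 (ap (lft (m : Wq T)) (lft (m' : Wq T))) ∈ T
        rw [v2_ap, SubmonoidClass.coe_pow]
        exact m'.lft_mem
    · refine Prod.ext (Subtype.ext ?_) (Subtype.ext ?_)
      · show q1 T (mq (T2 T) (ap (lft (m : Wq T)) (lft (m' : Wq T)))) = m
        rw [q1_mq, v1_ap, mq_lft]
      · show q2 T (mq (T2 T) (ap (lft (m : Wq T)) (lft (m' : Wq T)))) = m'
        rw [q2_mq, v2_ap, mq_lft]

/-- THE LEVEL `N` OF `V × V`. -/
noncomputable def isoN (T : Submodule (OE E) (Fin n → E)) (l : OE E) (N : ℕ) :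
    MN (T2 T) l N ≃ₗ[OE E] MN T l N × MN T l N :=
  LinearEquiv.ofBijective (isoM T l N) (isoM_bij T l N)

variable {T : Submodule (OE E) (Fin n → E)} {l : OE E} {N : ℕ}

theorem iso_one {m : MN (T2 T) l N} {v : Fin (n + n) → E} (h : (m : Wq (T2 T)) = mq (T2 T) v) :
    ((isoN T l N m).1 : Wq T) = mq T (v1 v) := by
  show q1 T (m : Wq (T2 T)) = _
  rw [h, q1_mq]

theorem iso_two {m : MN (T2 T) l N} {v : Fin (n + n) → E} (h : (m : Wq (T2 T)) = mq (T2 T) v) :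
    ((isoN T l N m).2 : Wq T) = mq T (v2 v) := by
  show q2 T (m : Wq (T2 T)) = _
  rw [h, q2_mq]

theorem iso_eq {m : MN (T2 T) l N} {v : Fin (n + n) → E} (h1 : ((isoN T l N m).1 : Wq T) = mq T (v1 v))
    (h2 : ((isoN T l N m).2 : Wq T) = mq T (v2 v)) : (m : Wq (T2 T)) = mq (T2 T) v := by
  have h3 := mq_lft (m : Wq (T2 T))
  rw [iso_one h3.symm, mq_eq] at h1
  rw [iso_two h3.symm, mq_eq] at h2
  rw [← h3, mq_eq]
  exact ⟨h1, h2⟩

variable {G Γ : Type*} [Group G] [Group Γ] {e : G →* Γ} {c : Γ} {κ : G →* G}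
  {ρ : G → Matrix (Fin n) (Fin n) E} {S : FSys G} {Sq : FSys Γ} {χ : G → ℤ_[2]} {χq : Γ → ℤ_[2]}
  {t : E →ₗ[ℚ_[2]] ℚ_[2]} {b : Matrix (Fin n) (Fin n) E}

theorem iso_act (X : Two e c κ) (hst : ∀ d, ∀ x ∈ T, ρ d *ᵥ x ∈ T)
    (hst2 : ∀ d, ∀ x ∈ T2 T, rho2 e c κ ρ d *ᵥ x ∈ T2 T) (σ : Γ) (m : MN (T2 T) l N) :
    isoN T l N (actN l N (rho2 e c κ ρ) hst2 σ m) =
      ac2 e c κ (actN l N ρ hst) σ (isoN T l N m) := by
  have h0 := mq_lft (m : Wq (T2 T))
  have h1 : (actN l N (rho2 e c κ ρ) hst2 σ m : Wq (T2 T)) =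
      mq (T2 T) (rho2 e c κ ρ σ *ᵥ lft (m : Wq (T2 T))) := rfl
  have h2 := iso_one h1
  have h3 := iso_two h1
  have k : ∀ (A : Matrix (Fin n) (Fin n) E) (hA : ∀ x ∈ T, A *ᵥ x ∈ T) (w : Wq T) (x : Fin n → E),
      w = mq T x → actQ T A w = mq T (A *ᵥ x) := fun A hA w x h => by rw [h, actQ_mq hA]
  rcases X.cases σ with ⟨g, rfl⟩ | ⟨g, rfl⟩
  · rw [X.ac_e]
    refine Prod.ext (Subtype.ext ?_) (Subtype.ext ?_)
    · rw [h2, v1_rho X]
      exact (k _ (hst g) _ _ (iso_one h0.symm)).symm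
    · rw [h3, v2_rho X]
      exact (k _ (hst (κ g)) _ _ (iso_two h0.symm)).symm
  · rw [X.ac_ec]
    refine Prod.ext (Subtype.ext ?_) (Subtype.ext ?_)
    · rw [h2, v1_rhoc X]
      exact (k _ (hst g) _ _ (iso_two h0.symm)).symm
    · rw [h3, v2_rhoc X]
      exact (k _ (hst (κ g)) _ _ (iso_one h0.symm)).symm

theorem iso_be (hl : Lat b l t T) {Sm J : Matrix (Fin (n + n)) (Fin (n + n)) E}
    (h : QRep Sq χq l t (T2 T) (blk 0 b 0 0) Sm J (rho2 e c κ ρ)) (m m' : MN (T2 T) l N) :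
    beN h N m m' = be2 (bN hl N) (isoN T l N m) (isoN T l N m') := by
  have h0 := mq_lft (m : Wq (T2 T))
  have h0' := mq_lft (m' : Wq (T2 T))
  rw [be2_apply, beN_val h N m m' h0 h0', bN_val hl N _ _ (iso_one h0.symm).symm
    (iso_two h0'.symm).symm, bil_B]

theorem iso_la [FiniteDimensional ℚ_[2] E] (X : Two e c κ) (hχ : ∀ g, χq (e g) = χ g) (hc : χq c = -1)
    (hm : ∀ σ τ, χq (σ * τ) = χq σ * χq τ) (hl : Lat b l t T)
    (hr : LocRep S χ T b ρ (fun g => ρ (κ g))) {Sm J : Matrix (Fin (n + n)) (Fin (n + n)) E}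
    (h : QRep Sq χq l t (T2 T) (blk 0 b 0 0) Sm J (rho2 e c κ ρ)) (a : OE E) (σ : Γ)
    (m : MN (T2 T) l N) :
    laN χq l t (blk 0 b 0 0) (rho2 e c κ ρ) (T2 T) N a σ m =
      la2 e c κ (actN l N ρ hr.st) (bN hl N) a σ (isoN T l N m) := by
  have h0 := mq_lft (m : Wq (T2 T))
  rw [la_val h N a σ m h0]
  rcases X.cases σ with ⟨g, rfl⟩ | ⟨g, rfl⟩
  · rw [lam2_e X hχ hr.dual, X.la_e, mul_zero, mul_zero, map_zero, map_zero]
  · rw [lam2_ec X hχ hc hm hl.symm hr.dual, X.la_ec]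
    have k1 : mq T ((a : E) • (ρ g *ᵥ v2 (lft (m : Wq (T2 T))))) =
        ((a • actN l N ρ hr.st g (isoN T l N m).2 : MN T l N) : Wq T) := by
      rw [mq_smul, Submodule.coe_smul, GP.coe_actN, iso_two h0.symm, actQ_mq (hr.st g)]
    have k2 : mq T (ρ (κ g) *ᵥ v1 (lft (m : Wq (T2 T)))) =
        (actN l N ρ hr.st (κ g) (isoN T l N m).1 : Wq T) := by
      rw [GP.coe_actN, iso_one h0.symm, actQ_mq (hr.st (κ g))]
    rw [bN_val hl N _ _ k1 k2, bil_smul_left]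

end levels

end Pool.Agent.Work.MP_787500_nt.QV
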