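import Mathlib
import Pool.Agent.Work.MP_787500_nt.QV.Defs
import Pool.Agent.Work.MP_787500_nt.QV.Lv
import Pool.Agent.Work.MP_787500_nt.KR.L08
import Pool.Agent.Work.MP_787500_nt.QS.Th

/-!
# Module QmN (size M): the quadratic module at the level `N`

`act`, `lin`, `sm` as in `KR.sdualF_MN` (KR/L08). `bal`: `beN_val` with lifts `a x`, `x`. `quad`, `coc`: `la_val`, `beN_val` with lifts, `lam_add`, `lam_coc` (multiply by `a`); `χ g •` on
`A0` and `toE E (χ g) *`: `t` is `ℚ_2`-linear and `pr0 (c • x) = c • pr0 x` for `c ∈ ℤ_2` (used in `bN` equivariance, KR/L08 or GP/L08). `lsm`: `lamE` at `w` is small: `‖ρ w x - x‖ ≤ ε ‖x‖`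
(`h.rep.sm`) and `χ w → 1` (`hχ : IsChar`, C1) give `‖lamE w x‖ ≤ ε'` uniformly on `‖x‖ ≤ R` (the lifts of the elements of `MN T l N` can be chosen bounded: `l ^ N x ∈ T`,
`h.lat.bdd`), so that `t (l ^ N a lamE) ∈ ℤ_2`. `nd`: `pB_beN`, non-degeneracy of `bN` (KR/L08, GP/L08) and `J J = 1`.
-/

set_option autoImplicit false
set_option linter.unusedSectionVars false

namespace Pool.Agent.Work.MP_787500_nt.QV

open Matrix
open Pool.Agent.Work.MP_787500_nt.GP (A0 IsAct d0 d1 d2 tw cup11 cup21 cup12 cup01 cup02 EvPow IsPow OE MN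
  actN actQ bN bil mq lft mq_lft mq_eq mq_add mq_smul Wq Lat pr0 lamN mem_OE)
open Pool.Agent.Work.MP_787500_nt.KR (FSys Sm1 Sm2 IsChar Smooth Z1 Z2 B2 LocH LocD Pair LDual GlobH Mid Sha2
  IsTr zM z1s b1s h1 LocRep ZV PerpV zV)
open Pool.Agent.Work.MP_787500_nt.QS (QM Lag selQ HQ Flag pB Zq indY redY)
open Pool.Agent.Work.MP_787500_nt.PA (toE)

universe v

section

variable {E : Type v} [NormedField E] [NormedAlgebra ℚ_[2] E] [FiniteDimensional ℚ_[2] E] {n : ℕ}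
  {Γ : Type*} [Group Γ] {S : FSys Γ} {χ : Γ → ℤ_[2]} {l : OE E} {t : E →ₗ[ℚ_[2]] ℚ_[2]}
  {T : Submodule (OE E) (Fin n → E)} {β Sm J : Matrix (Fin n) (Fin n) E}
  {ρ : Γ → Matrix (Fin n) (Fin n) E}

omit [FiniteDimensional ℚ_[2] E] in
private theorem qmN_bil (β : Matrix (Fin n) (Fin n) E) :
    ∃ C : ℝ, 0 ≤ C ∧ ∀ x y, ‖bil β x y‖ ≤ C * (‖x‖ * ‖y‖) := by
  refine ⟨∑ i, ∑ j, ‖β i j‖, Finset.sum_nonneg fun i _ => Finset.sum_nonneg fun j _ => norm_nonneg _,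
    fun x y => ?_⟩
  rw [bil, dotProduct, Finset.sum_mul]
  refine (norm_sum_le _ _).trans (Finset.sum_le_sum fun i _ => ?_)
  rw [norm_mul, mulVec, dotProduct, Finset.sum_mul]
  have h1 : ‖∑ j, β i j * y j‖ ≤ ∑ j, ‖β i j‖ * ‖y‖ :=
    (norm_sum_le _ _).trans (Finset.sum_le_sum fun j _ => by
      rw [norm_mul]
      exact mul_le_mul_of_nonneg_left (norm_le_pi_norm y j) (norm_nonneg _))
  calc ‖x i‖ * ‖∑ j, β i j * y j‖ ≤ ‖x‖ * ∑ j, ‖β i j‖ * ‖y‖ :=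
        mul_le_mul (norm_le_pi_norm x i) h1 (norm_nonneg _) (norm_nonneg _)
    _ = ∑ j, ‖β i j‖ * (‖x‖ * ‖y‖) := by
        rw [Finset.mul_sum]
        exact Finset.sum_congr rfl fun j _ => by ring

omit [FiniteDimensional ℚ_[2] E] in
private theorem qmN_bdd (h : Lat Sm l t T) (N : ℕ) :
    ∃ C : ℝ, 0 ≤ C ∧ ∀ m : MN T l N, ‖lft (m : Wq T)‖ ≤ C := by
  obtain ⟨R, hR⟩ := h.bdd
  have hl : 0 < ‖(l : E)‖ ^ N := pow_pos (norm_pos_iff.2 h.lne) N
  refine ⟨max 0 (R / ‖(l : E)‖ ^ N), le_max_left _ _, fun m => le_max_of_le_right ?_⟩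
  have h1 := hR _ m.lft_mem
  rw [norm_smul, norm_pow] at h1
  rw [le_div_iff₀ hl]
  linarith

omit [FiniteDimensional ℚ_[2] E] in
private theorem qmN_toE (a : ℤ_[2]) : ‖toE E a‖ = ‖a‖ := by
  rw [toE, norm_algebraMap']
  rfl

omit [FiniteDimensional ℚ_[2] E] in
private theorem qmN_chi (hχ : IsChar S χ) {η : ℝ} (hη : 0 < η) :
    ∃ W, S.mem W ∧ ∀ w ∈ W, ‖toE E (χ w) - 1‖ ≤ η := by
  obtain ⟨k, hk⟩ := exists_pow_lt_of_lt_one hη (show (1 / 2 : ℝ) < 1 by norm_num)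
  obtain ⟨W, hW, h1⟩ := hχ.cont k
  refine ⟨W, hW, fun w hw => ?_⟩
  have h2 := h1 1 w hw
  rw [one_mul, hχ.one] at h2
  obtain ⟨z, hz⟩ := h2
  have e1 : toE E (χ w) - 1 = toE E (χ w - 1) := by
    rw [toE, toE, PadicInt.coe_sub, PadicInt.coe_one, map_sub, map_one]
  rw [e1, qmN_toE, hz, norm_mul, norm_pow]
  have h3 : ‖(2 : ℤ_[2])‖ = 1 / 2 := by
    have := PadicInt.norm_p (p := 2)
    rw [one_div]
    exact_mod_cast this
  rw [h3]
  calc (1 / 2 : ℝ) ^ k * ‖z‖ ≤ (1 / 2 : ℝ) ^ k * 1 :=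
        mul_le_mul_of_nonneg_left (PadicInt.norm_le_one z) (by positivity)
    _ ≤ η := by rw [mul_one]; exact hk.le

omit [FiniteDimensional ℚ_[2] E] in
private theorem qmN_small (h : QRep S χ l t T β Sm J ρ) (hχ : IsChar S χ) (N : ℕ) :
    ∃ W, S.mem W ∧ ∀ w ∈ W, ∀ m : MN T l N, ‖lamE χ β ρ w (lft (m : Wq T))‖ ≤ 1 := by
  obtain ⟨C, hC, hb⟩ := qmN_bil β
  obtain ⟨R, hR, hr⟩ := qmN_bdd h.lat N
  have h2 : (2 : E) ≠ 0 := by
    have h3 : algebraMap ℚ_[2] E 2 ≠ 0 := by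
      rw [Ne, map_eq_zero]
      norm_num
    rwa [map_ofNat] at h3
  have hc2 : 0 < ‖(2 : E)‖ := norm_pos_iff.2 h2
  set D : ℝ := 4 * (C * R ^ 2 + 1) with hD
  have hD0 : 0 < D := by positivity
  set ε : ℝ := min 1 (‖(2 : E)‖ / D) with hε
  have hε0 : 0 < ε := lt_min one_pos (by positivity)
  have hε1 : ε ≤ 1 := min_le_left _ _
  have hε2 : ε * D ≤ ‖(2 : E)‖ := by
    calc ε * D ≤ ‖(2 : E)‖ / D * D := mul_le_mul_of_nonneg_right (min_le_right _ _) hD0.le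
      _ = ‖(2 : E)‖ := div_mul_cancel₀ _ hD0.ne'
  obtain ⟨W, hW, hw1⟩ := h.rep.sm ε hε0
  obtain ⟨W', hW', hw2⟩ := qmN_chi (E := E) hχ hε0
  refine ⟨W ⊓ W', S.inf hW hW', fun w hw m => ?_⟩
  set x := lft (m : Wq T) with hx
  have hxR : ‖x‖ ≤ R := hr m
  have a1 : ‖ρ w *ᵥ x - x‖ ≤ ε * R :=
    (hw1 w hw.1 x).trans (mul_le_mul_of_nonneg_left hxR hε0.le)
  have a2 : ‖ρ w *ᵥ x‖ ≤ 2 * R := by
    have e : ρ w *ᵥ x = (ρ w *ᵥ x - x) + x := by abel
    rw [e]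
    refine (norm_add_le _ _).trans ?_
    nlinarith
  have a3 := hw2 w hw.2
  rw [lamE, norm_div, div_le_one hc2]
  have e : bil β (ρ w *ᵥ x) (ρ w *ᵥ x) - toE E (χ w) * bil β x x =
      bil β (ρ w *ᵥ x - x) (ρ w *ᵥ x) + bil β x (ρ w *ᵥ x - x) -
        (toE E (χ w) - 1) * bil β x x := by
    rw [GP.bil_sub_left, GP.bil_sub_right]
    ring
  rw [e]
  have b1 : ‖bil β (ρ w *ᵥ x - x) (ρ w *ᵥ x)‖ ≤ C * ((ε * R) * (2 * R)) :=
    (hb _ _).trans (mul_le_mul_of_nonneg_left (mul_le_mul a1 a2 (norm_nonneg _) (by positivity)) hC)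
  have b2 : ‖bil β x (ρ w *ᵥ x - x)‖ ≤ C * (R * (ε * R)) :=
    (hb _ _).trans (mul_le_mul_of_nonneg_left (mul_le_mul hxR a1 (norm_nonneg _) hR) hC)
  have b3 : ‖(toE E (χ w) - 1) * bil β x x‖ ≤ ε * (C * (R * R)) := by
    rw [norm_mul]
    exact mul_le_mul a3 ((hb _ _).trans (mul_le_mul_of_nonneg_left
      (mul_le_mul hxR hxR (norm_nonneg _) hR) hC)) (norm_nonneg _) hε0.le
  calc _ ≤ ‖bil β (ρ w *ᵥ x - x) (ρ w *ᵥ x)‖ + ‖bil β x (ρ w *ᵥ x - x)‖ +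
        ‖(toE E (χ w) - 1) * bil β x x‖ :=
        (norm_sub_le _ _).trans (add_le_add (norm_add_le _ _) le_rfl)
    _ ≤ C * ((ε * R) * (2 * R)) + C * (R * (ε * R)) + ε * (C * (R * R)) :=
        add_le_add (add_le_add b1 b2) b3
    _ = ε * (4 * (C * R ^ 2)) := by ring
    _ ≤ ε * D := mul_le_mul_of_nonneg_left (by rw [hD]; linarith) hε0.le
    _ ≤ ‖(2 : E)‖ := hε2

omit [FiniteDimensional ℚ_[2] E] in
private theorem qmN_smul (c : ℤ_[2]) (z : E) : pr0 (t (toE E c * z)) = c • pr0 (t z) := by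
  have e : toE E c * z = (c : ℚ_[2]) • z := by rw [toE, Algebra.smul_def]
  rw [e, map_smul]
  exact map_smul pr0 c (t z)

theorem qm_N (h : QRep S χ l t T β Sm J ρ) (hχ : IsChar S χ) (N : ℕ) :
    QM S χ (OE E) (actN l N ρ h.rep.st) (beN h N) (laN χ l t β ρ T N) where
  act := (KR.pair_MN h.lat h.rep N).act
  lin := fun g a m => Subtype.ext (by
    rw [Submodule.coe_smul, GP.coe_actN, GP.coe_actN, Submodule.coe_smul]
    conv_lhs => rw [← mq_lft (m : Wq T)]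
    rw [← mq_smul, GP.actQ_mq (h.rep.st g), mulVec_smul, mq_smul]
    rfl)
  sm := (KR.pair_MN h.lat h.rep N).sm
  bal := fun a x y => by
    rw [beN_val h N (a • x) y (x' := (a : E) • lft (x : Wq T)) (by rw [mq_smul, mq_lft]; rfl)
        (mq_lft _),
      beN_val h N x (a • y) (y' := (a : E) • lft (y : Wq T)) (mq_lft _)
        (by rw [mq_smul, mq_lft]; rfl), GP.bil_smul_left, GP.bil_smul_right]
  quad := fun a g v w => by
    rw [la_val h N a g (v + w) (x' := lft (v : Wq T) + lft (w : Wq T))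
        (by rw [mq_add, mq_lft, mq_lft]; rfl), la_val h N a g v (mq_lft _),
      la_val h N a g w (mq_lft _),
      beN_val h N (a • actN l N ρ h.rep.st g v) (actN l N ρ h.rep.st g w)
        (x' := (a : E) • (ρ g *ᵥ lft (v : Wq T))) (y' := ρ g *ᵥ lft (w : Wq T)) rfl rfl,
      beN_val h N (a • v) w (x' := (a : E) • lft (v : Wq T)) (by rw [mq_smul, mq_lft]; rfl)
        (mq_lft _), ← qmN_smul, ← map_sub, ← map_sub, ← map_add, ← map_add, ← map_add, ← map_add,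
      lam_add h, GP.bil_smul_left, GP.bil_smul_left]
    congr 2
    ring
  coc := fun a g k v => by
    rw [la_val h N a (g * k) v (mq_lft _), la_val h N a k v (mq_lft _),
      la_val h N a g (actN l N ρ h.rep.st k v) (x' := ρ k *ᵥ lft (v : Wq T)) rfl, ← qmN_smul,
      ← map_add, ← map_add, lam_coc h.rep.mul hχ.mul]
    congr 2
    ring
  lsm := fun a => by
    obtain ⟨W, hW, h1⟩ := qmN_small h hχ N
    refine ⟨W, hW, fun w hw v => ?_⟩
    rw [laN]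
    refine GP.pr0_zero_of_norm (h.lat.tint _ ?_)
    rw [norm_mul, norm_mul, norm_pow]
    have h2 : ‖(l : E)‖ ^ N ≤ 1 := pow_le_one₀ (norm_nonneg _) h.lat.llt.le
    have h3 : ‖(a : E)‖ ≤ 1 := a.2
    have h4 := h1 w hw v
    calc _ ≤ 1 * (1 * 1) := mul_le_mul h2 (mul_le_mul h3 h4 (norm_nonneg _) zero_le_one)
          (mul_nonneg (norm_nonneg _) (norm_nonneg _)) zero_le_one
      _ = 1 := by norm_num
  nd := fun v hv => by
    refine GP.bN_nd h.lat N v fun y => ?_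
    have e : actN l N (fun _ : Unit => J) (fun _ => h.jT) ()
        (actN l N (fun _ : Unit => J) (fun _ => h.jT) () y) = y := by
      apply Subtype.ext
      rw [GP.coe_actN, GP.coe_actN, GP.actQ.eq_def T J (y : Wq T), GP.actQ_mq h.jT, mulVec_mulVec,
        h.jj, one_mulVec, mq_lft]
    have h1 := hv (actN l N (fun _ : Unit => J) (fun _ => h.jT) () y)
    rw [pB_beN, e] at h1
    exact h1

end

end Pool.Agent.Work.MP_787500_nt.QV
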