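import Mathlib
import Pool.Agent.Work.MP_787500_nt.QV.App
import Pool.Agent.Work.MP_787500_nt.QV.QmN
import Pool.Agent.Work.MP_787500_nt.QL.Lag
import Pool.Agent.Work.MP_787500_nt.KR.L12
import Pool.Agent.Work.MP_787500_nt.KR.LDefs2

/-!
The representation `V × V` over the rational numbers at a split place: the condition `L × L^⊥` is Lagrangian at all levels.

* `lag_sp0`: finite modules: `A × A^⊥` is Lagrangian for a perfect pair of modules of a local group.
* `lag_iso`: transport of Lagrangian conditions.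
* `prE L L'`: the cocycles with components in `L` and `L'`; `lam_prE`: its reductions.
* `lag_sp`: `L × L^⊥` at a split place.
* `card_selNQ`: the Selmer group of the level `N` in terms of `MN T l N × MN T l N`.
-/

set_option autoImplicit false
set_option linter.unusedSectionVars false

namespace Pool.Agent.Work.MP_787500_nt.QV

open Matrix
open Pool.Agent.Work.MP_787500_nt.GP (A0 IsAct d0 d1 d2 tw cup11 cup21 cup12 cup01 cup02 EvPow IsPow OE MN
  actN actQ bN bil mq lft mq_lft mq_eq mq_add mq_smul mq_sub mq_eq_zero Wq Lat pr0 lamN mem_OE bil_add_left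
  bil_add_right bil_sub_left bil_sub_right bil_smul_left bil_smul_right pr0_zero_of_norm actQ_mq bN_val bil_symm)
open Pool.Agent.Work.MP_787500_nt.KR (FSys Sm1 Sm2 IsChar Smooth Z1 Z2 B2 LocH LocD Pair LDual GlobH Mid Sha2
  IsTr zM z1s b1s LocRep ZV PerpV zV perpSub RN)
open Pool.Agent.Work.MP_787500_nt.QS (QM Lag selQ HQ Flag pB pB_apply Zq Two ac2 be2 la2 be2_apply prY)
open Pool.Agent.Work.MP_787500_nt.PA (toE)

universe v

section fin

variable {P : Type*} [Group P] {TP : FSys P} {χp : P → ℤ_[2]} {iv : (P → P → A0) → A0}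
  {O : Type*} [CommRing O] {M : Type*} [AddCommGroup M] [Module O M] [Finite M] {σ σ' : P → M → M}
  {b : M →+ M →+ A0}

private theorem iv0 (L : LocH TP χp iv) : iv (fun _ _ => 0) = 0 := by
  have e1 : (fun _ _ => (0 : A0)) = d1 (tw χp) (fun _ : P => (0 : A0)) := by
    funext s t
    simp [d1, tw]
  rw [e1]
  refine L.cob _ ?_
  obtain ⟨W, hW⟩ := TP.ex
  exact ⟨W, hW, fun _ _ _ => rfl⟩

private theorem ivneg (L : LocH TP χp iv) {f : P → P → A0} (hf : Z2 TP (tw χp) f)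
    (hf' : Z2 TP (tw χp) fun s t => -f s t) : iv (fun s t => -f s t) = -iv f := by
  have h1 := L.add f _ hf hf'
  have e1 : (fun a b => f a b + -f a b) = fun _ _ => (0 : A0) := by
    funext a b
    exact add_neg_cancel _
  rw [e1, iv0 L] at h1
  exact (neg_eq_of_add_eq_zero_right h1.symm).symm

private theorem z1_prod {σ σ' : P → M → M} {x : P → M × M} :
    Z1 TP (fun d v => (σ d v.1, σ' d v.2) : P → M × M → M × M) x ↔
      Z1 TP σ (fun d => (x d).1) ∧ Z1 TP σ' (fun d => (x d).2) := by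
  constructor
  · rintro ⟨⟨W, hW, h1⟩, h2⟩
    exact ⟨⟨⟨W, hW, fun g w hw => by simp only [h1 g w hw]⟩,
      fun a b => by simp only [h2 a b, Prod.fst_add]⟩,
      ⟨⟨W, hW, fun g w hw => by simp only [h1 g w hw]⟩,
      fun a b => by simp only [h2 a b, Prod.snd_add]⟩⟩
  · rintro ⟨⟨⟨W, hW, h1⟩, h2⟩, ⟨⟨W', hW', h1'⟩, h2'⟩⟩
    exact ⟨⟨W ⊓ W', TP.inf hW hW', fun g w hw => Prod.ext (h1 g w hw.1) (h1' g w hw.2)⟩,
      fun a b => Prod.ext (h2 a b) (h2' a b)⟩

/-- the double annihilator -/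
theorem perp_dbl (L : LocH TP χp iv) (hp : Pair TP χp σ σ' b) (hl : LDual TP iv σ σ' b)
    {A A' : Submodule O (P → M)} (hA0 : ∀ m, d0 σ m ∈ A)
    (hA' : ∀ y, y ∈ A' ↔ Z1 TP σ' y ∧ ∀ x ∈ A, iv (cup11 σ' b x y) = 0) {x : P → M}
    (hA : ∀ x ∈ A, Z1 TP σ x) (hx : Z1 TP σ x) (h0 : ∀ y ∈ A', iv (cup11 σ' b x y) = 0) :
    x ∈ A := by
  have f1 : Finite (z1s TP hp.act) := hl.fin
  have f2 : Finite (z1s TP hp.act') := hl.fin'
  have h1 := GP.perp_perp (QL.zB L hp) (A.toAddSubgroup.addSubgroupOf (z1s TP hp.act))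
    (fun a ha => by
      obtain ⟨m, hm⟩ := hl.one a.1 a.2 fun y hy => ha ⟨y, hy⟩
      rw [AddSubgroup.mem_addSubgroupOf, hm]
      exact hA0 m)
  have h2 : (⟨x, hx⟩ : z1s TP hp.act) ∈ GP.perpL (QL.zB L hp).flip
      (GP.perpL (QL.zB L hp) (A.toAddSubgroup.addSubgroupOf (z1s TP hp.act))) := by
    intro y hy
    refine h0 y.1 ((hA' y.1).2 ⟨y.2, fun z hz => ?_⟩)
    exact hy ⟨z, hA z hz⟩ (AddSubgroup.mem_addSubgroupOf.2 hz)
  rw [h1, AddSubgroup.mem_addSubgroupOf] at h2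
  exact h2

/-- `A × A^⊥` IS LAGRANGIAN. -/
theorem lag_sp0 (L : LocH TP χp iv) (hp : Pair TP χp σ σ' b) (hl : LDual TP iv σ σ' b)
    {A A' : Submodule O (P → M)} (hA0 : ∀ m, d0 σ m ∈ A) (hA : ∀ x ∈ A, Z1 TP σ x)
    (hA' : ∀ y, y ∈ A' ↔ Z1 TP σ' y ∧ ∀ x ∈ A, iv (cup11 σ' b x y) = 0) :
    Lag TP iv (fun d (v : M × M) => (σ d v.1, σ' d v.2)) (be2 b)
      (fun (_ : O) (_ : P) (_ : M × M) => (0 : A0)) (prY A A') := by
  have key : ∀ x y : P → M × M, Z1 TP σ (fun d => (x d).1) → Z1 TP σ' (fun d => (x d).2) →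
      Z1 TP σ (fun d => (y d).1) → Z1 TP σ' (fun d => (y d).2) →
      iv (cup11 (fun (d : P) (v : M × M) => (σ d v.1, σ' d v.2)) (pB (be2 b)) x y) =
        iv (cup11 σ' b (fun d => (x d).1) (fun d => (y d).2)) +
          iv (cup11 σ' b (fun d => (y d).1) (fun d => (x d).2)) := by
    intro x y hx1 hx2 hy1 hy2
    have z1 := KR.cup11_Z2 hp hx1 hy2
    have z2 := KR.cup11_Z2 hp.flip hx2 hy1
    have z2' : Z2 TP (tw χp)
        (fun s t => -cup11 σ b.flip (fun d => (x d).2) (fun d => (y d).1) s t) := by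
      have z3 := KR.cup11_Z2 hp.flip ((z1s TP hp.act').neg_mem hx2) hy1
      have e3 : cup11 σ b.flip (-fun d => (x d).2) (fun d => (y d).1) =
          fun s t => -cup11 σ b.flip (fun d => (x d).2) (fun d => (y d).1) s t := by
        funext s t
        simp only [cup11, Pi.neg_apply, map_neg, AddMonoidHom.neg_apply]
      rw [e3] at z3
      exact z3
    have e4 : cup11 (fun (d : P) (v : M × M) => (σ d v.1, σ' d v.2)) (pB (be2 b)) x y =
        fun s t => cup11 σ' b (fun d => (x d).1) (fun d => (y d).2) s t +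
          -cup11 σ b.flip (fun d => (x d).2) (fun d => (y d).1) s t := by
      funext s t
      simp only [cup11, pB_apply, be2_apply, AddMonoidHom.flip_apply, sub_eq_add_neg]
    rw [e4, L.add _ _ z1 z2', ivneg L z2 z2', KR.inv_anti L hp hy1 hx2]
  have e0 : ∀ x : P → M, iv (cup11 σ' b x (fun _ => 0)) = 0 := by
    intro x
    have e5 : cup11 σ' b x (fun _ => (0 : M)) = fun _ _ => 0 := by
      funext s t
      simp only [cup11, hp.act'.zero, map_zero]
    rw [e5, iv0 L]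
  have e0' : ∀ x : P → M, iv (cup11 σ' b (fun _ => 0) x) = 0 := by
    intro x
    have e5 : cup11 σ' b (fun _ => (0 : M)) x = fun _ _ => 0 := by
      funext s t
      simp only [cup11, map_zero, AddMonoidHom.zero_apply]
    rw [e5, iv0 L]
  refine ⟨?_, ?_, ?_⟩
  · intro x hx
    exact z1_prod.2 ⟨hA _ hx.1, ((hA' _).1 hx.2).1⟩
  · intro x hx
    obtain ⟨hx1, hx2⟩ := z1_prod.1 hx
    constructor
    · intro hxY y hyY
      rw [key x y hx1 hx2 (hA _ hyY.1) ((hA' _).1 hyY.2).1]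
      rw [((hA' _).1 hyY.2).2 _ hxY.1, ((hA' _).1 hxY.2).2 _ hyY.1, add_zero]
    · intro hall
      refine ⟨?_, ?_⟩
      · refine perp_dbl L hp hl hA0 hA' hA hx1 fun y2 hy2 => ?_
        have h1 := hall (fun d => (0, y2 d)) ⟨A.zero_mem, hy2⟩
        rw [key x _ hx1 hx2 (hA _ A.zero_mem) ((hA' _).1 hy2).1] at h1
        have h2 := e0' (fun d => (x d).2)
        simp only [] at h1
        rw [h2, add_zero] at h1
        exact h1
      · refine (hA' _).2 ⟨hx2, fun y1 hy1 => ?_⟩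
        have h1 := hall (fun d => (y1 d, 0)) ⟨hy1, A'.zero_mem⟩
        rw [key x _ hx1 hx2 (hA _ hy1) ((hA' _).1 A'.zero_mem).1] at h1
        have h2 := e0 (fun d => (x d).1)
        simp only [] at h1
        rw [h2, zero_add] at h1
        exact h1
  · intro a x hx
    have e6 : Zq (fun (d : P) (v : M × M) => (σ d v.1, σ' d v.2)) (be2 b)
        (fun (_ : O) (_ : P) (_ : M × M) => (0 : A0)) a x =
        cup11 σ' b (a • fun d => (x d).1) (fun d => (x d).2) := by
      funext s t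
      simp only [Zq, cup11, be2_apply, add_zero, Pi.smul_apply, Prod.smul_fst]
    rw [e6]
    exact ((hA' _).1 hx.2).2 _ (A.smul_mem a hx.1)

end fin

section iso

variable {X : Type*} [Group X] {T : FSys X} {iv : (X → X → A0) → A0}
  {O : Type*} [CommRing O] {V V' : Type*} [AddCommGroup V] [Module O V] [AddCommGroup V']
  [Module O V'] {ρ : X → V → V} {ρ' : X → V' → V'}
  {β : V →+ V →+ A0} {β' : V' →+ V' →+ A0} {l : O → X → V → A0} {l' : O → X → V' → A0}

theorem z1_iso (f : V ≃ₗ[O] V') (hact : ∀ g v, f (ρ g v) = ρ' g (f v)) {x : X → V} :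
    Z1 T ρ x ↔ Z1 T ρ' (fun d => f (x d)) := by
  constructor
  · rintro ⟨⟨W, hW, h1⟩, h2⟩
    refine ⟨⟨W, hW, fun g w hw => congrArg f (h1 g w hw)⟩, fun a b => ?_⟩
    show f (x (a * b)) = f (x a) + ρ' a (f (x b))
    rw [h2, map_add, hact]
  · rintro ⟨⟨W, hW, h1⟩, h2⟩
    refine ⟨⟨W, hW, fun g w hw => f.injective (h1 g w hw)⟩, fun a b => f.injective ?_⟩
    rw [map_add, hact]
    exact h2 a b

/-- transport of Lagrangian conditions -/
theorem lag_iso (f : V ≃ₗ[O] V') (hact : ∀ g v, f (ρ g v) = ρ' g (f v))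
    (hβ : ∀ v w, β v w = β' (f v) (f w)) (hl : ∀ a g v, l a g v = l' a g (f v))
    {Y : Submodule O (X → V)} {Y' : Submodule O (X → V')}
    (hY : ∀ x, x ∈ Y ↔ (fun d => f (x d)) ∈ Y') (h : Lag T iv ρ' β' l' Y') :
    Lag T iv ρ β l Y where
  coc x hx := (z1_iso f hact).2 (h.coc _ ((hY x).1 hx))
  self x hx := by
    have hc : ∀ y : X → V, cup11 ρ (pB β) x y =
        cup11 ρ' (pB β') (fun d => f (x d)) (fun d => f (y d)) := fun y => by
      funext s t
      simp only [cup11, pB_apply, hβ, hact]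
    rw [hY, h.self _ ((z1_iso f hact).1 hx)]
    constructor
    · intro h1 y hy
      rw [hc]
      exact h1 _ ((hY y).1 hy)
    · intro h1 y hy
      have h2 := h1 (fun d => f.symm (y d)) ((hY _).2 (by
        have e : (fun d => f (f.symm (y d))) = y := funext fun d => f.apply_symm_apply (y d)
        rw [e]
        exact hy))
      rw [hc] at h2
      have e : (fun d => f (f.symm (y d))) = y := funext fun d => f.apply_symm_apply (y d)
      rw [e] at h2
      exact h2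
  iso a x hx := by
    have hz : Zq ρ β l a x = Zq ρ' β' l' a (fun d => f (x d)) := by
      funext s t
      simp only [Zq, hβ, hl, hact, map_smul]
    rw [hz]
    exact h.iso a _ ((hY x).1 hx)

end iso

section pr

variable {E : Type*} [NormedField E] [NormedAlgebra ℚ_[2] E] {n : ℕ}

variable {P : Type*}

/-- the functions with components in `L` and `L'` -/
def prE (L L' : Submodule E (P → Fin n → E)) : Submodule E (P → Fin (n + n) → E) where
  carrier := {X | (fun d => v1 (X d)) ∈ L ∧ (fun d => v2 (X d)) ∈ L'}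
  add_mem' := fun h h' => ⟨L.add_mem h.1 h'.1, L'.add_mem h.2 h'.2⟩
  zero_mem' := ⟨L.zero_mem, L'.zero_mem⟩
  smul_mem' := fun a _ h => ⟨L.smul_mem a h.1, L'.smul_mem a h.2⟩

theorem mem_prE {L L' : Submodule E (P → Fin n → E)} {X : P → Fin (n + n) → E} :
    X ∈ prE L L' ↔ (fun d => v1 (X d)) ∈ L ∧ (fun d => v2 (X d)) ∈ L' := Iff.rfl

theorem ap_prE {L L' : Submodule E (P → Fin n → E)} {X X' : P → Fin n → E} (h : X ∈ L)
    (h' : X' ∈ L') : (fun d => ap (X d) (X' d)) ∈ prE L L' := by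
  rw [mem_prE]
  simp only [v1_ap, v2_ap]
  exact ⟨h, h'⟩

/-- the two components -/
noncomputable def prEquiv (L L' : Submodule E (P → Fin n → E)) : prE L L' ≃ₗ[E] L × L' where
  toFun X := (⟨_, X.2.1⟩, ⟨_, X.2.2⟩)
  invFun X := ⟨_, ap_prE X.1.2 X.2.2⟩
  left_inv X := Subtype.ext (funext fun d => ap_v (X.1 d))
  right_inv X := by
    refine Prod.ext (Subtype.ext ?_) (Subtype.ext ?_)
    · funext d
      exact v1_ap _ _
    · funext d
      exact v2_ap _ _
  map_add' X Y := rfl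
  map_smul' a X := rfl

theorem prE_fd (L L' : Submodule E (P → Fin n → E)) [FiniteDimensional E L]
    [FiniteDimensional E L'] : FiniteDimensional E (prE L L') :=
  Module.Finite.equiv (prEquiv L L').symm

theorem finrank_prE (L L' : Submodule E (P → Fin n → E)) [FiniteDimensional E L]
    [FiniteDimensional E L'] :
    Module.finrank E (prE L L') = Module.finrank E L + Module.finrank E L' := by
  rw [(prEquiv L L').finrank_eq, Module.finrank_prod]

variable {T : Submodule (OE E) (Fin n → E)} {l : OE E} {N : ℕ}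

/-- the reductions of `prE L L'` -/
theorem lam_prE [Group P] {L L' : Submodule E (P → Fin n → E)} {x : P → MN (T2 T) l N} :
    x ∈ lamN (T2 T) l N (prE L L') ↔
      (fun d => isoN T l N (x d)) ∈ prY (lamN T l N L) (lamN T l N L') := by
  constructor
  · rintro ⟨X, hX, h1⟩
    exact ⟨⟨_, hX.1, fun d => iso_one (h1 d)⟩, ⟨_, hX.2, fun d => iso_two (h1 d)⟩⟩
  · rintro ⟨⟨X, hX, h1⟩, ⟨X', hX', h1'⟩⟩
    refine ⟨_, ap_prE hX hX', fun d => iso_eq ?_ ?_⟩
    · rw [v1_ap]
      exact h1 d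
    · rw [v2_ap]
      exact h1' d

end pr

section split

variable {E : Type v} [NormedField E] [NormedAlgebra ℚ_[2] E] [FiniteDimensional ℚ_[2] E] {n : ℕ}
  {G Γ : Type*} [Group G] [Group Γ] {e : G →* Γ} {c : Γ} {κ : G →* G}
  {ρ : G → Matrix (Fin n) (Fin n) E} {S : FSys G} {Sq : FSys Γ} {χ : G → ℤ_[2]} {χq : Γ → ℤ_[2]}
  {l : OE E} {t : E →ₗ[ℚ_[2]] ℚ_[2]} {T : Submodule (OE E) (Fin n → E)}
  {b : Matrix (Fin n) (Fin n) E}

variable {P : Type*} [Group P] {TP : FSys P} {iv : (P → P → A0) → A0} {j : P →* G}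


/-- the local representation -/
theorem locRep_j (hr : LocRep S χ T b ρ (fun g => ρ (κ g)))
    (hj : ∀ W, S.mem W → ∃ W', TP.mem W' ∧ ∀ w ∈ W', j w ∈ W) :
    LocRep TP (fun d => χ (j d)) T b (fun d => ρ (j d)) (fun d => ρ (κ (j d))) where
  one := by
    have h1 := hr.one
    rw [map_one]
    exact h1
  mul s u := by
    have h1 := hr.mul (j s) (j u)
    rw [map_mul]
    exact h1
  one' := by
    have h1 := hr.one'
    rw [map_one]
    exact h1
  mul' s u := by
    have h1 := hr.mul' (j s) (j u)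
    rw [map_mul]
    exact h1
  st d := hr.st _
  st' d := hr.st' _
  sm ε hε := by
    obtain ⟨W, hW, h1⟩ := hr.sm ε hε
    obtain ⟨W', hW', h2⟩ := hj W hW
    exact ⟨W', hW', fun v hv x => h1 _ (h2 v hv) x⟩
  sm' ε hε := by
    obtain ⟨W, hW, h1⟩ := hr.sm' ε hε
    obtain ⟨W', hW', h2⟩ := hj W hW
    exact ⟨W', hW', fun v hv x => h1 _ (h2 v hv) x⟩
  dual d x y := hr.dual _ x y

/-- the condition `L × L^⊥` at a split place -/
def spE (TP : FSys P) (χp : P → ℤ_[2]) (b : Matrix (Fin n) (Fin n) E)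
    (ρ' : P → Matrix (Fin n) (Fin n) E) (L : Submodule E (P → Fin n → E)) :
    Submodule E (P → Fin (n + n) → E) :=
  prE L (perpSub TP χp b ρ' L)

/-- `L × L^⊥` IS LAGRANGIAN AT ALL LEVELS. -/
theorem lag_sp (X : Two e c κ) (hχ : ∀ g, χq (e g) = χ g) (hc : χq c = -1)
    (hm : ∀ σ τ, χq (σ * τ) = χq σ * χq τ) (H : LocD.{v} TP (fun d => χ (j d)) iv)
    (hl : Lat b l t T) (hr : LocRep S χ T b ρ (fun g => ρ (κ g)))
    (hj : ∀ W, S.mem W → ∃ W', TP.mem W' ∧ ∀ w ∈ W', j w ∈ W)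
    {L : Submodule E (P → Fin n → E)} (hL : ∀ X ∈ L, ZV TP (fun d => ρ (j d)) X)
    (hL0 : ∀ v, (fun d => ρ (j d) *ᵥ v - v) ∈ L)
    {Sm J : Matrix (Fin (n + n)) (Fin (n + n)) E}
    (h : QRep Sq χq l t (T2 T) (blk 0 b 0 0) Sm J (rho2 e c κ ρ)) {jp : P →* Γ}
    (hjp : ∀ d, jp d = e (j d)) (N : ℕ) :
    Lag TP iv (fun d => actN l N (rho2 e c κ ρ) h.rep.st (jp d)) (beN h N)
      (fun a d => laN χq l t (blk 0 b 0 0) (rho2 e c κ ρ) (T2 T) N a (jp d))
      (lamN (T2 T) l N (spE TP (fun d => χ (j d)) b (fun d => ρ (κ (j d))) L)) := by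
  obtain rfl : jp = e.comp j := MonoidHom.ext hjp
  have hfin : Finite (MN T l N) := GP.MN_finite hl N
  have hR := locRep_j hr hj
  have hp : ∀ N, Pair TP (fun d => χ (j d)) (fun d => actN l N ρ hr.st (j d))
      (fun d => actN l N ρ hr.st (κ (j d))) (bN hl N) := fun N => KR.pair_MN hl hR N
  refine lag_iso (isoN T l N) (ρ' := fun d (v : MN T l N × MN T l N) =>
      (actN l N ρ hr.st (j d) v.1, actN l N ρ hr.st (κ (j d)) v.2)) (β' := be2 (bN hl N))
    (l' := fun _ _ _ => 0) (fun d m => ?_) (fun v w => iso_be hl h v w) (fun a d m => ?_)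
    (fun x => lam_prE) ?_
  · show isoN T l N (actN l N (rho2 e c κ ρ) h.rep.st (e (j d)) m) = _
    rw [iso_act X hr.st h.rep.st, X.ac_e]
  · show laN χq l t (blk 0 b 0 0) (rho2 e c κ ρ) (T2 T) N a (e (j d)) m = 0
    rw [iso_la X hχ hc hm hl hr h, X.la_e]
  · refine lag_sp0 H.toLocH (hp N) (H.ld (hp N)) (fun m => ?_) (fun x hx => ?_) fun y => ?_
    · refine ⟨_, hL0 (lft (m : Wq T)), fun d => ?_⟩
      show ((actN l N ρ hr.st (j d) m - m : MN T l N) : Wq T) = _
      rw [Submodule.coe_sub, GP.coe_actN, actQ, mq_sub, mq_lft]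
    · obtain ⟨Z, hZ, h1⟩ := hx
      exact KR.zv_level hl hR N (hL Z hZ) h1
    · exact (KR.perp_iff H hl hR hL hL0 y).symm

end split

section sel

variable {E : Type v} [NormedField E] [NormedAlgebra ℚ_[2] E] [FiniteDimensional ℚ_[2] E] {n : ℕ}
  {G Γ : Type*} [Group G] [Group Γ] {e : G →* Γ} {c : Γ} {κ : G →* G}
  {ρ : G → Matrix (Fin n) (Fin n) E} {S : FSys G} {Sq : FSys Γ} {χ : G → ℤ_[2]} {χq : Γ → ℤ_[2]}
  {l : OE E} {t : E →ₗ[ℚ_[2]] ℚ_[2]} {T : Submodule (OE E) (Fin n → E)}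
  {b : Matrix (Fin n) (Fin n) E}

variable {I : Type*} {D : I → Type*} [∀ i, Group (D i)] {j : ∀ i, D i →* Γ}
  {L : ∀ i, Submodule E (D i → Fin (n + n) → E)}

/-- THE SELMER GROUP OF THE LEVEL `N`. -/
theorem card_selNQ (X : Two e c κ) (hst : ∀ d, ∀ x ∈ T, ρ d *ᵥ x ∈ T)
    {β Sm J : Matrix (Fin (n + n)) (Fin (n + n)) E}
    (h : QRep Sq χq l t (T2 T) β Sm J (rho2 e c κ ρ)) {N : ℕ}
    (act : IsAct (ac2 e c κ (actN l N ρ hst)))
    (lin : ∀ g (a : OE E) m, ac2 e c κ (actN l N ρ hst) g (a • m) =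
      a • ac2 e c κ (actN l N ρ hst) g m)
    {Y : ∀ i, Submodule (OE E) (D i → MN T l N × MN T l N)}
    (hY : ∀ i x, x ∈ lamN (T2 T) l N (L i) ↔ (fun d => isoN T l N (x d)) ∈ Y i) :
    Nat.card (selNQ Sq j (rho2 e c κ ρ) L h N) = Nat.card (selQ Sq j act lin Y) := by
  have hz : ∀ x : Γ → MN (T2 T) l N, Z1 Sq (actN l N (rho2 e c κ ρ) h.rep.st) x ↔
      Z1 Sq (ac2 e c κ (actN l N ρ hst)) (fun g => isoN T l N (x g)) := fun x =>
    z1_iso (isoN T l N) (fun g m => iso_act X hst h.rep.st g m)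
  refine Nat.card_congr ⟨fun x => ⟨fun g => isoN T l N (x.1 g), (hz x.1).1 x.2.1,
    fun i => (hY i _).1 (x.2.2 i)⟩, fun y => ⟨fun g => (isoN T l N).symm (y.1 g), ?_, fun i => ?_⟩,
    fun x => ?_, fun y => ?_⟩
  · rw [hz]
    have e1 : (fun g => isoN T l N ((isoN T l N).symm (y.1 g))) = y.1 :=
      funext fun g => (isoN T l N).apply_symm_apply (y.1 g)
    rw [e1]
    exact y.2.1
  · rw [hY]
    have e1 : (fun d => isoN T l N ((isoN T l N).symm (y.1 (j i d)))) = fun d => y.1 (j i d) :=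
      funext fun d => (isoN T l N).apply_symm_apply (y.1 (j i d))
    rw [e1]
    exact y.2.2 i
  · apply Subtype.ext
    funext g
    exact (isoN T l N).symm_apply_apply (x.1 g)
  · apply Subtype.ext
    funext g
    exact (isoN T l N).apply_symm_apply (y.1 g)

end sel

end Pool.Agent.Work.MP_787500_nt.QV
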