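import Mathlib
import Pool.Agent.Work.MP_787500_nt.QV.Defs
import Pool.Agent.Work.MP_787500_nt.QV.Lv
import Pool.Agent.Work.MP_787500_nt.KR.MNSub

/-!
# Module FlN (size M): the flag `M_1 ⊆ M_(N+1) ⊆ M_(N+2)`

As `KR.subU_MN` (KR/MNSub) and QS/Flag2 (`flag_MN`, proved): `mnI` inclusions, `mnP k` multiplication by `l ^ k`. `bet`: `beN_val` with lifts: `l ^ N bil β (l x) (l y) = l ^ (N + 2) bil β x y`.
`lam`: `la_val`, `lam_smul`. `pairU`, `pairR`: `beN_val` in the same way.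
-/

set_option autoImplicit false
set_option linter.unusedSectionVars false

namespace Pool.Agent.Work.MP_787500_nt.QV

open Matrix
open Pool.Agent.Work.MP_787500_nt.GP (A0 IsAct d0 d1 d2 tw cup11 cup21 cup12 cup01 cup02 EvPow IsPow OE MN
  actN actQ bN bil mq lft mq_lft mq_eq mq_add mq_smul Wq Lat pr0 lamN mem_OE)
open Pool.Agent.Work.MP_787500_nt.KR (FSys Sm1 Sm2 IsChar Smooth Z1 Z2 B2 LocH LocD Pair LDual GlobH Mid Sha2
  IsTr zM z1s b1s h1 LocRep ZV PerpV zV)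
open Pool.Agent.Work.MP_787500_nt.QS (QM Lag selQ HQ Flag pB Zq indY redY)
open Pool.Agent.Work.MP_787500_nt.PA (toE)

universe v

section

open Pool.Agent.Work.MP_787500_nt.KR (mnI mnP)

variable {E : Type v} [NormedField E] [NormedAlgebra ℚ_[2] E] [FiniteDimensional ℚ_[2] E] {n : ℕ}
  {Γ : Type*} [Group Γ] {S : FSys Γ} {χ : Γ → ℤ_[2]} {l : OE E} {t : E →ₗ[ℚ_[2]] ℚ_[2]}
  {T : Submodule (OE E) (Fin n → E)} {β Sm J : Matrix (Fin n) (Fin n) E}
  {ρ : Γ → Matrix (Fin n) (Fin n) E}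

private theorem be_mnI (h : QRep S χ l t T β Sm J ρ) (N : ℕ) (x y : MN T l (N + 1)) :
    beN h N (mnP T l 1 le_rfl x) (mnP T l 1 le_rfl y) =
      beN h (N + 2) (mnI T l (Nat.le_succ (N + 1)) x) (mnI T l (Nat.le_succ (N + 1)) y) := by
  rw [beN_val h N _ _ (x' := (l : E) • lft (x : Wq T)) (y' := (l : E) • lft (y : Wq T)),
    beN_val h (N + 2) _ _ (x' := lft (x : Wq T)) (y' := lft (y : Wq T)), GP.bil_smul_left,
    GP.bil_smul_right]
  · congr 2
    ring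
  · rw [mq_lft, KR.coe_mnI]
  · rw [mq_lft, KR.coe_mnI]
  · rw [mq_smul, mq_lft, KR.coe_mnP, pow_one]
  · rw [mq_smul, mq_lft, KR.coe_mnP, pow_one]

private theorem be_mnPr (h : QRep S χ l t T β Sm J ρ) (N : ℕ) (u : MN T l 1)
    (x : MN T l (N + 2)) :
    beN h (N + 2) (mnI T l (Nat.le_succ (N + 1)) (mnI T l (Nat.le_add_left 1 N) u)) x =
      beN h 1 u (mnP T l (N + 1) (show N + 2 ≤ 1 + (N + 1) by omega) x) := by
  rw [beN_val h (N + 2) _ _ (x' := lft (u : Wq T)) (y' := lft (x : Wq T)),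
    beN_val h 1 _ _ (x' := lft (u : Wq T)) (y' := (l : E) ^ (N + 1) • lft (x : Wq T)),
    GP.bil_smul_right]
  · congr 2
    ring
  · rw [mq_lft]
  · have h1 : (l : E) ^ (N + 1) = ((l ^ (N + 1) : OE E) : E) := by
      rw [SubmonoidClass.coe_pow]
    rw [h1, mq_smul, mq_lft, KR.coe_mnP]
  · rw [mq_lft, KR.coe_mnI, KR.coe_mnI]
  · rw [mq_lft]

private theorem be_mnPl (h : QRep S χ l t T β Sm J ρ) (N : ℕ) (u : MN T l 1)
    (x : MN T l (N + 2)) :
    beN h (N + 2) x (mnI T l (Nat.le_succ (N + 1)) (mnI T l (Nat.le_add_left 1 N) u)) =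
      beN h 1 (mnP T l (N + 1) (show N + 2 ≤ 1 + (N + 1) by omega) x) u := by
  rw [beN_val h (N + 2) _ _ (y' := lft (u : Wq T)) (x' := lft (x : Wq T)),
    beN_val h 1 _ _ (y' := lft (u : Wq T)) (x' := (l : E) ^ (N + 1) • lft (x : Wq T)),
    GP.bil_smul_left]
  · congr 2
    ring
  · have h1 : (l : E) ^ (N + 1) = ((l ^ (N + 1) : OE E) : E) := by
      rw [SubmonoidClass.coe_pow]
    rw [h1, mq_smul, mq_lft, KR.coe_mnP]
  · rw [mq_lft]
  · rw [mq_lft]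
  · rw [mq_lft, KR.coe_mnI, KR.coe_mnI]

private theorem be_mnRr (h : QRep S χ l t T β Sm J ρ) (N : ℕ) (x : MN T l (N + 1))
    (y : MN T l (N + 2)) :
    beN h (N + 2) (mnI T l (Nat.le_succ (N + 1)) x) y =
      beN h (N + 1) x (mnP T l 1 (le_refl (N + 2)) y) := by
  rw [beN_val h (N + 2) _ _ (x' := lft (x : Wq T)) (y' := lft (y : Wq T)),
    beN_val h (N + 1) _ _ (x' := lft (x : Wq T)) (y' := (l : E) • lft (y : Wq T)),
    GP.bil_smul_right]
  · congr 2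
    ring
  · rw [mq_lft]
  · rw [mq_smul, mq_lft, KR.coe_mnP, pow_one]
  · rw [mq_lft, KR.coe_mnI]
  · rw [mq_lft]

private theorem be_mnRl (h : QRep S χ l t T β Sm J ρ) (N : ℕ) (x : MN T l (N + 1))
    (y : MN T l (N + 2)) :
    beN h (N + 2) y (mnI T l (Nat.le_succ (N + 1)) x) =
      beN h (N + 1) (mnP T l 1 (le_refl (N + 2)) y) x := by
  rw [beN_val h (N + 2) _ _ (y' := lft (x : Wq T)) (x' := lft (y : Wq T)),
    beN_val h (N + 1) _ _ (y' := lft (x : Wq T)) (x' := (l : E) • lft (y : Wq T)),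
    GP.bil_smul_left]
  · congr 2
    ring
  · rw [mq_smul, mq_lft, KR.coe_mnP, pow_one]
  · rw [mq_lft]
  · rw [mq_lft]
  · rw [mq_lft, KR.coe_mnI]

private theorem la_mnI (h : QRep S χ l t T β Sm J ρ) (N : ℕ) (a : OE E) (g : Γ)
    (m : MN T l (N + 1)) :
    laN χ l t β ρ T N a g (mnP T l 1 (le_refl (N + 1)) m) =
      laN χ l t β ρ T (N + 2) a g (mnI T l (Nat.le_succ (N + 1)) m) := by
  rw [la_val h N a g _ (x' := (l : E) • lft (m : Wq T)),
    la_val h (N + 2) a g _ (x' := lft (m : Wq T)), lam_smul]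
  · congr 2
    ring
  · rw [mq_lft, KR.coe_mnI]
  · rw [mq_smul, mq_lft, KR.coe_mnP, pow_one]

theorem flag_N (h : QRep S χ l t T β Sm J ρ) (N : ℕ) :
    Flag (O := OE E) (actN l (N + 2) ρ h.rep.st) (beN h (N + 2)) (laN χ l t β ρ T (N + 2))
      (actN l (N + 1) ρ h.rep.st) (actN l N ρ h.rep.st) (beN h N) (laN χ l t β ρ T N)
      (actN l 1 ρ h.rep.st) (actN l 1 ρ h.rep.st) (pB (beN h 1)) (actN l (N + 1) ρ h.rep.st)
      (pB (beN h (N + 1))) (mnI T l (Nat.le_add_left 1 N)) (mnI T l (Nat.le_succ (N + 1)))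
      (mnP T l 1 (le_refl (N + 1))) (mnP T l (N + 1) (show N + 2 ≤ 1 + (N + 1) by omega))
      (mnP T l 1 (le_refl (N + 2))) (mnI T l (Nat.le_succ N))
      (mnP T l N (show N + 1 ≤ 1 + N by omega)) where
  einj := KR.mnI_inj (Nat.le_add_left 1 N)
  iinj := KR.mnI_inj (Nat.le_succ (N + 1))
  psurj := (KR.subU_MN h.lat h.rep.st N).psurj
  qsurj := (KR.subU_MN h.lat h.rep.st N).qsurj
  rsurj := KR.mnP_surj (T := T) h.lat.lne 1 (rfl : N + 2 = (N + 1) + 1)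
  iotainj := KR.mnI_inj (Nat.le_succ N)
  pker := (KR.subU_MN h.lat h.rep.st N).pker
  qker := (KR.subU_MN h.lat h.rep.st N).qker
  rker x := by
    constructor
    · intro hx
      have hx' : l ^ 1 • (x : GP.Wq T) = 0 :=
        congrArg (fun x : MN T l (N + 1) => (x : GP.Wq T)) hx
      obtain ⟨y, hy⟩ := KR.mnI_of (show 1 ≤ N + 2 by omega) hx'
      exact ⟨y, by rw [← hy]; exact Subtype.ext rfl⟩
    · rintro ⟨u, rfl⟩
      apply Subtype.ext
      rw [KR.coe_mnP, KR.coe_mnI, KR.coe_mnI]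
      exact u.mem
  ip m := Subtype.ext rfl
  qr x := by
    apply Subtype.ext
    rw [KR.coe_mnP, KR.coe_mnP, KR.coe_mnP, smul_smul, ← pow_add]
  eqe g u := KR.actN_mnI h.rep.st (Nat.le_add_left 1 N) g u
  eqi g u := KR.actN_mnI h.rep.st (Nat.le_succ (N + 1)) g u
  eqp g u := KR.actN_mnP h.rep.st 1 (le_refl (N + 1)) g u
  eqq g u := KR.actN_mnP h.rep.st (N + 1) (show N + 2 ≤ 1 + (N + 1) by omega) g u
  eqr g u := KR.actN_mnP h.rep.st 1 (le_refl (N + 2)) g u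
  bet m m' := be_mnI h N m m'
  lam a g m := la_mnI h N a g m
  pairU u m := by
    rw [QS.pB_apply, QS.pB_apply]
    exact congrArg₂ (· - ·) (be_mnPr h N u m) (be_mnPl h N u m)
  pairR u m := by
    rw [QS.pB_apply, QS.pB_apply]
    exact congrArg₂ (· - ·) (be_mnRr h N u m) (be_mnRl h N u m)

end

end Pool.Agent.Work.MP_787500_nt.QV
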