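import Mathlib
import Pool.Agent.Work.MP_787500_nt.QV.Defs
import Pool.Agent.Work.MP_787500_nt.QV.Lv
import Pool.Agent.Work.MP_787500_nt.QV.QmN
import Pool.Agent.Work.MP_787500_nt.KR.MNSub
import Pool.Agent.Work.MP_787500_nt.GP.L13_CardN
import Pool.Agent.Work.MP_787500_nt.KR.L09

/-!
# Module NumN (size M-L): the local number

`Y N = lamN T l N L`, `i`, `π` as in `flag_N`, `J' = indY (Y N)`, `R' = redY J'`.
* `red_ind`: `R' = Y N`. `⊇`: `y ∈ Y N`, `y = red X'`, `X' ∈ L`; `x₁ = red (l⁻¹ X') ∈ Z1(M_(N+1))` (`KR.zv_level`), `π x₁ = y`, `i x₁ ∈ J'` (`m = 0`). `⊆`: `i x₁ = i x₁' + d0 m`,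
  `π x₁' = red X'`: `π x₁ = red X' + red (l • (ρ d m̃ - m̃))` with `l • (ρ d m̃ - m̃) ∈ L` (`hcob`).
* `ind_inf`: `Y (N + 2) ⊓ J' = (Y (N + 1)).map i + coboundaries d0 m, m ∈ M_(N+2)`. `⊇` clear (`l • x` for the first). `⊆`: `red X = i x₁ + d0 m`, `π x₁ = red X'`, `X, X' ∈ L`. Put
  `Z = l • (X - dm̃) - X' ∈ L`: it has values in `T`. So `X - dm̃ = l⁻¹ X' + l⁻¹ Z ∈ L` and it has values in `l ^ (-(N + 1)) T`: its reduction is in `i (Y (N + 1))`.
* cardinalities: `card (Y N) = q ^ (N * finrank L)` (`GP.card_lamN`, `KR.zv_bdd`, FiniteDimensional `L`). The intersection of `(Y (N + 1)).map i` and the coboundaries `B` of `M_(N+2)` is the kernel of the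
  surjective map `B → B1(M_1)`, `b ↦ q ∘ b` (`q = mnP (N + 1)`): `d0 m` with values in `M_(N+1)` is in `(Y (N+1)).map i` by `hcob`. So
  `card (Y (N + 2) ⊓ J') * card (B ⊓ ..) = card (Y (N + 1)) * card B`, `card (Y (N + 2) ⊓ J') = card (Y (N + 1)) * card B1(M_1)` and with `t * card B1(M_1) = card (Y 1)`:
  `card (Y (N + 2) ⊓ J') * t = card (Y (N + 1)) * card (Y 1) = card (Y (N + 2))`. The product in the statement is `(card (Y (N + 2)) * card (Y N)) ^ 2`.
-/

set_option autoImplicit false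
set_option linter.unusedSectionVars false

namespace Pool.Agent.Work.MP_787500_nt.QV

open Matrix
open Pool.Agent.Work.MP_787500_nt.GP (A0 IsAct d0 d1 d2 tw cup11 cup21 cup12 cup01 cup02 EvPow IsPow OE MN
  actN actQ bN bil mq lft mq_lft mq_eq mq_add mq_smul Wq Lat pr0 lamN mem_OE)
open Pool.Agent.Work.MP_787500_nt.KR (FSys Sm1 Sm2 IsChar Smooth Z1 Z2 B2 LocH LocD Pair LDual GlobH Mid Sha2
  IsTr zM z1s b1s h1 LocRep ZV PerpV zV)
open Pool.Agent.Work.MP_787500_nt.QS (QM Lag selQ HQ Flag pB Zq indY redY)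
open Pool.Agent.Work.MP_787500_nt.PA (toE)

universe v

section

open Pool.Agent.Work.MP_787500_nt.KR (mnI mnP)

variable {E : Type v} [NormedField E] [NormedAlgebra ℚ_[2] E] [FiniteDimensional ℚ_[2] E] {n : ℕ}
  {Γ : Type*} [Group Γ] {S : FSys Γ} {χ : Γ → ℤ_[2]} {l : OE E} {t : E →ₗ[ℚ_[2]] ℚ_[2]}
  {T : Submodule (OE E) (Fin n → E)} {β Sm J : Matrix (Fin n) (Fin n) E}
  {ρ : Γ → Matrix (Fin n) (Fin n) E}

variable {P : Type*} [Group P] {TP : FSys P} {jp : P →* Γ}

private theorem nn_rep (h : QRep S χ l t T β Sm J ρ)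
    (hj : ∀ W, S.mem W → ∃ W', TP.mem W' ∧ ∀ w ∈ W', jp w ∈ W) :
    LocRep TP (fun d => χ (jp d)) T Sm (fun d => ρ (jp d)) (fun d => J * ρ (jp d) * J) where
  one := by
    rw [map_one]
    exact h.rep.one
  mul s u := by
    rw [map_mul]
    exact h.rep.mul _ _
  one' := by
    have h1 := h.rep.one'
    rw [map_one]
    exact h1
  mul' s u := by
    have h1 := h.rep.mul' (jp s) (jp u)
    rw [map_mul]
    exact h1
  st d := h.rep.st _
  st' d := h.rep.st' _
  sm ε hε := by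
    obtain ⟨W, hW, h1⟩ := h.rep.sm ε hε
    obtain ⟨W', hW', h2⟩ := hj W hW
    exact ⟨W', hW', fun v hv x => h1 _ (h2 v hv) x⟩
  sm' ε hε := by
    obtain ⟨W, hW, h1⟩ := h.rep.sm' ε hε
    obtain ⟨W', hW', h2⟩ := hj W hW
    exact ⟨W', hW', fun v hv x => h1 _ (h2 v hv) x⟩
  dual d x y := h.rep.dual _ x y

private theorem nn_card {A B : Type*} [AddCommGroup A] [AddCommGroup B] (f : A →+ B) :
    Nat.card A = Nat.card f.ker * Nat.card f.range := by
  rw [AddSubgroup.card_eq_card_quotient_mul_card_addSubgroup f.ker, mul_comm,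
    Nat.card_congr (QuotientAddGroup.quotientKerEquivRange f).toEquiv]

private theorem nn_red (h : QRep S χ l t T β Sm J ρ) (hχ : IsChar S χ)
    (hj : ∀ W, S.mem W → ∃ W', TP.mem W' ∧ ∀ w ∈ W', jp w ∈ W)
    {L : Submodule E (P → Fin n → E)}
    (hcoc : ∀ X ∈ L, ZV TP (fun d => ρ (jp d)) X) (hcob : ∀ v, (fun d => ρ (jp d) *ᵥ v - v) ∈ L)
    (N : ℕ) :
    redY TP (mnI T l (Nat.le_succ (N + 1))) (mnP T l 1 (le_refl (N + 1)))
      ((qm_N h hχ (N + 1)).act.comp jp) (fun d => (qm_N h hχ (N + 1)).lin (jp d))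
      (indY TP (mnI T l (Nat.le_succ (N + 1))) (mnP T l 1 (le_refl (N + 1)))
        ((qm_N h hχ (N + 2)).act.comp jp) (fun d => (qm_N h hχ (N + 2)).lin (jp d))
        ((qm_N h hχ (N + 1)).act.comp jp) (fun d => (qm_N h hχ (N + 1)).lin (jp d))
        (lamN T l N L)) = lamN T l N L := by
  apply le_antisymm
  · rintro y ⟨x₁, hx₁, ⟨x₁', m, hx₁', ⟨X', hX', h1⟩, h2⟩, h3⟩
    refine ⟨X' + (l : E) • (fun d => ρ (jp d) *ᵥ lft (m : Wq T) - lft (m : Wq T)),
      L.add_mem hX' (L.smul_mem _ (hcob _)), fun d => ?_⟩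
    have e1 : (y d : Wq T) = l ^ 1 • (x₁ d : Wq T) := by
      rw [h3 d]
      rfl
    have e2 : (x₁ d : Wq T) = (x₁' d : Wq T) +
        mq T (ρ (jp d) *ᵥ lft (m : Wq T) - lft (m : Wq T)) := by
      have e3 := congrArg (fun z : MN T l (N + 2) => (z : Wq T)) (h2 d)
      have e4 : (x₁ d : Wq T) = (x₁' d : Wq T) + (actQ T (ρ (jp d)) (m : Wq T) - (m : Wq T)) := e3
      rw [e4, GP.mq_sub, mq_lft]
      rfl
    have e5 : l ^ 1 • (x₁' d : Wq T) = mq T (X' d) := h1 d
    rw [e1, e2, smul_add, e5, pow_one, ← mq_smul, ← mq_add]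
    rfl
  · rintro y ⟨X', hX', h1⟩
    have hl : (l : E) ≠ 0 := h.lat.lne
    have hmem : ∀ d, mq T ((l : E)⁻¹ • X' d) ∈ Submodule.torsionBy (OE E) (Wq T) (l ^ (N + 1)) := by
      intro d
      rw [Submodule.mem_torsionBy_iff, ← mq_smul]
      have h4 : l ^ N • (y d : Wq T) = 0 := (y d).mem
      rw [h1 d, ← mq_smul] at h4
      rw [← h4]
      congr 1
      rw [smul_smul, SubmonoidClass.coe_pow, SubmonoidClass.coe_pow, pow_succ, mul_assoc,
        mul_inv_cancel₀ hl, mul_one]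
    let x₁ : P → MN T l (N + 1) := fun d => ⟨mq T ((l : E)⁻¹ • X' d), hmem d⟩
    have hZ : Z1 TP (fun d => actN l (N + 1) ρ h.rep.st (jp d)) x₁ :=
      KR.zv_level h.lat (nn_rep h hj) (N + 1) (hcoc _ (L.smul_mem (l : E)⁻¹ hX')) (fun d => rfl)
    have hπ : ∀ d, mnP T l 1 (le_refl (N + 1)) (x₁ d) = y d := by
      intro d
      apply Subtype.ext
      show l ^ 1 • mq T ((l : E)⁻¹ • X' d) = (y d : Wq T)
      rw [pow_one, ← mq_smul, smul_smul, mul_inv_cancel₀ hl, one_smul, h1 d]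
    refine ⟨x₁, hZ, ⟨x₁, 0, hZ, ?_, fun d => ?_⟩, fun d => (hπ d).symm⟩
    · refine ⟨X', hX', fun d => ?_⟩
      show (mnP T l 1 (le_refl (N + 1)) (x₁ d) : Wq T) = _
      rw [hπ d]
      exact h1 d
    · have e : d0 (fun d => actN l (N + 2) ρ h.rep.st (jp d)) (0 : MN T l (N + 2)) d = 0 := by
        show actN l (N + 2) ρ h.rep.st (jp d) 0 - 0 = 0
        rw [(qm_N h hχ (N + 2)).act.zero, sub_zero]
      rw [e, add_zero]

private theorem nn_int [IsLocalRing (OE E)] (h : QRep S χ l t T β Sm J ρ) (hχ : IsChar S χ)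
    (hj : ∀ W, S.mem W → ∃ W', TP.mem W' ∧ ∀ w ∈ W', jp w ∈ W)
    {L : Submodule E (P → Fin n → E)}
    (hcoc : ∀ X ∈ L, ZV TP (fun d => ρ (jp d)) X) (hcob : ∀ v, (fun d => ρ (jp d) *ᵥ v - v) ∈ L)
    (N : ℕ) :
    Nat.card ↥(lamN T l (N + 2) L ⊓ indY TP (mnI T l (Nat.le_succ (N + 1)))
          (mnP T l 1 (le_refl (N + 1))) ((qm_N h hχ (N + 2)).act.comp jp)
          (fun d => (qm_N h hχ (N + 2)).lin (jp d)) ((qm_N h hχ (N + 1)).act.comp jp)
          (fun d => (qm_N h hχ (N + 1)).lin (jp d)) (lamN T l N L)) =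
      Nat.card (lamN T l (N + 1) L) * Nat.card (b1s ((qm_N h hχ 1).act.comp jp)) := by
  set A := lamN T l (N + 2) L ⊓ indY TP (mnI T l (Nat.le_succ (N + 1)))
          (mnP T l 1 (le_refl (N + 1))) ((qm_N h hχ (N + 2)).act.comp jp)
          (fun d => (qm_N h hχ (N + 2)).lin (jp d)) ((qm_N h hχ (N + 1)).act.comp jp)
          (fun d => (qm_N h hχ (N + 1)).lin (jp d)) (lamN T l N L) with hA
  have hle : N + 2 ≤ 1 + (N + 1) := by omega
  let f : A →+ (P → MN T l 1) :=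
    { toFun := fun x d => mnP T l (N + 1) hle ((x : P → MN T l (N + 2)) d)
      map_zero' := by
        funext d
        exact map_zero _
      map_add' := fun x y => by
        funext d
        exact map_add _ _ _ }
  have e1 : Nat.card f.range = Nat.card (b1s ((qm_N h hχ 1).act.comp jp)) := by
    have e : f.range = b1s ((qm_N h hχ 1).act.comp jp) := by
      ext z
      constructor
      · rintro ⟨⟨x, hx1, x₁, m, -, -, h3⟩, rfl⟩
        refine ⟨mnP T l (N + 1) hle m, ?_⟩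
        funext d
        show mnP T l (N + 1) hle (x d) = _
        rw [h3 d, map_add]
        have e2 : mnP T l (N + 1) hle (mnI T l (Nat.le_succ (N + 1)) (x₁ d)) = 0 := by
          apply Subtype.ext
          exact (x₁ d).mem
        have e3 : mnP T l (N + 1) hle (actN l (N + 2) ρ h.rep.st (jp d) m) =
            actN l 1 ρ h.rep.st (jp d) (mnP T l (N + 1) hle m) := KR.actN_mnP h.rep.st (N + 1) hle _ m
        rw [e2, zero_add]
        show mnP T l (N + 1) hle (actN l (N + 2) ρ h.rep.st (jp d) m - m) = _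
        rw [map_sub, e3]
        rfl
      · rintro ⟨m₁, rfl⟩
        obtain ⟨m, rfl⟩ := KR.mnP_surj (T := T) h.lat.lne (N + 1) (m := N + 2) (m' := 1) (by omega) m₁
        refine ⟨⟨d0 (fun d => actN l (N + 2) ρ h.rep.st (jp d)) m, ?_, 0, m, ?_, ?_, fun d => ?_⟩, ?_⟩
        · refine ⟨_, hcob (lft (m : Wq T)), fun d => ?_⟩
          rw [GP.mq_sub, mq_lft]
          rfl
        · exact (zM TP ((qm_N h hχ (N + 1)).act.comp jp) (fun d => (qm_N h hχ (N + 1)).lin (jp d))).zero_mem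
        · have e : (fun d : P => mnP T l 1 (le_refl (N + 1)) ((0 : P → MN T l (N + 1)) d)) = 0 := by
            funext d
            exact map_zero _
          rw [e]
          exact (lamN T l N L).zero_mem
        · have e : mnI T l (Nat.le_succ (N + 1)) ((0 : P → MN T l (N + 1)) d) = 0 := map_zero _
          rw [e, zero_add]
        · funext d
          have e3 : mnP T l (N + 1) hle (actN l (N + 2) ρ h.rep.st (jp d) m) =
              actN l 1 ρ h.rep.st (jp d) (mnP T l (N + 1) hle m) := KR.actN_mnP h.rep.st (N + 1) hle _ m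
          show mnP T l (N + 1) hle (actN l (N + 2) ρ h.rep.st (jp d) m - m) = _
          rw [map_sub, e3]
          rfl
    rw [e]
  have e2 : Nat.card f.ker = Nat.card (lamN T l (N + 1) L) := by
    let g : lamN T l (N + 1) L → f.ker := fun y =>
      ⟨⟨fun d => mnI T l (Nat.le_succ (N + 1)) ((y : P → MN T l (N + 1)) d), by
        obtain ⟨y, X, hX, h1⟩ := y
        refine ⟨⟨X, hX, fun d => h1 d⟩, y, 0, ?_, ?_, fun d => ?_⟩
        · exact KR.zv_level h.lat (nn_rep h hj) (N + 1) (hcoc _ hX) h1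
        · refine ⟨(l : E) • X, L.smul_mem _ hX, fun d => ?_⟩
          show l ^ 1 • (y d : Wq T) = mq T ((l : E) • X d)
          rw [h1 d, pow_one, ← mq_smul]
        · have e : d0 (fun d => actN l (N + 2) ρ h.rep.st (jp d)) (0 : MN T l (N + 2)) d = 0 := by
            show actN l (N + 2) ρ h.rep.st (jp d) 0 - 0 = 0
            rw [(qm_N h hχ (N + 2)).act.zero, sub_zero]
          rw [e, add_zero]⟩, by
        rw [AddMonoidHom.mem_ker]
        funext d
        apply Subtype.ext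
        exact ((y : P → MN T l (N + 1)) d).mem⟩
    refine (Nat.card_eq_of_bijective g ⟨fun x y hxy => ?_, fun c => ?_⟩).symm
    · apply Subtype.ext
      funext d
      have e3 := congrArg (fun c : f.ker => ((c : A) : P → MN T l (N + 2)) d) hxy
      exact KR.mnI_inj _ e3
    · obtain ⟨⟨x, ⟨X, hX, h1⟩, h2⟩, h3⟩ := c
      rw [AddMonoidHom.mem_ker] at h3
      have h4 : ∀ d, l ^ (N + 1) • (x d : Wq T) = 0 := fun d =>
        congrArg (fun z : MN T l 1 => (z : Wq T)) (congrFun h3 d)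
      refine ⟨⟨fun d => ⟨(x d : Wq T), (Submodule.mem_torsionBy_iff _ _).2 (h4 d)⟩, X, hX, h1⟩, ?_⟩
      apply Subtype.ext
      apply Subtype.ext
      rfl
  rw [nn_card f, e1, e2]

theorem num_N [IsLocalRing (OE E)] (h : QRep S χ l t T β Sm J ρ) (hχ : IsChar S χ)
    (hj : ∀ W, S.mem W → ∃ W', TP.mem W' ∧ ∀ w ∈ W', jp w ∈ W)
    {L : Submodule E (P → Fin n → E)} [FiniteDimensional E L]
    (hcoc : ∀ X ∈ L, ZV TP (fun d => ρ (jp d)) X) (hcob : ∀ v, (fun d => ρ (jp d) *ᵥ v - v) ∈ L)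
    (N : ℕ) {t₀ : ℕ}
    (ht : t₀ * Nat.card (b1s ((qm_N h hχ 1).act.comp jp)) = Nat.card (lamN T l 1 L)) :
    EvPow (Nat.card (IsLocalRing.ResidueField (OE E)))
      (Nat.card ↥(lamN T l (N + 2) L ⊓ indY TP (mnI T l (Nat.le_succ (N + 1)))
          (mnP T l 1 (le_refl (N + 1))) ((qm_N h hχ (N + 2)).act.comp jp)
          (fun d => (qm_N h hχ (N + 2)).lin (jp d)) ((qm_N h hχ (N + 1)).act.comp jp)
          (fun d => (qm_N h hχ (N + 1)).lin (jp d)) (lamN T l N L)) *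
        Nat.card (lamN T l (N + 2) L) *
        (Nat.card ↥(redY TP (mnI T l (Nat.le_succ (N + 1))) (mnP T l 1 (le_refl (N + 1)))
            ((qm_N h hχ (N + 1)).act.comp jp) (fun d => (qm_N h hχ (N + 1)).lin (jp d))
            (indY TP (mnI T l (Nat.le_succ (N + 1)))
              (mnP T l 1 (le_refl (N + 1))) ((qm_N h hχ (N + 2)).act.comp jp)
              (fun d => (qm_N h hχ (N + 2)).lin (jp d)) ((qm_N h hχ (N + 1)).act.comp jp)
              (fun d => (qm_N h hχ (N + 1)).lin (jp d)) (lamN T l N L)) ⊓ lamN T l N L) *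
          Nat.card (lamN T l N L)) * t₀) := by
  rw [nn_red h hχ hj hcoc hcob N, inf_idem, nn_int h hχ hj hcoc hcob N]
  have hb : ∀ X ∈ L, ∃ C : ℝ, ∀ d, ‖X d‖ ≤ C := fun X hX => KR.zv_bdd (hcoc X hX)
  have c1 := GP.card_lamN h.lat 1 L hb
  have c2 := GP.card_lamN h.lat (N + 1) L hb
  have c3 := GP.card_lamN h.lat (N + 2) L hb
  have c4 := GP.card_lamN h.lat N L hb
  refine ⟨(N + 2) * Module.finrank E L + N * Module.finrank E L, ?_⟩
  rw [c1] at ht
  rw [c2, c3, c4]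
  set q := Nat.card (IsLocalRing.ResidueField (OE E)) with hq
  set f := Module.finrank E L with hf
  set B := Nat.card (b1s ((qm_N h hχ 1).act.comp jp)) with hB
  have e : q ^ ((N + 1) * f) * B * q ^ ((N + 2) * f) * (q ^ (N * f) * q ^ (N * f)) * t₀ =
      q ^ ((N + 1) * f) * (t₀ * B) * q ^ ((N + 2) * f) * (q ^ (N * f) * q ^ (N * f)) := by ring
  rw [e, ht, ← pow_add, ← pow_add, ← pow_add, ← pow_add]
  congr 1
  ring

end

end Pool.Agent.Work.MP_787500_nt.QV
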