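import Mathlib
import Pool.Agent.Work.MP_787500_nt.QV.Defs
import Pool.Agent.Work.MP_787500_nt.QV.QmN
import Pool.Agent.Work.MP_787500_nt.QV.FlN
import Pool.Agent.Work.MP_787500_nt.QV.NumN
import Pool.Agent.Work.MP_787500_nt.QS.Par

/-!
# Module StepN (size M): from the level `N` to the level `N + 2`

`par_step` (QS/Par) with `fl = flag_N h N`, `QM` from `qm_N`, pairs `(qm_N h hχ 1).pair`, `(qm_N h hχ (N + 1)).pair` (QS/Th), `Y i = lamN T l (N + 2) (L i)`, `Yb i = lamN T l N (L i)` (`hlag`), `s = 1`,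
`t i = card (lamN T l 1 (L i)) / card B1(D i, M_1)`: `lamN T l 1 (L i)` is Lagrangian (`hlag 1 i`), so it contains the coboundaries and `card ^ 2 = card Z1 * card B1` (annihilator in the group of
cocycles modulo coboundaries, `H.ld`, `GP.card_perp`; compare `Par`, which needs `t * t = h1`). `IsPow` of `t`: a quotient of `O`-modules (`GP.card_pow` for the quotient module).
`num_N` is the hypothesis `hn` (`hcoc`: `hL`). `selQ .. = selNQ ..`: same carrier.
-/

set_option autoImplicit false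
set_option linter.unusedSectionVars false

namespace Pool.Agent.Work.MP_787500_nt.QV

open Matrix
open Pool.Agent.Work.MP_787500_nt.GP (A0 IsAct d0 d1 d2 tw cup11 cup21 cup12 cup01 cup02 EvPow IsPow OE MN
  actN actQ bN bil mq lft mq_lft mq_eq mq_add mq_smul Wq Lat pr0 lamN mem_OE)
open Pool.Agent.Work.MP_787500_nt.KR (FSys Sm1 Sm2 IsChar Smooth Z1 Z2 B2 LocH LocD Pair LDual GlobH Mid Sha2
  IsTr zM z1s b1s h1 LocRep ZV PerpV zV)
open Pool.Agent.Work.MP_787500_nt.QS (QM Lag selQ HQ Flag pB Zq indY redY)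
open Pool.Agent.Work.MP_787500_nt.PA (toE)

universe v

section lagnum

variable {X : Type*} [Group X] {TX : FSys X} {χX : X → ℤ_[2]} {iv : (X → X → A0) → A0}
  {O : Type*} [CommRing O] {V : Type*} [AddCommGroup V] [Module O V] {σ : X → V → V}
  {γ : V →+ V →+ A0} {lX : O → X → V → A0}

/-- the coboundaries as a submodule -/
private def cobL (act : IsAct σ) (lin : ∀ g (a : O) m, σ g (a • m) = a • σ g m) :
    V →ₗ[O] (X → V) where
  toFun v := d0 σ v
  map_add' v w := by
    funext g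
    simp only [d0, Pi.add_apply, act.add]
    abel
  map_smul' a v := by
    funext g
    simp only [d0, Pi.smul_apply, lin, smul_sub, RingHom.id_apply]

/-- the number of classes of a Lagrangian condition -/
private theorem lag_num [IsLocalRing O] [Finite (IsLocalRing.ResidueField O)] [Finite V]
    (hL : LocH TX χX iv) (h : QM TX χX O σ γ lX) (hD : LDual TX iv σ σ (pB γ))
    {Y : Submodule O (X → V)} (hY : Lag TX iv σ γ lX Y) :
    ∃ t : ℕ, t * Nat.card (b1s h.act) = Nat.card Y ∧ t * t = h1 TX h.act ∧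
      IsPow (Nat.card (IsLocalRing.ResidueField O)) t := by
  classical
  have hZ : Finite (zM (O := O) TX h.act h.lin) := hD.fin
  have hZ' : Finite (z1s TX h.act) := hD.fin
  have hYf : Finite Y := Finite.of_injective (fun x : Y =>
    (⟨x.1, hY.coc _ x.2⟩ : zM (O := O) TX h.act h.lin)) fun x y hxy =>
      Subtype.ext (congrArg (fun z : zM (O := O) TX h.act h.lin => z.1) hxy)
  have hBY : b1s h.act ≤ Y.toAddSubgroup := by
    rintro x ⟨m, rfl⟩
    exact hY.cob hL h m
  have hBZ : b1s h.act ≤ z1s TX h.act := fun x hx => hY.coc x (hBY hx)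
  have hBf : Finite (b1s h.act) := Finite.of_injective (fun x : b1s h.act =>
    (⟨x.1, hBZ x.2⟩ : z1s TX h.act)) fun x y hxy =>
      Subtype.ext (congrArg (fun z : z1s TX h.act => z.1) hxy)
  have hB0 : 0 < Nat.card (b1s h.act) := Nat.card_pos
  have e1 : (b1s h.act).relIndex Y.toAddSubgroup * Nat.card (b1s h.act) = Nat.card Y := by
    have h1 := AddSubgroup.relIndex_mul_relIndex ⊥ (b1s h.act) Y.toAddSubgroup bot_le hBY
    rw [AddSubgroup.relIndex_bot_left, AddSubgroup.relIndex_bot_left, mul_comm] at h1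
    exact h1
  have e2 : h1 TX h.act * Nat.card (b1s h.act) = Nat.card (z1s TX h.act) := by
    have h1 := AddSubgroup.relIndex_mul_relIndex ⊥ (b1s h.act) (z1s TX h.act) bot_le hBZ
    rw [AddSubgroup.relIndex_bot_left, AddSubgroup.relIndex_bot_left, mul_comm] at h1
    exact h1
  have e3 : Nat.card Y * Nat.card Y = Nat.card (z1s TX h.act) * Nat.card (b1s h.act) := by
    have h1 := GP.card_perp (QS.locB hL h)
      (Y.comap (zM (O := O) TX h.act h.lin).subtype).toAddSubgroup (fun a ha => by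
        obtain ⟨m, hm⟩ := hD.one a.1 a.2 fun y hy => ha ⟨y, hy⟩
        show a.1 ∈ Y
        rw [hm]
        exact hY.cob hL h m)
    have h2 : GP.perpL (QS.locB hL h)
        (Y.comap (zM (O := O) TX h.act h.lin).subtype).toAddSubgroup =
        (Y.comap (zM (O := O) TX h.act h.lin).subtype).toAddSubgroup :=
      congrArg Submodule.toAddSubgroup (hY.perp hL h)
    have c1 : Nat.card (Y.comap (zM (O := O) TX h.act h.lin).subtype).toAddSubgroup =
        Nat.card Y :=
      Nat.card_congr ⟨fun x => ⟨x.1.1, x.2⟩, fun x => ⟨⟨x.1, hY.coc _ x.2⟩, x.2⟩,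
        fun x => rfl, fun x => rfl⟩
    have c2 : Nat.card (GP.perpL (QS.locB hL h).flip ⊤) = Nat.card (b1s h.act) :=
      Nat.card_congr ⟨fun x => ⟨x.1.1, hD.one x.1.1 x.1.2 fun y hy => x.2 ⟨y, hy⟩ trivial⟩,
        fun x => ⟨⟨x.1, hBZ x.2⟩, fun y _ => by
          obtain ⟨m, hm⟩ := x.2
          show iv (cup11 σ (pB γ) x.1 y.1) = 0
          rw [hm]
          exact QS.iv_cup_d0 hL h y.2 m⟩,
        fun x => rfl, fun x => rfl⟩
    rw [h2, c1, c2] at h1
    exact h1
  refine ⟨(b1s h.act).relIndex Y.toAddSubgroup, e1, ?_, ?_⟩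
  · rw [← e1, ← e2] at e3
    have h3 : (b1s h.act).relIndex Y.toAddSubgroup * (b1s h.act).relIndex Y.toAddSubgroup *
        (Nat.card (b1s h.act) * Nat.card (b1s h.act)) =
        h1 TX h.act * (Nat.card (b1s h.act) * Nat.card (b1s h.act)) := by
      rw [mul_mul_mul_comm] at e3
      rw [e3, mul_assoc]
    exact Nat.eq_of_mul_eq_mul_right (Nat.mul_pos hB0 hB0) h3
  · have hr : Finite (LinearMap.range (cobL (O := O) h.act h.lin)) :=
      Finite.of_surjective (cobL (O := O) h.act h.lin).rangeRestrict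
        (cobL (O := O) h.act h.lin).surjective_rangeRestrict
    obtain ⟨a, ha⟩ := GP.card_pow (O := O) Y
    obtain ⟨b, hb⟩ := GP.card_pow (O := O) (LinearMap.range (cobL (O := O) h.act h.lin))
    have c3 : Nat.card (b1s h.act) = Nat.card (LinearMap.range (cobL (O := O) h.act h.lin)) :=
      Nat.card_congr ⟨fun x => ⟨x.1, by
          obtain ⟨m, hm⟩ := x.2
          exact ⟨m, hm.symm⟩⟩,
        fun x => ⟨x.1, by
          obtain ⟨m, hm⟩ := x.2
          exact ⟨m, hm.symm⟩⟩, fun x => rfl, fun x => rfl⟩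
    have hq : 2 ≤ Nat.card (IsLocalRing.ResidueField O) := Finite.one_lt_card
    rw [ha, c3, hb] at e1
    have hle : b ≤ a := (Nat.pow_dvd_pow_iff_le_right hq).1 ⟨_, by rw [mul_comm]; exact e1.symm⟩
    refine ⟨a - b, ?_⟩
    refine Nat.eq_of_mul_eq_mul_right (pow_pos (by omega : 0 < _) b) (e1.trans ?_)
    rw [← pow_add, Nat.sub_add_cancel hle]

end lagnum

section

variable {E : Type v} [NormedField E] [NormedAlgebra ℚ_[2] E] [FiniteDimensional ℚ_[2] E] {n : ℕ}
  {Γ : Type*} [Group Γ] {S : FSys Γ} {χ : Γ → ℤ_[2]} {l : OE E} {t : E →ₗ[ℚ_[2]] ℚ_[2]}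
  {T : Submodule (OE E) (Fin n → E)} {β Sm J : Matrix (Fin n) (Fin n) E}
  {ρ : Γ → Matrix (Fin n) (Fin n) E}

variable {I : Type*} [Fintype I] {D : I → Type*} [∀ i, Group (D i)] {SD : ∀ i, FSys (D i)}
  {j : ∀ i, D i →* Γ} {inv : ∀ i, (D i → D i → A0) → A0}
  {tr : ((Γ → Γ → Γ → A0) × (∀ i, D i → D i → A0)) →+ A0}
  {L : ∀ i, Submodule E (D i → Fin n → E)}

theorem step_N [IsLocalRing (OE E)] (H : HQ.{v} S SD j χ inv tr) (h : QRep S χ l t T β Sm J ρ)
    (hfd : ∀ i, FiniteDimensional E (L i)) (hL : ∀ i, ∀ X ∈ L i, ZV (SD i) (fun d => ρ (j i d)) X)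
    (hcob : ∀ i v, (fun d => ρ (j i d) *ᵥ v - v) ∈ L i)
    (hlag : ∀ N i, Lag (SD i) (inv i) (fun d => actN l N ρ h.rep.st (j i d)) (beN h N)
      (fun a d => laN χ l t β ρ T N a (j i d)) (lamN T l N (L i))) (N : ℕ) :
    EvPow (Nat.card (IsLocalRing.ResidueField (OE E)))
      (Nat.card (selNQ S j ρ L h (N + 2)) * Nat.card (selNQ S j ρ L h N)) := by
  classical
  have hres : Finite (IsLocalRing.ResidueField (OE E)) := GP.res_finite
  have hf : ∀ N, Finite (MN T l N) := fun N => GP.MN_finite h.lat N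
  have hχ : IsChar S χ := H.glob.char
  have key : ∀ i, ∃ t₀ : ℕ, t₀ * Nat.card (b1s ((qm_N h hχ 1).act.comp (j i))) =
      Nat.card (lamN T l 1 (L i)) ∧ t₀ * t₀ = h1 (SD i) ((qm_N h hχ 1).act.comp (j i)) ∧
      IsPow (Nat.card (IsLocalRing.ResidueField (OE E))) t₀ := fun i =>
    lag_num (H.glob.loc i) ((qm_N h hχ 1).comp (H.glob.jsm i)) (H.ld i (qm_N h hχ 1).pair)
      (hlag 1 i)
  choose t₀ ht1 ht2 ht3 using key
  have q0 : IsPow (Nat.card (IsLocalRing.ResidueField (OE E))) 1 := ⟨0, (pow_zero _).symm⟩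
  have k := QS.par_step H (qm_N h hχ (N + 2)) (qm_N h hχ N) (flag_N h N) (qm_N h hχ 1).pair
    (qm_N h hχ (N + 1)).pair (Y := fun i => lamN T l (N + 2) (L i))
    (Yb := fun i => lamN T l N (L i)) (hlag (N + 2)) (hlag N) t₀ (fun _ => 1) ht2 ht3
    (fun _ => q0) (fun i => by
      rw [mul_one]
      have := hfd i
      exact num_N h hχ (H.glob.jsm i) (hL i) (hcob i) N (ht1 i))
  rw [Finset.prod_const_one, mul_one] at k
  exact k

end

end Pool.Agent.Work.MP_787500_nt.QV
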