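import Mathlib
import Pool.Agent.Work.MP_787500_nt.QV.Defs
import Pool.Agent.Work.MP_787500_nt.QV.QmN
import Pool.Agent.Work.MP_787500_nt.QV.StepN
import Pool.Agent.Work.MP_787500_nt.KR.L15
import Pool.Agent.Work.MP_787500_nt.KR.L11
import Pool.Agent.Work.MP_787500_nt.KR.L09
import Pool.Agent.Work.MP_787500_nt.GP.L14_Grow

/-!
# Module Grow (size M-L): from the levels to the vector space

Model: KR/L16 (`sel_level`), KR/L17 (`card_div`, `selV_fd`), KR/L18 (`parV`), with one condition at each place instead of two.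
`selI = {x : Γ → Wq T | Z1 S (actQ T ∘ ρ) x, for all i there is X ∈ L i with x (j i d) = mq T (X d)}`, an `OE E`-module. The elements killed by `l ^ N` are `selNQ .. N` (`sel_level`). Finite:
`H.fin` for the pair `(qm_N h hχ N).pair`. `growth` (GP/L14): for large `N` the quotients `card (N + 1) / card N` are the number of the divisible elements killed by `l`, which is `q ^ finrank (selE)`
(`card_div`, `KR.seq_lim`, `KR.fd_closed`). `step_N` and `hP` give: `card (selNQ N)` is an even power of `q` for `N` even and `card (selNQ N) * q ^ δ` is one for `N` odd. So `finrank + δ` is even.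
-/

set_option autoImplicit false
set_option linter.unusedSectionVars false

namespace Pool.Agent.Work.MP_787500_nt.QV

open Matrix
open Pool.Agent.Work.MP_787500_nt.GP (A0 IsAct d0 d1 d2 tw cup11 cup21 cup12 cup01 cup02 EvPow IsPow OE MN
  actN actQ bN bil mq lft mq_lft mq_eq mq_add mq_smul Wq Lat pr0 lamN mem_OE)
open Pool.Agent.Work.MP_787500_nt.KR (FSys Sm1 Sm2 IsChar Smooth Z1 Z2 B2 LocH LocD Pair LDual GlobH Mid Sha2
  IsTr zM z1s b1s h1 LocRep ZV PerpV zV)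
open Pool.Agent.Work.MP_787500_nt.QS (QM Lag selQ HQ Flag pB Zq indY redY)
open Pool.Agent.Work.MP_787500_nt.PA (toE)

universe v

section

variable {E : Type v} [NormedField E] [NormedAlgebra ℚ_[2] E] [FiniteDimensional ℚ_[2] E] {n : ℕ}
  {Γ : Type*} [Group Γ] {S : FSys Γ} {χ : Γ → ℤ_[2]} {l : OE E} {t : E →ₗ[ℚ_[2]] ℚ_[2]}
  {T : Submodule (OE E) (Fin n → E)} {β Sm J : Matrix (Fin n) (Fin n) E}
  {ρ : Γ → Matrix (Fin n) (Fin n) E}

variable {I : Type*} [Fintype I] {D : I → Type*} [∀ i, Group (D i)] {SD : ∀ i, FSys (D i)}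
  {j : ∀ i, D i →* Γ} {inv : ∀ i, (D i → D i → A0) → A0}
  {tr : ((Γ → Γ → Γ → A0) × (∀ i, D i → D i → A0)) →+ A0}
  {L : ∀ i, Submodule E (D i → Fin n → E)}

variable (S j ρ L) in
/-- the Selmer group with values in `E ^ n` modulo `T` -/
private def selI (hst : ∀ g, ∀ x ∈ T, ρ g *ᵥ x ∈ T) : Submodule (OE E) (Γ → Wq T) where
  carrier := {x | Z1 S (fun g => actQ T (ρ g)) x ∧ ∀ w, ∃ X ∈ L w, ∀ d, x (j w d) = mq T (X d)}
  add_mem' := by
    rintro x x' ⟨⟨⟨W, hW, h1⟩, h2⟩, h3⟩ ⟨⟨⟨W', hW', h1'⟩, h2'⟩, h3'⟩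
    refine ⟨⟨⟨W ⊓ W', S.inf hW hW', fun g w hw => ?_⟩, fun g h => ?_⟩, fun w => ?_⟩
    · simp only [Pi.add_apply, h1 g w hw.1, h1' g w hw.2]
    · simp only [Pi.add_apply, h2, h2', KR.actQ_add (hst g)]
      abel
    · obtain ⟨X, hX, e⟩ := h3 w
      obtain ⟨X', hX', e'⟩ := h3' w
      exact ⟨X + X', (L w).add_mem hX hX', fun d => by rw [Pi.add_apply, e, e']; rfl⟩
  zero_mem' := by
    refine ⟨⟨?_, fun g h => ?_⟩, fun w => ⟨0, Submodule.zero_mem _, fun d => rfl⟩⟩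
    · obtain ⟨W, hW⟩ := S.ex
      exact ⟨W, hW, fun _ _ _ => rfl⟩
    · have h0 : actQ T (ρ g) (mq T 0) = mq T (ρ g *ᵥ 0) := GP.actQ_mq (hst g) 0
      rw [mulVec_zero] at h0
      have h1 : mq T (0 : Fin n → E) = 0 := GP.mq_eq_zero.2 T.zero_mem
      rw [h1] at h0
      simp only [Pi.zero_apply, h0, add_zero]
  smul_mem' := by
    rintro a x ⟨⟨⟨W, hW, h1⟩, h2⟩, h3⟩
    refine ⟨⟨⟨W, hW, fun g w hw => ?_⟩, fun g h => ?_⟩, fun w => ?_⟩
    · simp only [Pi.smul_apply, h1 g w hw]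
    · simp only [Pi.smul_apply, h2, KR.actQ_smul (hst g), smul_add]
    · obtain ⟨X, hX, e⟩ := h3 w
      exact ⟨(a : E) • X, (L w).smul_mem _ hX, fun d => by rw [Pi.smul_apply, e]; rfl⟩

private theorem gr_mem (h : QRep S χ l t T β Sm J ρ) (N : ℕ) (x : Γ → MN T l N) :
    x ∈ selNQ S j ρ L h N ↔ (fun g => (x g : Wq T)) ∈ selI S ρ j L h.rep.st := by
  have hZ : Z1 S (actN l N ρ h.rep.st) x ↔ Z1 S (fun g => actQ T (ρ g)) (fun g => (x g : Wq T)) := by
    constructor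
    · rintro ⟨⟨W, hW, h1⟩, h2⟩
      refine ⟨⟨W, hW, fun g w hw => ?_⟩, fun a c => ?_⟩
      · show (x (g * w) : Wq T) = x g
        rw [h1 g w hw]
      · have h3 := congrArg (fun m : MN T l N => (m : Wq T)) (h2 a c)
        exact h3
    · rintro ⟨⟨W, hW, h1⟩, h2⟩
      refine ⟨⟨W, hW, fun g w hw => ?_⟩, fun a c => ?_⟩
      · exact Subtype.ext (h1 g w hw)
      · exact Subtype.ext (h2 a c)
  constructor
  · rintro ⟨h1, h2⟩
    exact ⟨hZ.1 h1, fun w => h2 w⟩
  · rintro ⟨h1, h2⟩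
    exact ⟨hZ.2 h1, fun w => h2 w⟩

private theorem gr_level (h : QRep S χ l t T β Sm J ρ) (N : ℕ) :
    Nat.card (selNQ S j ρ L h N) =
      Nat.card (Submodule.torsionBy (OE E) (selI S ρ j L h.rep.st) (l ^ N)) := by
  let f : selNQ S j ρ L h N → Submodule.torsionBy (OE E) (selI S ρ j L h.rep.st) (l ^ N) := fun x =>
    ⟨⟨fun g => ((x : Γ → MN T l N) g : Wq T), (gr_mem h N x).1 x.2⟩, by
      rw [Submodule.mem_torsionBy_iff]
      apply Subtype.ext
      funext g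
      exact ((x : Γ → MN T l N) g).mem⟩
  refine Nat.card_eq_of_bijective f ⟨fun x y hxy => ?_, fun c => ?_⟩
  · apply Subtype.ext
    funext g
    apply Subtype.ext
    exact congrFun (congrArg Subtype.val (congrArg Subtype.val hxy)) g
  · obtain ⟨⟨x, hx⟩, hc⟩ := c
    have hc' : ∀ g, x g ∈ Submodule.torsionBy (OE E) (Wq T) (l ^ N) := by
      intro g
      rw [Submodule.mem_torsionBy_iff] at hc ⊢
      exact congrFun (congrArg Subtype.val hc) g
    exact ⟨⟨fun g => ⟨x g, hc' g⟩, (gr_mem h N _).2 hx⟩, rfl⟩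

private theorem gr_mq (h : Lat Sm l t T) (hst : ∀ g, ∀ x ∈ T, ρ g *ᵥ x ∈ T) {X : Γ → Fin n → E}
    (hX : X ∈ selE S j ρ L) : (fun g => mq T (X g)) ∈ selI S ρ j L hst := by
  obtain ⟨⟨h1, h2⟩, h3⟩ := hX
  refine ⟨⟨?_, fun g k => ?_⟩, fun w => ⟨_, h3 w, fun d => rfl⟩⟩
  · obtain ⟨r, hr, hopn⟩ := h.opn
    obtain ⟨W, hW, h5⟩ := h1 r hr
    exact ⟨W, hW, fun g w hw => mq_eq.2 (hopn _ (h5 g w hw))⟩
  · show mq T (X (g * k)) = mq T (X g) + actQ T (ρ g) (mq T (X k))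
    rw [GP.actQ_mq (hst g), ← mq_add, h2]

private theorem gr_closed (h : Lat Sm l t T) {Y : Type*} (V : Submodule E (Y → Fin n → E))
    [FiniteDimensional E V] (X : Y → Fin n → E) (a : ℕ → Y → Wq T)
    (ha : ∀ k d, mq T (((l : E) ^ k)⁻¹ • X d) = a k d)
    (hV : ∀ k, ∃ Z ∈ V, ∀ d, a k d = mq T (Z d)) : X ∈ V := by
  refine KR.fd_closed h V X fun k => ?_
  obtain ⟨Z, hZ, h1⟩ := hV k
  have hl : (l : E) ^ k ≠ 0 := pow_ne_zero _ h.lne
  refine ⟨Z, hZ, fun d => ⟨((l : E) ^ k)⁻¹ • X d - Z d, ?_, ?_⟩⟩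
  · rw [← mq_eq, ha, h1]
  · rw [smul_sub, smul_smul, mul_inv_cancel₀ hl, one_smul]

private theorem gr_lift (h : QRep S χ l t T β Sm J ρ) (hfd : ∀ i, FiniteDimensional E (L i))
    (a : ℕ → selI S ρ j L h.rep.st) (ha : ∀ k, l • a (k + 1) = a k) :
    ∃ X ∈ selE S j ρ L, ∀ g, mq T (X g) = (a 0 : Γ → Wq T) g := by
  obtain ⟨X, hX, h1⟩ := KR.seq_lim h.lat h.rep.st (fun k => (a k : Γ → Wq T)) (fun k => (a k).2.1)
    (fun k g => by
      have := congrArg (fun x : selI S ρ j L h.rep.st => (x : Γ → Wq T) g) (ha k)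
      exact this)
  refine ⟨X, ⟨hX, fun w => ?_⟩, fun g => ?_⟩
  · have f3 : FiniteDimensional E (L w) := hfd w
    exact gr_closed h.lat (L w) _ (fun k d => (a k : Γ → Wq T) (j w d)) (fun k d => h1 k (j w d))
      (fun k => (a k).2.2 w)
  · have := h1 0 g
    simpa using this

private theorem gr_div [IsLocalRing (OE E)] (h : QRep S χ l t T β Sm J ρ)
    (hfd : ∀ i, FiniteDimensional E (L i)) [FiniteDimensional E (selE S j ρ L)]
    (hfin : ∀ N : ℕ, Finite (Submodule.torsionBy (OE E) (selI S ρ j L h.rep.st) (l ^ N))) :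
    Nat.card {c : selI S ρ j L h.rep.st //
      l • c = 0 ∧ ∀ N : ℕ, ∃ a : selI S ρ j L h.rep.st, l ^ N • a = c} =
    Nat.card (IsLocalRing.ResidueField (OE E)) ^ Module.finrank E (selE S j ρ L) := by
  have h1 := GP.card_lamN h.lat 1 (selE S j ρ L) (fun X hX => KR.zv_bdd hX.1)
  rw [one_mul] at h1
  rw [← h1]
  have key : ∀ x : lamN T l 1 (selE S j ρ L),
      (fun g => ((x : Γ → MN T l 1) g : Wq T)) ∈ selI S ρ j L h.rep.st := by
    intro x
    obtain ⟨X, hX, h2⟩ := x.2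
    have h3 : (fun g => ((x : Γ → MN T l 1) g : Wq T)) = fun g => mq T (X g) := funext h2
    rw [h3]
    exact gr_mq h.lat h.rep.st hX
  let F : lamN T l 1 (selE S j ρ L) → {c : selI S ρ j L h.rep.st //
      l • c = 0 ∧ ∀ N : ℕ, ∃ a : selI S ρ j L h.rep.st, l ^ N • a = c} := fun x =>
    ⟨⟨fun g => ((x : Γ → MN T l 1) g : Wq T), key x⟩, by
      apply Subtype.ext
      funext g
      have h5 := ((x : Γ → MN T l 1) g).mem
      have h6 : l • ((x : Γ → MN T l 1) g : Wq T) = l ^ 1 • ((x : Γ → MN T l 1) g : Wq T) := by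
        congr 1
        exact (pow_one l).symm
      exact h6.trans h5, by
      intro N
      obtain ⟨X, hX, h2⟩ := x.2
      refine ⟨⟨fun g => mq T (((l : E) ^ N)⁻¹ • X g),
        gr_mq h.lat h.rep.st ((selE S j ρ L).smul_mem (((l : E) ^ N)⁻¹) hX)⟩, ?_⟩
      apply Subtype.ext
      funext g
      show l ^ N • mq T (((l : E) ^ N)⁻¹ • X g) = ((x : Γ → MN T l 1) g : Wq T)
      rw [h2, ← mq_smul]
      push_cast
      rw [smul_smul, mul_inv_cancel₀ (pow_ne_zero _ h.lat.lne), one_smul]⟩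
  refine (Nat.card_congr (Equiv.ofBijective F ⟨fun x y hxy => ?_, fun c => ?_⟩)).symm
  · apply Subtype.ext
    funext g
    apply Subtype.ext
    have h2 := congrArg (fun c : {c : selI S ρ j L h.rep.st //
      l • c = 0 ∧ ∀ N : ℕ, ∃ a : selI S ρ j L h.rep.st, l ^ N • a = c} =>
        (c.1 : Γ → Wq T) g) hxy
    exact h2
  · obtain ⟨c, hc, hd⟩ := c
    obtain ⟨a, ha0, ha⟩ := GP.coherent l hfin hc hd
    obtain ⟨X, hX, h2⟩ := gr_lift h hfd a ha
    rw [ha0] at h2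
    have h3 : ∀ g, (c : Γ → Wq T) g ∈ Submodule.torsionBy (OE E) (Wq T) (l ^ 1) := by
      intro g
      rw [Submodule.mem_torsionBy_iff, pow_one]
      have := congrArg (fun x : selI S ρ j L h.rep.st => (x : Γ → Wq T) g) hc
      exact this
    refine ⟨⟨fun g => ⟨(c : Γ → Wq T) g, h3 g⟩, X, hX, fun g => (h2 g).symm⟩, ?_⟩
    apply Subtype.ext
    apply Subtype.ext
    rfl

private theorem gr_zero (h : QRep S χ l t T β Sm J ρ) : Nat.card (selNQ S j ρ L h 0) = 1 := by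
  have h0 : ∀ x : MN T l 0, x = 0 := by
    intro x
    have h1 : l ^ 0 • (x : Wq T) = 0 := x.mem
    have h2 : ∀ (a : OE E) (w : Wq T), a = 1 → a • w = w := fun a w h => by rw [h, one_smul]
    exact Subtype.ext ((h2 _ _ (pow_zero l)).symm.trans h1)
  have hs : Subsingleton (selNQ S j ρ L h 0) := ⟨fun x y => by
    apply Subtype.ext
    funext g
    rw [h0 ((x : Γ → MN T l 0) g), h0 ((y : Γ → MN T l 0) g)]⟩
  exact Nat.card_unique

private theorem gr_mul {q c2 c1 m k : ℕ} (h : c2 * c1 = q ^ (2 * m)) :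
    c2 * q ^ k * (c1 * q ^ k) = q ^ (2 * (m + k)) := by
  rw [mul_add, pow_add, ← h, two_mul k, pow_add]
  ring

private theorem gr_pow {q a b m c : ℕ} (hq : 1 < q) (h1 : a * b = q ^ (2 * m)) (h2 : b = q ^ (2 * c)) :
    ∃ k, a = q ^ (2 * k) := by
  have hq0 : 0 < q := by omega
  have h3 : q ^ (2 * c) ∣ q ^ (2 * m) := ⟨a, by rw [← h1, h2, mul_comm]⟩
  have h4 : 2 * c ≤ 2 * m := (Nat.pow_dvd_pow_iff_le_right hq).1 h3
  refine ⟨m - c, ?_⟩
  have h5 : a * q ^ (2 * c) = q ^ (2 * (m - c)) * q ^ (2 * c) := by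
    rw [← pow_add, ← h2, h1]
    congr 1
    omega
  exact Nat.eq_of_mul_eq_mul_right (pow_pos hq0 _) h5

theorem parity_E [IsLocalRing (OE E)] (H : HQ.{v} S SD j χ inv tr)
    (hgen : ∃ X : Finset Γ, ∀ U : Subgroup Γ, (∃ W, S.mem W ∧ W ≤ U) → (∀ g ∈ X, g ∈ U) → U = ⊤)
    (h : QRep S χ l t T β Sm J ρ)
    (hfd : ∀ i, FiniteDimensional E (L i)) (hL : ∀ i, ∀ X ∈ L i, ZV (SD i) (fun d => ρ (j i d)) X)
    (hcob : ∀ i v, (fun d => ρ (j i d) *ᵥ v - v) ∈ L i)
    (hlag : ∀ N i, Lag (SD i) (inv i) (fun d => actN l N ρ h.rep.st (j i d)) (beN h N)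
      (fun a d => laN χ l t β ρ T N a (j i d)) (lamN T l N (L i))) {δ : ℕ}
    (hP : EvPow (Nat.card (IsLocalRing.ResidueField (OE E)))
      (Nat.card (selNQ S j ρ L h 1) * Nat.card (IsLocalRing.ResidueField (OE E)) ^ δ)) :
    FiniteDimensional E (selE S j ρ L) ∧ Even (Module.finrank E (selE S j ρ L) + δ) := by
  have hres : Finite (IsLocalRing.ResidueField (OE E)) := GP.res_finite
  have hfdS : FiniteDimensional E (selE S j ρ L) := by
    have h1 : FiniteDimensional E (zV S ρ) := KR.zV_fd hgen h.rep.one h.rep.mul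
    have h2 : selE S j ρ L ≤ zV S ρ := fun X hX => hX.1
    exact Submodule.finiteDimensional_of_le h2
  refine ⟨hfdS, ?_⟩
  have hstep : ∀ N, EvPow (Nat.card (IsLocalRing.ResidueField (OE E)))
      (Nat.card (selNQ S j ρ L h (N + 2)) * Nat.card (selNQ S j ρ L h N)) :=
    fun N => step_N H h hfd hL hcob hlag N
  set q := Nat.card (IsLocalRing.ResidueField (OE E)) with hq
  have hq2 : 1 < q := Finite.one_lt_card
  have hpar : ∀ N : ℕ, ∃ m : ℕ,
      Nat.card (Submodule.torsionBy (OE E) (selI S ρ j L h.rep.st) (l ^ N)) * q ^ (N % 2 * δ) =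
        q ^ (2 * m) := by
    have key : ∀ N : ℕ, ∃ m : ℕ, Nat.card (selNQ S j ρ L h N) * q ^ (N % 2 * δ) = q ^ (2 * m) := by
      intro N
      induction N using Nat.strong_induction_on with
      | _ N ih =>
        rcases N with _ | _ | N
        · refine ⟨0, ?_⟩
          rw [gr_zero]
          simp
        · obtain ⟨m, hm⟩ := hP
          exact ⟨m, by rw [← hm]; simp⟩
        · obtain ⟨m, hm⟩ := ih N (by omega)
          obtain ⟨m', hm'⟩ := hstep N
          have e : (N + 1 + 1) % 2 = N % 2 := by omega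
          rw [e]
          refine gr_pow (m := m' + N % 2 * δ) (c := m) hq2 ?_ hm
          exact gr_mul hm'
    intro N
    obtain ⟨m, hm⟩ := key N
    exact ⟨m, by rw [← gr_level h N]; exact hm⟩
  have hfin : ∀ N : ℕ,
      Finite (Submodule.torsionBy (OE E) (selI S ρ j L h.rep.st) (l ^ N)) := by
    intro N
    obtain ⟨m, hm⟩ := hpar N
    refine Nat.finite_of_card_ne_zero fun h0 => ?_
    rw [h0, zero_mul] at hm
    exact (pow_pos (by omega : 0 < q) (2 * m)).ne hm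
  obtain ⟨n₀, hn₀⟩ := GP.growth l hfin
  rw [gr_div h hfd hfin, ← hq] at hn₀
  obtain ⟨m, hm⟩ := hpar n₀
  obtain ⟨m', hm'⟩ := hpar (n₀ + 1)
  rw [hn₀] at hm'
  set a := Module.finrank E (selE S j ρ L) with ha
  have e : q ^ (2 * m' + n₀ % 2 * δ) = q ^ (2 * m + (a + (n₀ + 1) % 2 * δ)) := by
    rw [pow_add, ← hm', pow_add q (2 * m), ← hm, pow_add]
    ring
  have e2 := Nat.pow_right_injective hq2 e
  rcases Nat.mod_two_eq_zero_or_one n₀ with h0 | h0
  · have h1 : (n₀ + 1) % 2 = 1 := by omega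
    rw [h0, h1] at e2
    simp only [one_mul, zero_mul, add_zero] at e2
    exact ⟨m' - m, by omega⟩
  · have h1 : (n₀ + 1) % 2 = 0 := by omega
    rw [h0, h1] at e2
    simp only [one_mul, zero_mul, add_zero] at e2
    exact ⟨m' + δ - m, by omega⟩

end

end Pool.Agent.Work.MP_787500_nt.QV
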