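import Mathlib
import Pool.Agent.Work.MP_787500_nt.QV.Defs
import Pool.Agent.Work.MP_787500_nt.QV.Lv
import Pool.Agent.Work.MP_787500_nt.QV.QmN
import Pool.Agent.Work.MP_787500_nt.KR.L12
import Pool.Agent.Work.MP_787500_nt.QS.Th

/-!
# Module LagN (size M-L): the reductions of a self-annihilating subspace are Lagrangian

`P` a local group, `hr : LocRep TP .. Sm (ρ ∘ jp) ((J ρ J) ∘ jp)` from `h.rep` by restriction (as `KR.locRep_of`, KR/L16).
* `coc`: `KR.zv_level` (KR/L09).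
* `self`, `→`: `x, y ∈ lamN`, lifts `X, Y ∈ L`: `cup11 (pB (beN)) x y s u = bN x (J (ρ s (y u)))` (`pB_beN`) `= pr0 (t (l ^ N * bil Sm (X s) (J ρ s Y u)))`, and `bil Sm (X s) (J ρ_s Y u) = dE χ z`
  (`hL.self`), so it is `d1 (tw χ) (pr0 (t (l ^ N z)))`, `z` continuous, so `iv` of it is 0 (`H.cob`). `←`: `x ∈ Z1`, orthogonal to `lamN L`. `J x` is a cocycle for `J ρ J` and `RN` holds for it
  (up to the symmetry `iv (x ∪ y) = iv (y ∪ x)`, QS/Th `iv_symm`, with `pB_beN`): `KR.perp_iff` (KR/L12): `J x = red Y`, `PerpV .. L Y`. Then `J Y` is a cocycle for `ρ`, `x = red (J Y)`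
  and `hL.self` (`J J = 1`, definition of `PerpV`, `cupE`): `J Y ∈ L`.
* `iso`: lift `X ∈ L` of `x`. `W s u = bil β (X s) (ρ s X u) + lamE s (X u)`. Identity: `2 W s u = bil Sm (X s) (J ρ s X u) - (f s + χ s f u - f (s u))`, `f s = bil β (X s) (X s)` (expand
  `f (s u)`, `X (s u) = X s + ρ s X u`, `2 lamE s (X u) = bil β (ρ s X u) (ρ s X u) - χ s bil β (X u) (X u)`, `h.alt`). By `hL.self`, `bil Sm .. = dE χ z`, so `W = dE χ ((z - f) / 2)`, continuous
  (`X` is continuous and bounded, `KR.zv_bdd`). `Zq a x s u = pr0 (t (l ^ N * (a * W s u)))` (`beN_val`, `la_val`): `iv` of it is 0.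
-/

set_option autoImplicit false
set_option linter.unusedSectionVars false

namespace Pool.Agent.Work.MP_787500_nt.QV

open Matrix
open Pool.Agent.Work.MP_787500_nt.GP (A0 IsAct d0 d1 d2 tw cup11 cup21 cup12 cup01 cup02 EvPow IsPow OE MN
  actN actQ bN bil mq lft mq_lft mq_eq mq_add mq_smul Wq Lat pr0 lamN mem_OE)
open Pool.Agent.Work.MP_787500_nt.KR (FSys Sm1 Sm2 IsChar Smooth Z1 Z2 B2 LocH LocD Pair LDual GlobH Mid Sha2
  IsTr zM z1s b1s h1 LocRep ZV PerpV zV)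
open Pool.Agent.Work.MP_787500_nt.QS (QM Lag selQ HQ Flag pB Zq indY redY)
open Pool.Agent.Work.MP_787500_nt.PA (toE)

universe v

section

variable {E : Type v} [NormedField E] [NormedAlgebra ℚ_[2] E] [FiniteDimensional ℚ_[2] E] {n : ℕ}
  {Γ : Type*} [Group Γ] {S : FSys Γ} {χ : Γ → ℤ_[2]} {l : OE E} {t : E →ₗ[ℚ_[2]] ℚ_[2]}
  {T : Submodule (OE E) (Fin n → E)} {β Sm J : Matrix (Fin n) (Fin n) E}
  {ρ : Γ → Matrix (Fin n) (Fin n) E}

variable {P : Type*} [Group P] {TP : FSys P} {iv : (P → P → A0) → A0} {jp : P →* Γ}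

private theorem lg_rep (h : QRep S χ l t T β Sm J ρ)
    (hj : ∀ W, S.mem W → ∃ W', TP.mem W' ∧ ∀ w ∈ W', jp w ∈ W) :
    LocRep TP (fun d => χ (jp d)) T Sm (fun d => ρ (jp d)) (fun d => J * ρ (jp d) * J) where
  one := by
    rw [map_one]
    exact h.rep.one
  mul s u := by
    rw [map_mul]
    exact h.rep.mul _ _
  one' := by
    have h1 := h.rep.one'
    rw [map_one]
    exact h1
  mul' s u := by
    have h1 := h.rep.mul' (jp s) (jp u)
    rw [map_mul]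
    exact h1
  st d := h.rep.st _
  st' d := h.rep.st' _
  sm ε hε := by
    obtain ⟨W, hW, h1⟩ := h.rep.sm ε hε
    obtain ⟨W', hW', h2⟩ := hj W hW
    exact ⟨W', hW', fun v hv x => h1 _ (h2 v hv) x⟩
  sm' ε hε := by
    obtain ⟨W, hW, h1⟩ := h.rep.sm' ε hε
    obtain ⟨W', hW', h2⟩ := hj W hW
    exact ⟨W', hW', fun v hv x => h1 _ (h2 v hv) x⟩
  dual d x y := h.rep.dual _ x y

private theorem lg_mat (A : Matrix (Fin n) (Fin n) E) :
    ∃ C : ℝ, 0 ≤ C ∧ ∀ x : Fin n → E, ‖A *ᵥ x‖ ≤ C * ‖x‖ := by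
  refine ⟨∑ i, ∑ j, ‖A i j‖, Finset.sum_nonneg fun i _ => Finset.sum_nonneg fun j _ => norm_nonneg _,
    fun x => ?_⟩
  refine (pi_norm_le_iff_of_nonneg (by positivity)).2 fun i => ?_
  show ‖∑ j, A i j * x j‖ ≤ _
  refine (norm_sum_le _ _).trans ?_
  calc ∑ j, ‖A i j * x j‖ ≤ ∑ j, ‖A i j‖ * ‖x‖ := by
        refine Finset.sum_le_sum fun j _ => ?_
        rw [norm_mul]
        exact mul_le_mul_of_nonneg_left (norm_le_pi_norm x j) (norm_nonneg _)
    _ = (∑ j, ‖A i j‖) * ‖x‖ := by rw [Finset.sum_mul]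
    _ ≤ (∑ i, ∑ j, ‖A i j‖) * ‖x‖ := by
        refine mul_le_mul_of_nonneg_right ?_ (norm_nonneg _)
        exact Finset.single_le_sum (f := fun i => ∑ j, ‖A i j‖)
          (fun i _ => Finset.sum_nonneg fun j _ => norm_nonneg _) (Finset.mem_univ i)

private theorem lg_n1_mat (A : Matrix (Fin n) (Fin n) E) {X : P → Fin n → E} (hX : KP.N1 TP X) :
    KP.N1 TP (fun d => A *ᵥ X d) := by
  obtain ⟨C, hC, hA⟩ := lg_mat A
  intro ε hε
  obtain ⟨W, hW, h1⟩ := hX (ε / (C + 1)) (by positivity)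
  refine ⟨W, hW, fun g w hw => ?_⟩
  have h2 : A *ᵥ X (g * w) - A *ᵥ X g = A *ᵥ (X (g * w) - X g) := by rw [mulVec_sub]
  rw [h2]
  have h3 := h1 g w hw
  rw [lt_div_iff₀ (by positivity)] at h3
  have h4 := hA (X (g * w) - X g)
  have h5 := norm_nonneg (X (g * w) - X g)
  nlinarith

private theorem lg_n1_pair (b : Matrix (Fin n) (Fin n) E) {X : P → Fin n → E} (hX : KP.N1 TP X)
    (hb' : ∃ C : ℝ, ∀ d, ‖X d‖ ≤ C) : KP.N1 TP (fun g => bil b (X g) (X g)) := by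
  obtain ⟨C, hC, hb⟩ := Gn.pair_bound b
  obtain ⟨A, hXb⟩ := hb'
  have hA : 0 ≤ A := (norm_nonneg _).trans (hXb 1)
  intro ε hε
  set M : ℝ := C * (A + A) + 1 with hM
  have hM0 : 0 < M := by positivity
  obtain ⟨W, hW, hsm⟩ := hX (ε / M) (by positivity)
  refine ⟨W, hW, fun g w hw => ?_⟩
  have h1 : bil b (X (g * w)) (X (g * w)) - bil b (X g) (X g) =
      bil b (X (g * w) - X g) (X (g * w)) + bil b (X g) (X (g * w) - X g) := by
    rw [GP.bil_sub_left, GP.bil_sub_right]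
    ring
  show ‖bil b (X (g * w)) (X (g * w)) - bil b (X g) (X g)‖ < ε
  rw [h1]
  have h2 : ‖bil b (X (g * w) - X g) (X (g * w))‖ ≤ _ := hb (X (g * w) - X g) (X (g * w))
  have h3 : ‖bil b (X g) (X (g * w) - X g)‖ ≤ _ := hb (X g) (X (g * w) - X g)
  have h4 := (hsm g w hw).le
  have h6 : C * ‖X (g * w) - X g‖ * ‖X (g * w)‖ ≤ C * (ε / M) * A :=
    mul_le_mul (mul_le_mul_of_nonneg_left h4 hC) (hXb _) (norm_nonneg _) (by positivity)
  have h7 : C * ‖X g‖ * ‖X (g * w) - X g‖ ≤ C * A * (ε / M) :=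
    mul_le_mul (mul_le_mul_of_nonneg_left (hXb _) hC) h4 (norm_nonneg _) (by positivity)
  have h8 : C * (ε / M) * A + C * A * (ε / M) = (M - 1) * (ε / M) := by
    rw [hM]
    ring
  have h9 : (M - 1) * (ε / M) < ε := by
    rw [mul_div_assoc', div_lt_iff₀ hM0]
    nlinarith
  calc ‖bil b (X (g * w) - X g) (X (g * w)) + bil b (X g) (X (g * w) - X g)‖
      ≤ ‖bil b (X (g * w) - X g) (X (g * w))‖ + ‖bil b (X g) (X (g * w) - X g)‖ :=
        norm_add_le _ _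
    _ < ε := by linarith

/-- the quadratic cocycle of a vector valued cocycle is a coboundary -/
private theorem lg_W (h : QRep S χ l t T β Sm J ρ) {X : P → Fin n → E}
    (hX : ZV TP (fun d => ρ (jp d)) X)
    (hBE : KP.BE TP (fun d => χ (jp d)) fun s u => bil Sm (X s) (J *ᵥ (ρ (jp s) *ᵥ X u))) :
    KP.BE TP (fun d => χ (jp d)) fun s u =>
      bil β (X s) (ρ (jp s) *ᵥ X u) + lamE χ β ρ (jp s) (X u) := by
  have : CharZero E := charZero_of_injective_algebraMap (algebraMap ℚ_[2] E).injective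
  have hf : KP.BE TP (fun d => χ (jp d))
      (PA.dE (E := E) (fun d => χ (jp d)) fun g => bil β (X g) (X g)) :=
    ⟨_, lg_n1_pair β hX.1 (KR.zv_bdd hX), rfl⟩
  have h1 := KR.be_smul (2⁻¹ : E) (KR.be_add hBE (KR.be_smul (-1 : E) hf))
  have h2 : (fun s u => bil β (X s) (ρ (jp s) *ᵥ X u) + lamE χ β ρ (jp s) (X u)) =
      fun s u => (2⁻¹ : E) * (bil Sm (X s) (J *ᵥ (ρ (jp s) *ᵥ X u)) +
        (-1 : E) * PA.dE (E := E) (fun d => χ (jp d)) (fun g => bil β (X g) (X g)) s u) := by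
    funext s u
    have h3 := h.alt (X s) (ρ (jp s) *ᵥ X u)
    rw [← h3, lamE, PA.dE, hX.2 s u, GP.bil_add_left, GP.bil_add_right, GP.bil_add_right]
    ring
  rw [h2]
  exact h1

theorem lag_N (H : LocD.{v} TP (fun d => χ (jp d)) iv) (h : QRep S χ l t T β Sm J ρ)
    (hχ : IsChar S χ) (hj : ∀ W, S.mem W → ∃ W', TP.mem W' ∧ ∀ w ∈ W', jp w ∈ W)
    {L : Submodule E (P → Fin n → E)}
    (hL : LagV TP (fun d => χ (jp d)) Sm J (fun d => ρ (jp d)) L) (N : ℕ) :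
    Lag TP iv (fun d => actN l N ρ h.rep.st (jp d)) (beN h N)
      (fun a d => laN χ l t β ρ T N a (jp d)) (lamN T l N L) := by
  have hr := lg_rep h hj
  have hq : QM TP (fun d => χ (jp d)) (OE E) (fun d => actN l N ρ h.rep.st (jp d)) (beN h N)
      (fun a d => laN χ l t β ρ T N a (jp d)) := (qm_N h hχ N).comp hj
  have hcoc : ∀ x ∈ lamN T l N L, Z1 TP (fun d => actN l N ρ h.rep.st (jp d)) x := by
    rintro x ⟨X, hX, h1⟩
    exact KR.zv_level h.lat hr N (hL.coc X hX) h1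
  have hJJ : ∀ v : Fin n → E, J *ᵥ (J *ᵥ v) = v := fun v => by
    rw [mulVec_mulVec, h.jj, one_mulVec]
  refine ⟨hcoc, fun x hx => ⟨?_, fun hperp => ?_⟩, ?_⟩
  · rintro ⟨X, hX, h1⟩ y ⟨Y, hY, h2⟩
    have h3 := KR.be_inv_zero H ((hL.self Y (hL.coc Y hY)).1 hY X hX)
      (t.comp (LinearMap.mulLeft ℚ_[2] ((l : E) ^ N)))
    rw [← h3]
    congr 1
    funext s u
    show pB (beN h N) (x s) (actN l N ρ h.rep.st (jp s) (y u)) = pr0 (t ((l : E) ^ N * _))
    rw [pB_beN]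
    refine GP.bN_val h.lat N _ _ (h1 s).symm ?_
    rw [GP.coe_actN, GP.coe_actN, h2, GP.actQ_mq (h.rep.st _), GP.actQ_mq h.jT]
  · -- `J x` is a cocycle for `J ρ J`
    let y : P → MN T l N := fun d => actN l N (fun _ : Unit => J) (fun _ => h.jT) () (x d)
    have hyv : ∀ d, (y d : Wq T) = mq T (J *ᵥ lft (x d : Wq T)) := fun d => rfl
    have hRN : KR.RN iv h.lat hr L N y := by
      refine ⟨⟨?_, fun s u => ?_⟩, fun w hw => ?_⟩
      · obtain ⟨W, hW, h1⟩ := hx.1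
        exact ⟨W, hW, fun g w hw => by
          show actN l N (fun _ : Unit => J) (fun _ => h.jT) () (x (g * w)) = _
          rw [h1 g w hw]⟩
      · apply Subtype.ext
        have h1 := congrArg (fun m : MN T l N => (m : Wq T)) (hx.2 s u)
        have h2 : (x (s * u) : Wq T) = (x s : Wq T) + actQ T (ρ (jp s)) (x u : Wq T) := h1
        show actQ T J (x (s * u) : Wq T) = actQ T J (x s : Wq T) +
          actQ T (J * ρ (jp s) * J) (actQ T J (x u : Wq T))
        rw [h2, KR.actQ_add h.jT]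
        congr 1
        rw [← mq_lft (x u : Wq T), GP.actQ_mq (h.rep.st _), GP.actQ_mq h.jT, GP.actQ_mq h.jT,
          GP.actQ_mq (h.rep.st' _), ← mulVec_mulVec, ← mulVec_mulVec, hJJ]
      · have h1 := hperp w hw
        rw [QS.iv_symm H.toLocH hq hx (hcoc w hw)] at h1
        rw [← h1]
        congr 1
        funext s u
        show bN h.lat N (w s) (actN l N (fun d => J * ρ (jp d) * J) hr.st' s (y u)) =
          pB (beN h N) (w s) (actN l N ρ h.rep.st (jp s) (x u))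
        rw [pB_beN]
        congr 1
        apply Subtype.ext
        show actQ T (J * ρ (jp s) * J) (actQ T J (x u : Wq T)) =
          actQ T J (actQ T (ρ (jp s)) (x u : Wq T))
        rw [← mq_lft (x u : Wq T), GP.actQ_mq (h.rep.st _), GP.actQ_mq h.jT, GP.actQ_mq h.jT,
          GP.actQ_mq (h.rep.st' _), ← mulVec_mulVec, ← mulVec_mulVec, hJJ]
    obtain ⟨Y, ⟨hYZ, hYp⟩, hY⟩ := (KR.perp_iff H h.lat hr hL.coc hL.cob y).1 hRN
    have hZ : ZV TP (fun d => ρ (jp d)) (fun d => J *ᵥ Y d) := by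
      refine ⟨lg_n1_mat J hYZ.1, fun s u => ?_⟩
      have h1 : Y (s * u) = Y s + (J * ρ (jp s) * J) *ᵥ Y u := hYZ.2 s u
      show J *ᵥ Y (s * u) = J *ᵥ Y s + ρ (jp s) *ᵥ (J *ᵥ Y u)
      rw [h1, mulVec_add, ← mulVec_mulVec, ← mulVec_mulVec, hJJ]
    refine ⟨fun d => J *ᵥ Y d, (hL.self _ hZ).2 fun X hX => ?_, fun d => ?_⟩
    · have h1 := hYp X hX
      have h2 : (fun s u => bil Sm (X s) (J *ᵥ (ρ (jp s) *ᵥ (J *ᵥ Y u)))) =
          GP.cupE (fun d => J * ρ (jp d) * J) Sm X Y := by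
        funext s u
        show _ = bil Sm (X s) ((J * ρ (jp s) * J) *ᵥ Y u)
        rw [← mulVec_mulVec, ← mulVec_mulVec]
      rw [h2]
      exact h1
    · have h1 := hY d
      rw [hyv] at h1
      show (x d : Wq T) = mq T (J *ᵥ Y d)
      rw [← GP.actQ_mq h.jT, ← h1, GP.actQ_mq h.jT, hJJ, mq_lft]
  · rintro a x ⟨X, hX, h1⟩
    have h2 := KR.be_inv_zero H (lg_W h (hL.coc X hX) ((hL.self X (hL.coc X hX)).1 hX X hX))
      (t.comp (LinearMap.mulLeft ℚ_[2] ((l : E) ^ N * (a : E))))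
    rw [← h2]
    congr 1
    funext s u
    have e1 : beN h N (a • x s) (actN l N ρ h.rep.st (jp s) (x u)) =
        pr0 (t ((l : E) ^ N * bil β ((a : E) • X s) (ρ (jp s) *ᵥ X u))) := by
      refine beN_val h N _ _ ?_ ?_
      · rw [Submodule.coe_smul, h1, ← mq_smul]
      · rw [GP.coe_actN, h1, GP.actQ_mq (h.rep.st _)]
    have e2 : laN χ l t β ρ T N a (jp s) (x u) =
        pr0 (t ((l : E) ^ N * ((a : E) * lamE χ β ρ (jp s) (X u)))) :=
      la_val h N a (jp s) (x u) (h1 u).symm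
    show beN h N (a • x s) (actN l N ρ h.rep.st (jp s) (x u)) + laN χ l t β ρ T N a (jp s) (x u) =
      pr0 (t ((l : E) ^ N * (a : E) * (bil β (X s) (ρ (jp s) *ᵥ X u) + lamE χ β ρ (jp s) (X u))))
    rw [e1, e2, ← map_add, ← map_add, GP.bil_smul_left]
    congr 2
    ring

end

end Pool.Agent.Work.MP_787500_nt.QV
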