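import Mathlib
import Pool.Agent.Work.MP_787500_nt.QV.App2
import Pool.Agent.Work.MP_787500_nt.KR.L09

/-!
The Selmer space of `V × V` over the rational numbers in terms of `V` over the imaginary quadratic field.

* `ind x (e g) = ind x (e g * c) = (x g, x (κ g))`: the cocycle of `V × V` given by a cocycle `x` of `V`.
* `selEquiv`: the Selmer space of `V × V` is `selK × V`, `selK` the cocycles `x` of `V` such that `ind x` satisfies the
  local conditions (which contain the coboundaries); `finrank_selE`.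
* local conditions: `ind_sp` (split place, `L × L^⊥`), `ind_cob` (coboundary on a subgroup in the image of `e`),
  `ind_ram` (coboundary on a subgroup with an element outside of the image of `e`).
-/

set_option autoImplicit false
set_option linter.unusedSectionVars false

namespace Pool.Agent.Work.MP_787500_nt.QV

open Matrix
open Pool.Agent.Work.MP_787500_nt.GP (A0 IsAct d0 d1 d2 tw cup11 cup21 cup12 cup01 cup02 EvPow IsPow OE MN
  actN actQ bN bil mq lft mq_lft mq_eq mq_add mq_smul mq_sub mq_eq_zero Wq Lat pr0 lamN mem_OE bil_add_left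
  bil_add_right bil_sub_left bil_sub_right bil_smul_left bil_smul_right pr0_zero_of_norm actQ_mq bN_val bil_symm)
open Pool.Agent.Work.MP_787500_nt.KR (FSys Sm1 Sm2 IsChar Smooth Z1 Z2 B2 LocH LocD Pair LDual GlobH Mid Sha2
  IsTr zM z1s b1s LocRep ZV PerpV zV perpSub RN)
open Pool.Agent.Work.MP_787500_nt.QS (QM Lag selQ HQ Flag pB pB_apply Zq Two ac2 be2 la2 be2_apply prY)
open Pool.Agent.Work.MP_787500_nt.PA (toE)

universe v

/-- coboundaries are continuous cocycles -/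
theorem zv_cob {E : Type*} [NormedField E] [NormedAlgebra ℚ_[2] E] [FiniteDimensional ℚ_[2] E] {n : ℕ}
    {S : Type*} [Group S] {SD : FSys S} {χ : S → ℤ_[2]} {T : Submodule (OE E) (Fin n → E)}
    {b : Matrix (Fin n) (Fin n) E} {ρ ρ' : S → Matrix (Fin n) (Fin n) E}
    (hb : bᵀ = b) (hr : LocRep SD χ T b ρ ρ') (v : Fin n → E) :
    ZV SD ρ (fun d => ρ d *ᵥ v - v) := by
  have hf : LocRep SD χ T b ρ' ρ :=
    { one := hr.one'
      mul := hr.mul'
      one' := hr.one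
      mul' := hr.mul
      st := hr.st'
      st' := hr.st
      sm := hr.sm'
      sm' := hr.sm
      dual := fun d x y => by rw [bil_symm hb, hr.dual, bil_symm hb] }
  exact (KR.cob_perpV hf (L := ⊥) (fun X hX => by
    rw [(Submodule.mem_bot E).1 hX]
    exact (zV SD ρ').zero_mem) v).1

section ind

variable {E : Type*} [NormedField E] [NormedAlgebra ℚ_[2] E] {n : ℕ} {G Γ : Type*} [Group G] [Group Γ]
  (e : G →* Γ) (c : Γ) (κ : G →* G)

open scoped Classical in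
/-- the cocycle of `V × V` given by a cocycle of `V` -/
noncomputable def ind (x : G → Fin n → E) (σ : Γ) : Fin (n + n) → E :=
  if h : ∃ g, e g = σ then ap (x h.choose) (x (κ h.choose))
  else if h : ∃ g, e g * c = σ then ap (x h.choose) (x (κ h.choose)) else 0

variable {e c κ}

theorem ind_e (X : Two e c κ) (x : G → Fin n → E) (g : G) : ind e c κ x (e g) = ap (x g) (x (κ g)) := by
  have h : ∃ g', e g' = e g := ⟨g, rfl⟩
  have h1 : h.choose = g := X.inj h.choose_spec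
  rw [ind, dif_pos h, h1]

theorem ind_ec (X : Two e c κ) (x : G → Fin n → E) (g : G) :
    ind e c κ x (e g * c) = ap (x g) (x (κ g)) := by
  have h0 : ¬∃ g', e g' = e g * c := fun ⟨g', h⟩ => X.out g g' h
  have h : ∃ g', e g' * c = e g * c := ⟨g, rfl⟩
  have h1 : h.choose = g := X.inj (mul_right_cancel h.choose_spec)
  rw [ind, dif_neg h0, dif_pos h, h1]

theorem ind_c (X : Two e c κ) {x : G → Fin n → E} (h : x 1 = 0) : ind e c κ x c = 0 := by
  have h1 := ind_ec X x 1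
  rw [map_one, one_mul, map_one, h] at h1
  rw [h1]
  apply ap_ext
  · rw [v1_ap]
    rfl
  · rw [v2_ap]
    rfl

theorem ap_zero : ap (0 : Fin n → E) 0 = 0 := ap_ext (v1_ap _ _) (v2_ap _ _)

theorem v1_add (v w : Fin (n + n) → E) : v1 (v + w) = v1 v + v1 w := rfl

theorem v2_add (v w : Fin (n + n) → E) : v2 (v + w) = v2 v + v2 w := rfl

theorem v1_sub (v w : Fin (n + n) → E) : v1 (v - w) = v1 v - v1 w := rfl

theorem v2_sub (v w : Fin (n + n) → E) : v2 (v - w) = v2 v - v2 w := rfl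

theorem ap_add (a b a' b' : Fin n → E) : ap (a + a') (b + b') = ap a b + ap a' b' := by
  apply ap_ext
  · rw [v1_ap, v1_add, v1_ap, v1_ap]
  · rw [v2_ap, v2_add, v2_ap, v2_ap]

theorem ind_add (X : Two e c κ) (x y : G → Fin n → E) :
    ind e c κ (x + y) = ind e c κ x + ind e c κ y := by
  funext σ
  rcases X.cases σ with ⟨g, rfl⟩ | ⟨g, rfl⟩
  · rw [Pi.add_apply, ind_e X, ind_e X, ind_e X]
    exact ap_add _ _ _ _
  · rw [Pi.add_apply, ind_ec X, ind_ec X, ind_ec X]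
    exact ap_add _ _ _ _

theorem ind_smul (X : Two e c κ) (a : E) (x : G → Fin n → E) :
    ind e c κ (a • x) = a • ind e c κ x := by
  have h : ∀ v w : Fin n → E, ap (a • v) (a • w) = a • ap v w := fun v w => by
    apply ap_ext
    · rw [v1_ap]
      show a • v = a • v1 (ap v w)
      rw [v1_ap]
    · rw [v2_ap]
      show a • w = a • v2 (ap v w)
      rw [v2_ap]
  funext σ
  rcases X.cases σ with ⟨g, rfl⟩ | ⟨g, rfl⟩
  · rw [Pi.smul_apply, ind_e X, ind_e X]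
    exact h _ _
  · rw [Pi.smul_apply, ind_ec X, ind_ec X]
    exact h _ _

variable {ρ : G → Matrix (Fin n) (Fin n) E}

private theorem mul_ec (X : Two e c κ) (g k : G) : e g * c * e k = e (g * κ k) * c := by
  rw [map_mul, X.kap]
  calc e g * c * e k = e g * c * e k * (c * c) := by rw [X.cc, mul_one]
    _ = e g * (c * e k * c) * c := by group

private theorem mul_ecc (X : Two e c κ) (g k : G) : e g * c * (e k * c) = e (g * κ k) := by
  rw [map_mul, X.kap]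
  group

section alg

theorem v1_rho_c (X : Two e c κ) (h1 : ρ 1 = 1) (v : Fin (n + n) → E) :
    v1 (rho2 e c κ ρ c *ᵥ v) = v2 v := by
  have h := v1_rhoc (ρ := ρ) X 1 v
  rw [map_one, one_mul, h1, Matrix.one_mulVec] at h
  exact h

theorem v2_rho_c (X : Two e c κ) (h1 : ρ 1 = 1) (v : Fin (n + n) → E) :
    v2 (rho2 e c κ ρ c *ᵥ v) = v1 v := by
  have h := v2_rhoc (ρ := ρ) X 1 v
  rw [map_one, one_mul, map_one, h1, Matrix.one_mulVec] at h
  exact h

/-- `ind x` is a cocycle -/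
theorem ind_coc (X : Two e c κ) {x : G → Fin n → E} (hx : ∀ s t, x (s * t) = x s + ρ s *ᵥ x t)
    (σ τ : Γ) : ind e c κ x (σ * τ) = ind e c κ x σ + rho2 e c κ ρ σ *ᵥ ind e c κ x τ := by
  rcases X.cases σ with ⟨g, rfl⟩ | ⟨g, rfl⟩ <;> rcases X.cases τ with ⟨k, rfl⟩ | ⟨k, rfl⟩
  · rw [← map_mul, ind_e X, ind_e X, ind_e X]
    apply ap_ext
    · rw [v1_add, v1_rho X, v1_ap, v1_ap, v1_ap, hx]
    · rw [v2_add, v2_rho X, v2_ap, v2_ap, v2_ap, map_mul, hx]
  · rw [← mul_assoc, ← map_mul, ind_ec X, ind_e X, ind_ec X]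
    apply ap_ext
    · rw [v1_add, v1_rho X, v1_ap, v1_ap, v1_ap, hx]
    · rw [v2_add, v2_rho X, v2_ap, v2_ap, v2_ap, map_mul, hx]
  · rw [mul_ec X, ind_ec X, ind_ec X, ind_e X]
    apply ap_ext
    · rw [v1_add, v1_rhoc X, v1_ap, v1_ap, v2_ap, hx]
    · rw [v2_add, v2_rhoc X, v2_ap, v2_ap, v1_ap, map_mul, X.kk, hx]
  · rw [mul_ecc X, ind_e X, ind_ec X, ind_ec X]
    apply ap_ext
    · rw [v1_add, v1_rhoc X, v1_ap, v1_ap, v2_ap, hx]
    · rw [v2_add, v2_rhoc X, v2_ap, v2_ap, v1_ap, map_mul, X.kk, hx]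

/-- a cocycle of `V × V` is `ind x` up to a coboundary -/
theorem coc_ind (X : Two e c κ) (h1 : ρ 1 = 1) {Y : Γ → Fin (n + n) → E}
    (hY : ∀ s t, Y (s * t) = Y s + rho2 e c κ ρ s *ᵥ Y t) (hc : v1 (Y c) = 0) :
    Y = ind e c κ (fun g => v1 (Y (e g))) := by
  have hone : Y 1 = 0 := by
    have h := hY 1 1
    rw [mul_one, rho2_one X h1, Matrix.one_mulVec] at h
    exact left_eq_add.1 h
  have hYc : Y c = 0 := by
    have h := hY c c
    rw [X.cc, hone] at h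
    have h2 := congrArg v2 h
    rw [v2_add, v2_rho_c X h1, hc, add_zero] at h2
    exact ap_ext (hc.trans rfl) (h2.symm.trans rfl)
  have hec : ∀ g, Y (e g * c) = Y (e g) := fun g => by
    rw [hY, hYc, Matrix.mulVec_zero, add_zero]
  have h2 : ∀ g, v2 (Y (e g)) = v1 (Y (e (κ g))) := fun g => by
    have h := hY c (e g)
    have e2 : c * e g = e (κ g) * c := by
      rw [X.kap]
      calc c * e g = c * e g * (c * c) := by rw [X.cc, mul_one]
        _ = c * e g * c * c := by group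
    rw [e2, hec, hYc, zero_add] at h
    rw [h, v1_rho_c X h1]
  funext σ
  rcases X.cases σ with ⟨g, rfl⟩ | ⟨g, rfl⟩
  · rw [ind_e X]
    apply ap_ext
    · rw [v1_ap]
    · rw [v2_ap, h2]
  · rw [ind_ec X, hec]
    apply ap_ext
    · rw [v1_ap]
    · rw [v2_ap, h2]

end alg

/-- continuity on `G` for the system of `Γ` -/
def N1e (Sq : FSys Γ) (e : G →* Γ) (x : G → Fin n → E) : Prop :=
  ∀ ε : ℝ, 0 < ε → ∃ W, Sq.mem W ∧ ∀ g w, e w ∈ W → ‖x (g * w) - x g‖ < ε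

theorem ind_N1 (X : Two e c κ) {Sq : FSys Γ} (dn : ∃ W, Sq.mem W ∧ ∀ σ ∈ W, ∃ g, e g = σ)
    {x : G → Fin n → E} (hx : N1e Sq e x) : KP.N1 Sq (ind e c κ x) := by
  intro ε hε
  obtain ⟨W₀, hW₀, dn⟩ := dn
  obtain ⟨W, hW, h1⟩ : ∃ W, Sq.mem W ∧ W ≤ W₀ ∧ ∀ g w, e w ∈ W → ‖x (g * w) - x g‖ < ε := by
    obtain ⟨W, hW, h1⟩ := hx ε hε
    exact ⟨W₀ ⊓ W, Sq.inf hW₀ hW, inf_le_left, fun g w hw => h1 g w hw.2⟩
  obtain ⟨hle, h1⟩ := h1
  refine ⟨W, hW, fun σ w hw => ?_⟩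
  obtain ⟨k, rfl⟩ := dn w (hle hw)
  have hn := Sq.normal hW
  have hk : e (κ k) ∈ W := by
    rw [X.kap]
    have h := hn.conj_mem (e k) hw c
    have e2 : c⁻¹ = c := inv_eq_of_mul_eq_one_left X.cc
    rw [e2] at h
    exact h
  have key : ∀ g k' : G, e k' ∈ W → e (κ k') ∈ W →
      ‖ap (x (g * k')) (x (κ (g * k'))) - ap (x g) (x (κ g))‖ < ε := fun g k' h2 h3 => by
    rw [norm_v, v1_sub, v2_sub, v1_ap, v1_ap, v2_ap, v2_ap, map_mul]
    exact max_lt (h1 _ _ h2) (h1 _ _ h3)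
  rcases X.cases σ with ⟨g, rfl⟩ | ⟨g, rfl⟩
  · rw [← map_mul, ind_e X, ind_e X]
    exact key g k hw hk
  · rw [mul_ec X, ind_ec X, ind_ec X]
    refine key g (κ k) hk ?_
    rw [X.kk]
    exact hw

theorem N1_ind {Sq : FSys Γ} {Y : Γ → Fin (n + n) → E} (hY : KP.N1 Sq Y) :
    N1e Sq e (fun g => v1 (Y (e g))) := by
  intro ε hε
  obtain ⟨W, hW, h1⟩ := hY ε hε
  refine ⟨W, hW, fun g w hw => ?_⟩
  show ‖v1 (Y (e (g * w))) - v1 (Y (e g))‖ < ε
  rw [map_mul]
  refine lt_of_le_of_lt ?_ (h1 (e g) (e w) hw)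
  rw [norm_v (Y (e g * e w) - Y (e g))]
  exact le_max_left _ _

end ind

section sel

variable {E : Type*} [NormedField E] [NormedAlgebra ℚ_[2] E] {n : ℕ} {G Γ : Type*} [Group G]
  [Group Γ] {e : G →* Γ} {c : Γ} {κ : G →* G} {ρ : G → Matrix (Fin n) (Fin n) E} {Sq : FSys Γ}
  {I : Type*} {D : I → Type*} [∀ i, Group (D i)] {j : ∀ i, D i →* Γ}
  {L : ∀ i, Submodule E (D i → Fin (n + n) → E)}

/-- the cocycles `x` of `V` such that `ind x` satisfies the local conditions -/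
def selK (X : Two e c κ) (Sq : FSys Γ) (j : ∀ i, D i →* Γ) (ρ : G → Matrix (Fin n) (Fin n) E)
    (L : ∀ i, Submodule E (D i → Fin (n + n) → E)) : Submodule E (G → Fin n → E) where
  carrier := {x | N1e Sq e x ∧ (∀ s t, x (s * t) = x s + ρ s *ᵥ x t) ∧
    ∀ i, (fun d => ind e c κ x (j i d)) ∈ L i}
  add_mem' := by
    rintro x y ⟨h1, h2, h3⟩ ⟨h1', h2', h3'⟩
    refine ⟨fun ε hε => ?_, fun s t => ?_, fun i => ?_⟩
    · obtain ⟨W, hW, k1⟩ := h1 (ε / 2) (half_pos hε)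
      obtain ⟨W', hW', k2⟩ := h1' (ε / 2) (half_pos hε)
      refine ⟨W ⊓ W', Sq.inf hW hW', fun g w hw => ?_⟩
      have k3 : (x + y) (g * w) - (x + y) g = (x (g * w) - x g) + (y (g * w) - y g) := by
        simp only [Pi.add_apply]
        abel
      rw [k3]
      exact (norm_add_le _ _).trans_lt (by linarith [k1 g w hw.1, k2 g w hw.2])
    · rw [Pi.add_apply, Pi.add_apply, Pi.add_apply, h2, h2', mulVec_add]
      abel
    · rw [ind_add X]
      exact (L i).add_mem (h3 i) (h3' i)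
  zero_mem' := by
    refine ⟨fun ε hε => ?_, fun s t => ?_, fun i => ?_⟩
    · obtain ⟨W, hW⟩ := Sq.ex
      exact ⟨W, hW, fun g w _ => by simpa using hε⟩
    · simp
    · have h0 : ind e c κ (0 : G → Fin n → E) = 0 := by
        have h := ind_smul X (0 : E) (0 : G → Fin n → E)
        rw [zero_smul, zero_smul] at h
        exact h
      rw [h0]
      exact (L i).zero_mem
  smul_mem' := by
    rintro a x ⟨h1, h2, h3⟩
    refine ⟨fun ε hε => ?_, fun s t => ?_, fun i => ?_⟩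
    · obtain ⟨W, hW, k1⟩ := h1 (ε / (‖a‖ + 1)) (by positivity)
      refine ⟨W, hW, fun g w hw => ?_⟩
      have k3 : (a • x) (g * w) - (a • x) g = a • (x (g * w) - x g) := by
        simp only [Pi.smul_apply, smul_sub]
      rw [k3, norm_smul]
      have k4 := k1 g w hw
      have k5 : 0 ≤ ‖a‖ := norm_nonneg a
      rw [lt_div_iff₀ (by positivity)] at k4
      have k6 : 0 ≤ ‖x (g * w) - x g‖ := norm_nonneg _
      nlinarith
    · rw [Pi.smul_apply, Pi.smul_apply, Pi.smul_apply, h2, mulVec_smul, smul_add]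
    · rw [ind_smul X]
      exact (L i).smul_mem a (h3 i)

theorem mem_selK {X : Two e c κ} {x : G → Fin n → E} : x ∈ selK X Sq j ρ L ↔
    N1e Sq e x ∧ (∀ s t, x (s * t) = x s + ρ s *ᵥ x t) ∧
      ∀ i, (fun d => ind e c κ x (j i d)) ∈ L i := Iff.rfl

/-- the coboundary of `(0, a)` -/
private noncomputable def cb (e : G →* Γ) (c : Γ) (κ : G →* G) (ρ : G → Matrix (Fin n) (Fin n) E)
    (a : Fin n → E) (σ : Γ) : Fin (n + n) → E :=
  rho2 e c κ ρ σ *ᵥ ap 0 a - ap 0 a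

private theorem v1_cb_e (X : Two e c κ) (a : Fin n → E) (g : G) : v1 (cb e c κ ρ a (e g)) = 0 := by
  rw [cb, v1_sub, v1_rho X, v1_ap, mulVec_zero, sub_zero]

private theorem v1_cb_c (X : Two e c κ) (h1 : ρ 1 = 1) (a : Fin n → E) :
    v1 (cb e c κ ρ a c) = a := by
  rw [cb, v1_sub, v1_ap, sub_zero, v1_rho_c X h1, v2_ap]

private theorem ap_za (a : E) (v : Fin n → E) : ap 0 (a • v) = a • ap 0 v := by
  apply ap_ext
  · rw [v1_ap]
    show (0 : Fin n → E) = a • v1 (ap 0 v)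
    rw [v1_ap, smul_zero]
  · rw [v2_ap]
    show a • v = a • v2 (ap 0 v)
    rw [v2_ap]

/-- THE SELMER SPACE OF `V × V`. -/
noncomputable def selEquiv (X : Two e c κ) (h1 : ρ 1 = 1)
    (dn : ∃ W, Sq.mem W ∧ ∀ σ ∈ W, ∃ g, e g = σ)
    (hz : ∀ v, ZV Sq (rho2 e c κ ρ) (fun σ => rho2 e c κ ρ σ *ᵥ v - v))
    (hcob : ∀ i v, (fun d => rho2 e c κ ρ (j i d) *ᵥ v - v) ∈ L i) :
    (selK X Sq j ρ L × (Fin n → E)) ≃ₗ[E] selE Sq j (rho2 e c κ ρ) L where
  toFun p := ⟨ind e c κ p.1.1 + cb e c κ ρ p.2,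
    (zV Sq _).add_mem ⟨ind_N1 X dn p.1.2.1, ind_coc X p.1.2.2.1⟩ (hz _),
    fun i => (L i).add_mem (p.1.2.2.2 i) (hcob i _)⟩
  invFun Y := (⟨fun g => v1 (Y.1 (e g)), by
      have hc : ∀ s t, (Y.1 - cb e c κ ρ (v1 (Y.1 c))) (s * t) =
          (Y.1 - cb e c κ ρ (v1 (Y.1 c))) s +
            rho2 e c κ ρ s *ᵥ (Y.1 - cb e c κ ρ (v1 (Y.1 c))) t :=
        have hmem : Y.1 - cb e c κ ρ (v1 (Y.1 c)) ∈ zV Sq (rho2 e c κ ρ) :=
          Submodule.sub_mem (p := zV Sq (rho2 e c κ ρ)) (x := Y.1)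
            (y := cb e c κ ρ (v1 (Y.1 c))) Y.2.1 (hz (ap 0 (v1 (Y.1 c))))
        hmem.2
      have hd := coc_ind X h1 hc (by rw [Pi.sub_apply, v1_sub, v1_cb_c X h1, sub_self])
      have he : (fun g => v1 ((Y.1 - cb e c κ ρ (v1 (Y.1 c))) (e g))) =
          fun g => v1 (Y.1 (e g)) := by
        funext g
        rw [Pi.sub_apply, v1_sub, v1_cb_e X, sub_zero]
      rw [he] at hd
      refine ⟨N1_ind Y.2.1.1, fun s t => ?_, fun i => ?_⟩
      · show v1 (Y.1 (e (s * t))) = v1 (Y.1 (e s)) + ρ s *ᵥ v1 (Y.1 (e t))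
        rw [map_mul, Y.2.1.2, v1_add, v1_rho X]
      · have h3 := (L i).sub_mem (Y.2.2 i) (hcob i (ap 0 (v1 (Y.1 c))))
        have e3 : (fun d => ind e c κ (fun g => v1 (Y.1 (e g))) (j i d)) =
            (fun d => Y.1 (j i d)) -
              fun d => rho2 e c κ ρ (j i d) *ᵥ ap 0 (v1 (Y.1 c)) - ap 0 (v1 (Y.1 c)) := by
          funext d
          rw [← hd]
          rfl
        rw [e3]
        exact h3⟩, v1 (Y.1 c))
  left_inv p := by
    have h0 : (p.1.1 : G → Fin n → E) 1 = 0 := by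
      have h := p.1.2.2.1 1 1
      rw [mul_one, h1, Matrix.one_mulVec] at h
      exact left_eq_add.1 h
    refine Prod.ext (Subtype.ext ?_) ?_
    · funext g
      show v1 ((ind e c κ p.1.1 + cb e c κ ρ p.2) (e g)) = p.1.1 g
      rw [Pi.add_apply, v1_add, ind_e X, v1_ap, v1_cb_e X, add_zero]
    · show v1 ((ind e c κ p.1.1 + cb e c κ ρ p.2) c) = p.2
      rw [Pi.add_apply, v1_add, ind_c X h0, v1_cb_c X h1]
      exact zero_add _
  right_inv Y := by
    apply Subtype.ext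
    have hc : ∀ s t, (Y.1 - cb e c κ ρ (v1 (Y.1 c))) (s * t) =
        (Y.1 - cb e c κ ρ (v1 (Y.1 c))) s +
          rho2 e c κ ρ s *ᵥ (Y.1 - cb e c κ ρ (v1 (Y.1 c))) t :=
      have hmem : Y.1 - cb e c κ ρ (v1 (Y.1 c)) ∈ zV Sq (rho2 e c κ ρ) :=
        Submodule.sub_mem (p := zV Sq (rho2 e c κ ρ)) (x := Y.1)
            (y := cb e c κ ρ (v1 (Y.1 c))) Y.2.1 (hz (ap 0 (v1 (Y.1 c))))
      hmem.2
    have hd := coc_ind X h1 hc (by rw [Pi.sub_apply, v1_sub, v1_cb_c X h1, sub_self])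
    have he : (fun g => v1 ((Y.1 - cb e c κ ρ (v1 (Y.1 c))) (e g))) =
        fun g => v1 (Y.1 (e g)) := by
      funext g
      rw [Pi.sub_apply, v1_sub, v1_cb_e X, sub_zero]
    rw [he] at hd
    show ind e c κ (fun g => v1 (Y.1 (e g))) + cb e c κ ρ (v1 (Y.1 c)) = Y.1
    rw [← hd]
    abel
  map_add' p p' := by
    apply Subtype.ext
    show ind e c κ (p.1.1 + p'.1.1) + cb e c κ ρ (p.2 + p'.2) =
      (ind e c κ p.1.1 + cb e c κ ρ p.2) + (ind e c κ p'.1.1 + cb e c κ ρ p'.2)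
    have h2 : cb e c κ ρ (p.2 + p'.2) = cb e c κ ρ p.2 + cb e c κ ρ p'.2 := by
      funext σ
      have h3 : ap 0 (p.2 + p'.2) = ap 0 p.2 + ap 0 p'.2 := by
        rw [← ap_add, add_zero]
      rw [Pi.add_apply, cb, cb, cb, h3, mulVec_add]
      abel
    rw [ind_add X, h2]
    abel
  map_smul' a p := by
    apply Subtype.ext
    show ind e c κ (a • p.1.1) + cb e c κ ρ (a • p.2) =
      a • (ind e c κ p.1.1 + cb e c κ ρ p.2)
    have h2 : cb e c κ ρ (a • p.2) = a • cb e c κ ρ p.2 := by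
      funext σ
      rw [Pi.smul_apply, cb, cb, ap_za, mulVec_smul, smul_sub]
    rw [ind_smul X, h2, smul_add]

theorem finrank_selE (X : Two e c κ) (h1 : ρ 1 = 1)
    (dn : ∃ W, Sq.mem W ∧ ∀ σ ∈ W, ∃ g, e g = σ)
    (hz : ∀ v, ZV Sq (rho2 e c κ ρ) (fun σ => rho2 e c κ ρ σ *ᵥ v - v))
    (hcob : ∀ i v, (fun d => rho2 e c κ ρ (j i d) *ᵥ v - v) ∈ L i)
    [FiniteDimensional E (selE Sq j (rho2 e c κ ρ) L)] :
    FiniteDimensional E (selK X Sq j ρ L) ∧
      Module.finrank E (selE Sq j (rho2 e c κ ρ) L) = Module.finrank E (selK X Sq j ρ L) + n := by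
  have f := selEquiv X h1 dn hz hcob
  have h2 : FiniteDimensional E (selK X Sq j ρ L) := by
    refine FiniteDimensional.of_injective
      (f.toLinearMap.comp (LinearMap.inl E (selK X Sq j ρ L) (Fin n → E))) ?_
    exact f.injective.comp LinearMap.inl_injective
  refine ⟨h2, ?_⟩
  rw [← f.finrank_eq, Module.finrank_prod, Module.finrank_fin_fun]

end sel

section places

variable {E : Type*} [NormedField E] [NormedAlgebra ℚ_[2] E] {n : ℕ} {G Γ : Type*} [Group G]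
  [Group Γ] {e : G →* Γ} {c : Γ} {κ : G →* G} {ρ : G → Matrix (Fin n) (Fin n) E}
  {P : Type*} [Group P] {jp : P →* Γ}

/-- the condition at a split place -/
theorem ind_pr (X : Two e c κ) {j : P → G} (hj : ∀ d, jp d = e (j d))
    {L L' : Submodule E (P → Fin n → E)} (x : G → Fin n → E) :
    (fun d => ind e c κ x (jp d)) ∈ prE L L' ↔
      (fun d => x (j d)) ∈ L ∧ (fun d => x (κ (j d))) ∈ L' := by
  have e1 : ∀ d, ind e c κ x (jp d) = ap (x (j d)) (x (κ (j d))) := fun d => by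
    rw [hj, ind_e X]
  rw [mem_prE]
  simp only [e1, v1_ap, v2_ap]

/-- coboundary on a subset in the image of `e` -/
theorem ind_cob (X : Two e c κ) {I : Set Γ} (hI : ∀ σ ∈ I, ∃ g, e g = σ) (x : G → Fin n → E) :
    (∃ v, ∀ σ ∈ I, ind e c κ x σ = rho2 e c κ ρ σ *ᵥ v - v) ↔
      (∃ v, ∀ g, e g ∈ I → x g = ρ g *ᵥ v - v) ∧
        ∃ v, ∀ g, e g ∈ I → x (κ g) = ρ (κ g) *ᵥ v - v := by
  constructor
  · rintro ⟨v, h1⟩
    refine ⟨⟨v1 v, fun g hg => ?_⟩, ⟨v2 v, fun g hg => ?_⟩⟩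
    · have h2 := congrArg v1 (h1 _ hg)
      rw [ind_e X, v1_ap, v1_sub, v1_rho X] at h2
      exact h2
    · have h2 := congrArg v2 (h1 _ hg)
      rw [ind_e X, v2_ap, v2_sub, v2_rho X] at h2
      exact h2
  · rintro ⟨⟨v, h1⟩, ⟨w, h2⟩⟩
    refine ⟨ap v w, fun σ hσ => ?_⟩
    obtain ⟨g, rfl⟩ := hI σ hσ
    rw [ind_e X]
    apply ap_ext
    · rw [v1_ap, v1_sub, v1_rho X, v1_ap]
      exact h1 g hσ
    · rw [v2_ap, v2_sub, v2_rho X, v2_ap]
      exact h2 g hσ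

/-- a cocycle on a group `J` which is a coboundary on a subgroup of index two is a coboundary -/
theorem ind_ram (X : Two e c κ) (h1 : ρ 1 = 1) (hm : ∀ s t, ρ (s * t) = ρ s * ρ t)
    {J : Subgroup Γ} {θ : G} (hθ : e θ * c ∈ J) {x : G → Fin n → E}
    (hx : ∀ s t, x (s * t) = x s + ρ s *ᵥ x t) :
    (∃ v, ∀ σ ∈ J, ind e c κ x σ = rho2 e c κ ρ σ *ᵥ v - v) ↔
      (∃ v, ∀ g, e g ∈ J → x g = ρ g *ᵥ v - v) := by
  constructor
  · rintro ⟨v, h2⟩
    refine ⟨v1 v, fun g hg => ?_⟩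
    have h3 := congrArg v1 (h2 _ hg)
    rw [ind_e X, v1_ap, v1_sub, v1_rho X] at h3
    exact h3
  · rintro ⟨v, h2⟩
    let w : Fin n → E := ρ (κ θ) *ᵥ v - x (κ θ)
    have hc := ind_coc (ρ := ρ) X hx
    let Z : Γ → Fin (n + n) → E := fun σ => ind e c κ x σ - (rho2 e c κ ρ σ *ᵥ ap v w - ap v w)
    have hZ : ∀ s t, Z (s * t) = Z s + rho2 e c κ ρ s *ᵥ Z t := fun s t => by
      show ind e c κ x (s * t) - (rho2 e c κ ρ (s * t) *ᵥ ap v w - ap v w) =
        (ind e c κ x s - (rho2 e c κ ρ s *ᵥ ap v w - ap v w)) +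
          rho2 e c κ ρ s *ᵥ (ind e c κ x t - (rho2 e c κ ρ t *ᵥ ap v w - ap v w))
      rw [hc, rho2_mul X hm, mulVec_sub, mulVec_sub, Matrix.mulVec_mulVec]
      abel
    have hinv : ∀ y : Fin n → E, ρ θ *ᵥ y = 0 → y = 0 := fun y hy => by
      have h3 : ρ θ⁻¹ *ᵥ (ρ θ *ᵥ y) = y := by
        rw [Matrix.mulVec_mulVec, ← hm, inv_mul_cancel, h1, Matrix.one_mulVec]
      rw [← h3, hy, mulVec_zero]
    -- the first component
    have z1 : ∀ g, e g ∈ J → v1 (Z (e g)) = 0 := fun g hg => by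
      show v1 (ind e c κ x (e g) - (rho2 e c κ ρ (e g) *ᵥ ap v w - ap v w)) = 0
      rw [v1_sub, v1_sub, ind_e X, v1_ap, v1_rho X, v1_ap, h2 g hg, sub_self]
    -- the value at `t`
    have hsq : e (θ * κ θ) ∈ J := by
      rw [← mul_ecc X]
      exact J.mul_mem hθ hθ
    have zt : Z (e θ * c) = 0 := by
      have h3 := h2 _ hsq
      rw [hx, hm, ← Matrix.mulVec_mulVec] at h3
      apply ap_ext
      · show v1 (ind e c κ x (e θ * c) - (rho2 e c κ ρ (e θ * c) *ᵥ ap v w - ap v w)) = 0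
        rw [v1_sub, v1_sub, ind_ec X, v1_ap, v1_rhoc X, v1_ap, v2_ap]
        show x θ - (ρ θ *ᵥ (ρ (κ θ) *ᵥ v - x (κ θ)) - v) = 0
        rw [mulVec_sub]
        have h4 : x θ = ρ θ *ᵥ (ρ (κ θ) *ᵥ v) - v - ρ θ *ᵥ x (κ θ) := by
          rw [← h3]
          abel
        rw [h4]
        abel
      · show v2 (ind e c κ x (e θ * c) - (rho2 e c κ ρ (e θ * c) *ᵥ ap v w - ap v w)) = 0
        rw [v2_sub, v2_sub, ind_ec X, v2_ap, v2_rhoc X, v1_ap, v2_ap]
        show x (κ θ) - (ρ (κ θ) *ᵥ v - (ρ (κ θ) *ᵥ v - x (κ θ))) = 0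
        abel
    -- the second component
    have z2 : ∀ g, e g ∈ J → v2 (Z (e g)) = 0 := fun g hg => by
      have h3 : e (θ * κ g * θ⁻¹) * (e θ * c) = e θ * c * e g := by
        rw [mul_ec X, ← mul_assoc, ← map_mul, inv_mul_cancel_right]
      have h4 : e (θ * κ g * θ⁻¹) ∈ J := by
        have h5 : e (θ * κ g * θ⁻¹) = e θ * c * e g * (e θ * c)⁻¹ := by
          rw [← h3, mul_inv_cancel_right]
        rw [h5]
        exact J.mul_mem (J.mul_mem hθ hg) (J.inv_mem hθ)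
      have h5 := congrArg Z h3
      rw [hZ (e (θ * κ g * θ⁻¹)) (e θ * c), hZ (e θ * c) (e g), zt, mulVec_zero, add_zero,
        zero_add] at h5
      have h6 := congrArg v1 h5
      rw [z1 _ h4, v1_rhoc X] at h6
      exact hinv _ h6.symm
    refine ⟨ap v w, fun σ hσ => sub_eq_zero.1 ?_⟩
    show Z σ = 0
    rcases X.cases σ with ⟨g, rfl⟩ | ⟨g, rfl⟩
    · exact ap_ext (z1 g hσ) (z2 g hσ)
    · have h3 : e g * c = e θ * c * e (κ (θ⁻¹ * g)) := by
        rw [mul_ec X, X.kk, mul_inv_cancel_left]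
      have h4 : e (κ (θ⁻¹ * g)) ∈ J := by
        have h5 : e (κ (θ⁻¹ * g)) = (e θ * c)⁻¹ * (e g * c) := by
          rw [h3, inv_mul_cancel_left]
        rw [h5]
        exact J.mul_mem (J.inv_mem hθ) hσ
      have h5 : Z (e (κ (θ⁻¹ * g))) = 0 := ap_ext (z1 _ h4) (z2 _ h4)
      rw [h3, hZ (e θ * c) (e (κ (θ⁻¹ * g))), zt, h5, mulVec_zero, add_zero]

end places

end Pool.Agent.Work.MP_787500_nt.QV
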