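import Mathlib
import Pool.Agent.Work.MP_787500_nt.QS.Change
import Pool.Agent.Work.MP_787500_nt.QL.Lag

/-!
The number of elements of a Lagrangian local condition: `|Y| ^ 2 = |Z1| * |B1|`, so `|Y| = |B1| * t` with
`t ^ 2 = h1`.
-/

set_option autoImplicit false
set_option linter.unusedSectionVars false

namespace Pool.Agent.Work.MP_787500_nt.QV

open Pool.Agent.Work.MP_787500_nt.GP (A0 IsAct d0 d1 d2 tw cup11 cup21 cup12 cup01 cup02 EvPow IsPow)
open Pool.Agent.Work.MP_787500_nt.KR (FSys Sm1 Sm2 IsChar Smooth Z1 Z2 B2 LocH Pair LDual GlobH Mid Sha2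
  IsTr zM z1s b1s h1 sh1)
open Pool.Agent.Work.MP_787500_nt.QS

universe u v

section lag

variable {X : Type*} [Group X] {T : FSys X} {χ : X → ℤ_[2]} {iv : (X → X → A0) → A0}
  {O : Type*} [CommRing O] {V : Type*} [AddCommGroup V] [Module O V] [Finite V] {ρ : X → V → V}
  {β : V →+ V →+ A0} {l : O → X → V → A0}

/-- the number of elements of a Lagrangian condition -/
theorem lag_sq (L : LocH T χ iv) (h : QM T χ O ρ β l) (hl : LDual T iv ρ ρ (pB β))
    {Y : Submodule O (X → V)} (hY : Lag T iv ρ β l Y) :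
    Nat.card Y * Nat.card Y = Nat.card (z1s T h.act) * Nat.card (b1s h.act) := by
  have f1 : Finite (z1s T h.act) := hl.fin
  let Λ : AddSubgroup (z1s T h.act) := Y.toAddSubgroup.addSubgroupOf (z1s T h.act)
  have e := GP.card_perp (QL.zB L h.pair) Λ (fun x hx => by
    obtain ⟨m, hm⟩ := hl.one x.1 x.2 fun y hy => hx ⟨y, hy⟩
    rw [AddSubgroup.mem_addSubgroupOf, hm]
    exact Lag.cob L h hY m)
  have e1 : GP.perpL (QL.zB L h.pair) Λ = Λ := by
    ext y
    rw [AddSubgroup.mem_addSubgroupOf]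
    show (∀ x ∈ Λ, QL.zB L h.pair x y = 0) ↔ y.1 ∈ Y
    rw [hY.self y.1 y.2]
    constructor
    · intro h1 x hx
      rw [iv_symm L h y.2 (hY.coc x hx)]
      exact h1 ⟨x, hY.coc x hx⟩ (AddSubgroup.mem_addSubgroupOf.2 hx)
    · intro h1 x hx
      rw [QL.zB_apply, iv_symm L h x.2 y.2]
      exact h1 x.1 (AddSubgroup.mem_addSubgroupOf.1 hx)
  have e2 : Nat.card Λ = Nat.card Y :=
    Nat.card_congr (AddSubgroup.addSubgroupOfEquivOfLe fun x hx => hY.coc x hx).toEquiv
  rw [e1, QL.card_radL L h.pair hl, e2] at e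
  exact e

/-- the square root of the number of classes -/
theorem lag_h1 (L : LocH T χ iv) (h : QM T χ O ρ β l) (hl : LDual T iv ρ ρ (pB β))
    {Y : Submodule O (X → V)} (hY : Lag T iv ρ β l Y) :
    ∃ t : ℕ, t * t = h1 T h.act ∧ Nat.card Y = Nat.card (b1s h.act) * t := by
  have f1 : Finite (z1s T h.act) := hl.fin
  have hle : b1s h.act ≤ Y.toAddSubgroup := by
    rintro x ⟨m, rfl⟩
    exact Lag.cob L h hY m
  have e1 := AddSubgroup.relIndex_mul_relIndex (⊥ : AddSubgroup (X → V)) (b1s h.act)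
    Y.toAddSubgroup bot_le hle
  rw [AddSubgroup.relIndex_bot_left, AddSubgroup.relIndex_bot_left] at e1
  have e2 : Nat.card (b1s h.act) * (b1s h.act).relIndex Y.toAddSubgroup = Nat.card Y := e1
  have e3 := lag_sq L h hl hY
  have e4 := KR.card_z1s h.pair
  have hb : Finite (b1s h.act) := by
    have hle' : b1s h.act ≤ z1s T h.act := by
      rintro x ⟨m, rfl⟩
      exact KR.d0_Z1 h.act h.sm m
    exact Finite.of_injective _ (AddSubgroup.inclusion_injective hle')
  refine ⟨_, ?_, e2.symm⟩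
  have hpos : 0 < Nat.card (b1s h.act) := Nat.card_pos
  refine Nat.eq_of_mul_eq_mul_left (Nat.mul_pos hpos hpos) ?_
  calc Nat.card (b1s h.act) * Nat.card (b1s h.act) *
        ((b1s h.act).relIndex Y.toAddSubgroup * (b1s h.act).relIndex Y.toAddSubgroup)
      = Nat.card (b1s h.act) * (b1s h.act).relIndex Y.toAddSubgroup *
        (Nat.card (b1s h.act) * (b1s h.act).relIndex Y.toAddSubgroup) := by ring
    _ = Nat.card (b1s h.act) * h1 T h.act * Nat.card (b1s h.act) := by rw [e2, e3, e4]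
    _ = _ := by ring


/-- the square root of the number of classes is a power of `q` -/
theorem lag_t [IsLocalRing O] [Finite (IsLocalRing.ResidueField O)] (L : LocH T χ iv)
    (h : QM T χ O ρ β l) (hl : LDual T iv ρ ρ (pB β)) {Y : Submodule O (X → V)}
    (hY : Lag T iv ρ β l Y) :
    ∃ t : ℕ, t * t = h1 T h.act ∧ Nat.card Y = Nat.card (b1s h.act) * t ∧
      IsPow (Nat.card (IsLocalRing.ResidueField O)) t := by
  obtain ⟨t, h1, h2⟩ := lag_h1 L h hl hY
  refine ⟨t, h1, h2, ?_⟩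
  let B : Submodule O (X → V) :=
    { carrier := {x | ∃ m, x = d0 ρ m}
      add_mem' := by
        rintro x y ⟨m, rfl⟩ ⟨m', rfl⟩
        exact (b1s h.act).add_mem ⟨m, rfl⟩ ⟨m', rfl⟩
      zero_mem' := (b1s h.act).zero_mem
      smul_mem' := by
        rintro a x ⟨m, rfl⟩
        refine ⟨a • m, ?_⟩
        funext d
        show a • (ρ d m - m) = ρ d (a • m) - a • m
        rw [h.lin, smul_sub] }
  have f0 : Finite (zM (O := O) T h.act h.lin) := hl.fin
  have f1 : Finite Y := Finite.of_injective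
    (fun y : Y => (⟨y.1, hY.coc y.1 y.2⟩ : zM (O := O) T h.act h.lin)) fun y y' hy =>
      Subtype.ext (Subtype.mk.inj hy)
  have f2 : Finite B := Finite.of_injective
    (fun y : B => (⟨y.1, by
      obtain ⟨m, hm⟩ := y.2
      rw [hm]
      exact Lag.cob L h hY m⟩ : Y)) fun y y' hy => Subtype.ext (Subtype.mk.inj hy)
  obtain ⟨a, ha⟩ := GP.card_pow (O := O) Y
  obtain ⟨b, hb⟩ := GP.card_pow (O := O) B
  have hB : Nat.card (b1s h.act) = Nat.card B := rfl
  have hq := GP.q_two_le (O := O)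
  rw [hB, ha, hb] at h2
  have hle : b ≤ a := (Nat.pow_dvd_pow_iff_le_right hq).1 ⟨t, h2⟩
  have hq0 : 0 < Nat.card (IsLocalRing.ResidueField O) := by omega
  refine ⟨a - b, Nat.eq_of_mul_eq_mul_left (pow_pos hq0 b) ?_⟩
  rw [← h2, ← pow_add, Nat.add_sub_cancel' hle]

end lag

end Pool.Agent.Work.MP_787500_nt.QV
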